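import Mathlib

set_option autoImplicit false

namespace Pool.Agent.Helper599.Core

open Equiv

/-- A counter machine whose steps are affine on residue classes: in state `q` with counters `n`,
all residues modulo `B` being given by `r`, the next state is `nxt q r` (`none`: stop) and the
counter `n j` becomes `a q r j * (n j / B) + b q r j`. The number `l` bounds all `a`, `b`. -/
structure Sys (Q J : Type) where
  B : ℕ
  hB : 0 < B
  l : ℕ
  nxt : Q → (J → Fin B) → Option Q
  a : Q → (J → Fin B) → J → ℕ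
  b : Q → (J → Fin B) → J → ℕ
  ha : ∀ q r j, a q r j ≤ l
  hb : ∀ q r j, b q r j ≤ l

namespace Sys

variable {Q J : Type} (M : Sys Q J)

/-- residues of the counters -/
def res (n : J → ℕ) : J → Fin M.B := fun j => ⟨n j % M.B, Nat.mod_lt _ M.hB⟩

/-- new counters -/
def nn (q : Q) (n : J → ℕ) : J → ℕ :=
  fun j => M.a q (M.res n) j * (n j / M.B) + M.b q (M.res n) j

/-- the machine stops from the configuration -/
inductive Halts : Option Q → (J → ℕ) → Prop
  | stop (n : J → ℕ) : Halts none n
  | step (q : Q) (n : J → ℕ) : Halts (M.nxt q (M.res n)) (M.nn q n) → Halts (some q) n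

/-- residue of an integer -/
def red (z : ℤ) : Fin M.B := ⟨(z % M.B).toNat, by
  have h := M.hB
  have h1 := Int.emod_nonneg z (b := (M.B : ℤ)) (by omega)
  have h2 := Int.emod_lt_of_pos z (b := (M.B : ℤ)) (by omega)
  omega⟩

theorem red_val (z : ℤ) : ((M.red z : ℕ) : ℤ) = z % M.B := by
  have h := M.hB
  have h1 := Int.emod_nonneg z (b := (M.B : ℤ)) (by omega)
  simp [red, h1]

theorem red_eq (z : ℤ) (i : Fin M.B) (h : z % M.B = i) : M.red z = i := by
  apply Fin.ext
  have := M.red_val z
  omega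

/-- letters: machine state, residue vector, position on the path, index vector -/
abbrev X : Type := Q × (J → Fin M.B) × Fin (2 * M.l + 1) × (J → Fin M.B)

/-- rates -/
def rho (q : Q) (r : J → Fin M.B) (c : Fin (2 * M.l + 1)) (j : J) : ℤ :=
  if (c : ℕ) < M.a q r j then 1 else 0

/-- shifts -/
def s (q : Q) (r : J → Fin M.B) (k : ℕ) (j : J) : ℤ :=
  if k < M.b q r j then 1 else 0

/-- negation of positions -/
def neg (c : Fin (2 * M.l + 1)) : Fin (2 * M.l + 1) :=
  if h : (c : ℕ) = 0 then c else ⟨2 * M.l + 1 - c, by omega⟩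

/-- sections of `V` -/
def sig (q : Q) (r : J → Fin M.B) (c : Fin (2 * M.l + 1)) (j : J) : ℤ :=
  if (c : ℕ) ≤ M.l then - M.s q r (c - 1) j else M.s q r (2 * M.l - c) j

theorem neg_neg (c : Fin (2 * M.l + 1)) : M.neg (M.neg c) = c := by
  unfold neg
  apply Fin.ext
  split_ifs <;> simp_all <;> omega

theorem neg_eq_zero (c : Fin (2 * M.l + 1)) : ((M.neg c : ℕ) = 0) ↔ (c : ℕ) = 0 := by
  unfold neg
  split_ifs with h
  · rfl
  · simp only; omega

theorem sig_neg (q : Q) (r : J → Fin M.B) (c : Fin (2 * M.l + 1)) (hc : (c : ℕ) ≠ 0) :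
    M.sig q r (M.neg c) = - M.sig q r c := by
  funext j
  have h1 : ((M.neg c : Fin (2 * M.l + 1)) : ℕ) = 2 * M.l + 1 - c := by
    unfold neg; rw [dif_neg hc]
  have := c.2
  simp only [sig, Pi.neg_apply, h1]
  by_cases h : (c : ℕ) ≤ M.l
  · rw [if_neg (by omega), if_pos h, _root_.neg_neg]
    congr 1; omega
  · rw [if_pos (by omega), if_neg h]
    congr 2; omega

/-- The odometers. -/
def T : (J → ℤ) → List M.X → List M.X
  | _, [] => []
  | n, (q, r, c, i) :: w => (q, r, c, fun j => M.red ((i j : ℕ) + n j)) ::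
      T (fun j => M.rho q r c j * (((i j : ℕ) + n j) / M.B)) w

open Classical in
/-- The involution at index zero. -/
noncomputable def V : List M.X → List M.X
  | [] => []
  | (q, r, c, i) :: w =>
      if ∀ j, (i j : ℕ) = 0 then
        (q, r, M.neg c, i) :: (if (c : ℕ) = 0 then V w else M.T (M.sig q r c) w)
      else (q, r, c, i) :: w

open Classical in
/-- The involutions at the active index. -/
noncomputable def U : Option Q → List M.X → List M.X
  | _, [] => []
  | none, x :: w => x :: w
  | some q', (q, r, c, i) :: w =>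
      if q = q' ∧ i = r then
        (q, r, c.rev, i) :: (if (c : ℕ) = M.l then U (M.nxt q r) w else w)
      else (q, r, c, i) :: w

theorem T_cons (n : J → ℤ) (q : Q) (r : J → Fin M.B) (c : Fin (2 * M.l + 1)) (i : J → Fin M.B)
    (w : List M.X) : M.T n ((q, r, c, i) :: w) = (q, r, c, fun j => M.red ((i j : ℕ) + n j)) ::
      M.T (fun j => M.rho q r c j * (((i j : ℕ) + n j) / M.B)) w := rfl

theorem T_zero (w : List M.X) : M.T 0 w = w := by
  induction w with
  | nil => rfl
  | cons x w ih =>
    obtain ⟨q, r, c, i⟩ := x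
    have hB := M.hB
    rw [T_cons]
    have h1 : (fun j => M.red ((i j : ℕ) + (0 : J → ℤ) j)) = i := by
      funext j
      apply red_eq
      have := (i j).2
      simp only [Pi.zero_apply, add_zero]
      exact Int.emod_eq_of_lt (by omega) (by omega)
    have h2 : (fun j => M.rho q r c j * (((i j : ℕ) + (0 : J → ℤ) j) / M.B)) = 0 := by
      funext j
      have := (i j).2
      simp only [Pi.zero_apply, add_zero]
      rw [Int.ediv_eq_zero_of_lt (by omega) (by omega), mul_zero]
    rw [h1, h2, ih]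

theorem T_add (n m : J → ℤ) (w : List M.X) : M.T (n + m) w = M.T n (M.T m w) := by
  induction w generalizing n m with
  | nil => rfl
  | cons x w ih =>
    obtain ⟨q, r, c, i⟩ := x
    have hB := M.hB
    rw [T_cons, T_cons, T_cons, ← ih]
    have e : ∀ j, (((i j : ℕ) : ℤ) + (n + m) j) =
        (((i j : ℕ) : ℤ) + m j) % M.B + n j + M.B * ((((i j : ℕ) : ℤ) + m j) / M.B) := by
      intro j
      have := Int.emod_add_mul_ediv (((i j : ℕ) : ℤ) + m j) M.B
      simp only [Pi.add_apply]
      linarith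
    congr 1
    · congr 3
      funext j
      apply red_eq
      rw [red_val, e j, Int.add_mul_emod_self_left, red_val]
    · congr 1
      funext j
      simp only [Pi.add_apply]
      rw [← Pi.add_apply, e j, Int.add_mul_ediv_left _ _ (by omega), red_val]
      ring

theorem V_V (w : List M.X) : M.V (M.V w) = w := by
  induction w with
  | nil => rfl
  | cons x w ih =>
    obtain ⟨q, r, c, i⟩ := x
    by_cases hi : ∀ j, (i j : ℕ) = 0
    · simp only [V, if_pos hi, neg_eq_zero, neg_neg]
      congr 1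
      by_cases hc : (c : ℕ) = 0
      · simp only [hc, if_true]; exact ih
      · simp only [hc, if_false]
        rw [← T_add, sig_neg M q r c hc, neg_add_cancel, T_zero]
    · simp only [V, if_neg hi]

theorem U_none (w : List M.X) : M.U none w = w := by
  cases w <;> rfl

theorem U_U (o : Option Q) (w : List M.X) : M.U o (M.U o w) = w := by
  induction w generalizing o with
  | nil => cases o <;> rfl
  | cons x w ih =>
    cases o with
    | none => rfl
    | some q' =>
      obtain ⟨q, r, c, i⟩ := x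
      by_cases hi : q = q' ∧ i = r
      · have hc : ((c.rev : ℕ) = M.l) ↔ (c : ℕ) = M.l := by
          rw [Fin.val_rev]; omega
        simp only [U, if_pos hi, hc, Fin.rev_rev]
        congr 1
        by_cases hc : (c : ℕ) = M.l
        · simp only [hc, if_true]; exact ih _
        · simp only [hc, if_false]
      · simp only [U, if_neg hi]

/-- the odometers as permutations -/
def TP (n : J → ℤ) : Perm (List M.X) where
  toFun := M.T n
  invFun := M.T (-n)
  left_inv w := by rw [← T_add, neg_add_cancel, T_zero]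
  right_inv w := by rw [← T_add, add_neg_cancel, T_zero]

theorem TP_apply (n : J → ℤ) (w : List M.X) : M.TP n w = M.T n w := rfl

theorem TP_add (n m : J → ℤ) : M.TP (n + m) = M.TP n * M.TP m :=
  Equiv.ext fun w => M.T_add n m w

theorem TP_zero : M.TP 0 = 1 := Equiv.ext fun w => M.T_zero w

theorem TP_neg (n : J → ℤ) : M.TP (-n) = (M.TP n)⁻¹ := by
  rw [eq_inv_iff_mul_eq_one, ← TP_add, neg_add_cancel, TP_zero]

/-- `V` as a permutation -/
noncomputable def VP : Perm (List M.X) := ⟨M.V, M.V, M.V_V, M.V_V⟩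

/-- `U` as a permutation -/
noncomputable def UP (o : Option Q) : Perm (List M.X) := ⟨M.U o, M.U o, M.U_U o, M.U_U o⟩

theorem VP_apply (w : List M.X) : M.VP w = M.V w := rfl
theorem UP_apply (o : Option Q) (w : List M.X) : M.UP o w = M.U o w := rfl

theorem VP_sq : M.VP * M.VP = 1 := Equiv.ext M.V_V
theorem UP_sq (o : Option Q) : M.UP o * M.UP o = 1 := Equiv.ext (M.U_U o)
theorem UP_none : M.UP none = 1 := Equiv.ext M.U_none

/-- conjugate of `U` -/
noncomputable def A (o : Option Q) (n : J → ℤ) : Perm (List M.X) :=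
  (M.TP n)⁻¹ * M.UP o * M.TP n

/-- the element simulating the machine -/
noncomputable def W (o : Option Q) (n : J → ℤ) : Perm (List M.X) := M.VP * M.A o n

theorem A_sq (o : Option Q) (n : J → ℤ) : M.A o n * M.A o n = 1 := by
  have := M.UP_sq o
  calc M.A o n * M.A o n = (M.TP n)⁻¹ * (M.UP o * M.UP o) * M.TP n := by
        unfold A; group
    _ = 1 := by rw [this]; group

theorem A_apply (o : Option Q) (n : J → ℤ) (w : List M.X) :
    M.A o n w = M.T (-n) (M.U o (M.T n w)) := rfl

theorem W_apply (o : Option Q) (n : J → ℤ) (w : List M.X) :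
    M.W o n w = M.V (M.A o n w) := rfl

/-- dihedral identity -/
theorem dihedral {G : Type*} [Group G] (v a : G) (hv : v * v = 1) (ha : a * a = 1) (l : ℕ) :
    (v * a) ^ (2 * l + 1) = v * ((v * a) ^ l)⁻¹ * a * (v * a) ^ l := by
  have hv' : v⁻¹ = v := inv_eq_of_mul_eq_one_left hv
  have ha' : a⁻¹ = a := inv_eq_of_mul_eq_one_left ha
  have key : ∀ l : ℕ, a * (v * a) ^ l = ((v * a) ^ l)⁻¹ * a := by
    intro l
    induction l with
    | zero => simp
    | succ l ih =>
      rw [pow_succ, ← mul_assoc, ih, mul_inv_rev, mul_inv_rev, hv', ha']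
      have : ((v * a) ^ l)⁻¹ * a * (v * a) = ((v * a) ^ l)⁻¹ * (a * v) * a := by group
      rw [this]
      have h2 : ((v * a) ^ l)⁻¹ * (a * v) = a * v * ((v * a) ^ l)⁻¹ := by
        have : a * v = (v * a)⁻¹ := by rw [mul_inv_rev, hv', ha']
        rw [this]
        exact ((Commute.refl (v * a)).pow_left l).inv_inv.eq
      rw [h2]
  rw [two_mul, pow_succ', pow_add, mul_assoc v, mul_assoc v, mul_assoc v, ← key l]
  simp only [mul_assoc]


/-- integer values of counters -/
abbrev zz (n : J → ℕ) : J → ℤ := fun j => (n j : ℤ)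

/-- the zero index -/
def z0 : J → Fin M.B := fun _ => ⟨0, M.hB⟩

/-- partial products along the path -/
def P (q : Q) (n : J → ℕ) (k : ℕ) : J → ℤ := fun j =>
  (min k (M.b q (M.res n) j) : ℕ) + (min k (M.a q (M.res n) j) : ℕ) * ((n j : ℤ) / M.B)

theorem P_zero (q : Q) (n : J → ℕ) : M.P q n 0 = 0 := by
  funext j; simp [P]

theorem P_last (q : Q) (n : J → ℕ) : M.P q n M.l = zz (M.nn q n) := by
  funext j
  simp only [P, zz, nn]
  rw [Nat.min_eq_right (M.hb _ _ _), Nat.min_eq_right (M.ha _ _ _)]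
  push_cast
  ring

theorem P_succ (q : Q) (n : J → ℕ) (c : Fin (2 * M.l + 1)) :
    M.P q n (c + 1) = M.s q (M.res n) c +
      (fun j => M.rho q (M.res n) c j * ((n j : ℤ) / M.B)) + M.P q n c := by
  funext j
  simp only [P, s, rho, Pi.add_apply]
  have h1 : ((min ((c : ℕ) + 1) (M.b q (M.res n) j) : ℕ) : ℤ) =
      (if (c : ℕ) < M.b q (M.res n) j then 1 else 0) + (min (c : ℕ) (M.b q (M.res n) j) : ℕ) := by
    split_ifs <;> omega
  have h2 : ((min ((c : ℕ) + 1) (M.a q (M.res n) j) : ℕ) : ℤ) =
      (if (c : ℕ) < M.a q (M.res n) j then 1 else 0) + (min (c : ℕ) (M.a q (M.res n) j) : ℕ) := by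
    split_ifs <;> omega
  rw [h1, h2]
  ring

/-- conjugation by the odometer carries index zero to the residue -/
theorem T_idx (n : J → ℕ) (q : Q) (r : J → Fin M.B) (c : Fin (2 * M.l + 1)) (w : List M.X) :
    M.T (zz n) ((q, r, c, M.z0) :: w) = (q, r, c, M.res n) ::
      M.T (fun j => M.rho q r c j * ((n j : ℤ) / M.B)) w := by
  rw [T_cons]
  congr 1
  · congr 3
    funext j
    apply red_eq
    simp [z0, res]
  · congr 1
    funext j
    simp [z0]

theorem T_idx_neg (n : J → ℕ) (q : Q) (r : J → Fin M.B) (c : Fin (2 * M.l + 1))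
    (w : List M.X) :
    M.T (- zz n) ((q, r, c, M.res n) :: w) = (q, r, c, M.z0) ::
      M.T (- fun j => M.rho q r c j * ((n j : ℤ) / M.B)) w := by
  have h := M.T_idx n q r c (M.T (- fun j => M.rho q r c j * ((n j : ℤ) / M.B)) w)
  rw [← T_add, add_neg_cancel, T_zero] at h
  rw [← h, ← T_add, neg_add_cancel, T_zero]

/-- The action of `A` on active words. -/
theorem A_active (q : Q) (n : J → ℕ) (c : Fin (2 * M.l + 1)) (w : List M.X) :
    M.A (some q) (zz n) ((q, M.res n, c, M.z0) :: w) =
      (q, M.res n, c.rev, M.z0) ::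
        M.T (- fun j => M.rho q (M.res n) c.rev j * ((n j : ℤ) / M.B))
          ((if (c : ℕ) = M.l then M.U (M.nxt q (M.res n)) else id)
            (M.T (fun j => M.rho q (M.res n) c j * ((n j : ℤ) / M.B)) w)) := by
  rw [A_apply, T_idx]
  simp only [U, and_self, if_true]
  rw [T_idx_neg]
  split_ifs <;> rfl

theorem rho_big (q : Q) (r : J → Fin M.B) (c : Fin (2 * M.l + 1)) (hc : M.l ≤ c) (f : J → ℤ) :
    (fun j => M.rho q r c j * f j) = 0 := by
  funext j
  have := M.ha q r j
  simp only [rho]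
  rw [if_neg (by omega)]
  simp

theorem V_z0 (q : Q) (r : J → Fin M.B) (c : Fin (2 * M.l + 1)) (w : List M.X) :
    M.V ((q, r, c, M.z0) :: w) = (q, r, M.neg c, M.z0) ::
      (if (c : ℕ) = 0 then M.V w else M.T (M.sig q r c) w) := by
  simp only [V, z0, implies_true, if_true]

/-- one step along the first half of the path -/
theorem W_step (q : Q) (n : J → ℕ) (c d : Fin (2 * M.l + 1)) (hc : (c : ℕ) < M.l)
    (hd : (d : ℕ) = c + 1) (w : List M.X) :
    M.W (some q) (zz n) ((q, M.res n, c, M.z0) :: w) = (q, M.res n, d, M.z0) ::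
      M.T (M.s q (M.res n) c + fun j => M.rho q (M.res n) c j * ((n j : ℤ) / M.B)) w := by
  have hrev : (c.rev : ℕ) = 2 * M.l - c := by rw [Fin.val_rev]; omega
  rw [W_apply, A_active, if_neg (by omega), rho_big M q _ c.rev (by omega), neg_zero, T_zero,
    V_z0, if_neg (by omega)]
  have h1 : M.neg c.rev = d := by
    apply Fin.ext
    unfold neg
    rw [dif_neg (by omega)]
    simp only
    omega
  have h2 : M.sig q (M.res n) c.rev = M.s q (M.res n) c := by
    funext j
    simp only [sig]
    rw [if_neg (by omega)]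
    congr 1
    omega
  rw [h1, h2, T_add]
  rfl

/-- the first half of the path -/
theorem W_pow (q : Q) (n : J → ℕ) (k : ℕ) (hk : k ≤ M.l) (w : List M.X) :
    (M.W (some q) (zz n) ^ k) ((q, M.res n, ⟨0, by omega⟩, M.z0) :: w) =
      (q, M.res n, ⟨k, by omega⟩, M.z0) :: M.T (M.P q n k) w := by
  induction k with
  | zero => simp [P_zero, T_zero]
  | succ k ih =>
    rw [pow_succ', Perm.mul_apply, ih (by omega), W_step M q n ⟨k, by omega⟩ ⟨k + 1, by omega⟩
      (by simp only; omega) (by simp only)]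
    rw [← T_add]
    have h := M.P_succ q n ⟨k, by omega⟩
    simp only at h
    rw [h]

/-- The first return to the beginning of the path. -/
theorem W_return (q : Q) (n : J → ℕ) (w : List M.X) :
    (M.W (some q) (zz n) ^ (2 * M.l + 1)) ((q, M.res n, ⟨0, by omega⟩, M.z0) :: w) =
      (q, M.res n, ⟨0, by omega⟩, M.z0) :: M.W (M.nxt q (M.res n)) (zz (M.nn q n)) w := by
  have h := dihedral M.VP (M.A (some q) (zz n)) M.VP_sq (M.A_sq _ _) M.l
  have h' : (M.W (some q) (zz n) ^ (2 * M.l + 1)) =
    M.VP * (M.W (some q) (zz n) ^ M.l)⁻¹ * M.A (some q) (zz n) * M.W (some q) (zz n) ^ M.l := h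
  rw [h', Perm.mul_apply, Perm.mul_apply, Perm.mul_apply, W_pow M q n M.l le_rfl, A_active]
  have hrev : (⟨M.l, by omega⟩ : Fin (2 * M.l + 1)).rev = ⟨M.l, by omega⟩ := by
    apply Fin.ext
    rw [Fin.val_rev]
    simp only
    omega
  rw [hrev, rho_big M q _ ⟨M.l, by omega⟩ (by simp), neg_zero, T_zero, T_zero]
  simp only [if_true]
  have hinv : ∀ y : List M.X, (M.W (some q) (zz n) ^ M.l)⁻¹
      ((q, M.res n, ⟨M.l, by omega⟩, M.z0) :: y) =
      (q, M.res n, ⟨0, by omega⟩, M.z0) :: M.T (- M.P q n M.l) y := by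
    intro y
    rw [Perm.inv_eq_iff_eq, W_pow M q n M.l le_rfl, ← T_add, add_neg_cancel, T_zero]
  rw [hinv, VP_apply, V_z0, if_pos rfl, P_last]
  have hneg : M.neg ⟨0, by omega⟩ = ⟨0, by omega⟩ := by
    unfold neg; simp
  rw [hneg]
  rfl


theorem T_length (n : J → ℤ) (w : List M.X) : (M.T n w).length = w.length := by
  induction w generalizing n with
  | nil => rfl
  | cons x w ih => obtain ⟨q, r, c, i⟩ := x; rw [T_cons, List.length_cons, ih, List.length_cons]

/-- every active word moves one step further -/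
theorem W_next (q : Q) (n : J → ℕ) (c : Fin (2 * M.l + 1)) (w : List M.X) :
    ∃ w', M.W (some q) (zz n) ((q, M.res n, c, M.z0) :: w) =
      (q, M.res n, ⟨(c + 1) % (2 * M.l + 1), Nat.mod_lt _ (by omega)⟩, M.z0) :: w' := by
  have hrev : (c.rev : ℕ) = 2 * M.l - c := by rw [Fin.val_rev]; omega
  have key : M.neg c.rev = ⟨(c + 1) % (2 * M.l + 1), Nat.mod_lt _ (by omega)⟩ := by
    apply Fin.ext
    have h2 := c.2
    simp only
    by_cases hc : (c : ℕ) = 2 * M.l
    · unfold neg
      rw [dif_pos (by omega), hrev, hc, Nat.mod_self]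
      omega
    · unfold neg
      rw [dif_neg (by omega)]
      simp only
      rw [hrev, Nat.mod_eq_of_lt (by omega)]
      omega
  rw [W_apply, A_active, V_z0, key]
  exact ⟨_, rfl⟩

theorem W_next_pow (q : Q) (n : J → ℕ) (k : ℕ) (c : Fin (2 * M.l + 1)) (w : List M.X) :
    ∃ w', (M.W (some q) (zz n) ^ k) ((q, M.res n, c, M.z0) :: w) =
      (q, M.res n, ⟨(c + k) % (2 * M.l + 1), Nat.mod_lt _ (by omega)⟩, M.z0) :: w' := by
  induction k with
  | zero =>
    refine ⟨w, ?_⟩
    rw [pow_zero, Perm.one_apply]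
    congr 4
    apply Fin.ext
    simp only [add_zero]
    rw [Nat.mod_eq_of_lt c.2]
  | succ k ih =>
    obtain ⟨w', hw'⟩ := ih
    rw [pow_succ', Perm.mul_apply, hw']
    obtain ⟨w'', hw''⟩ := M.W_next q n ⟨(c + k) % (2 * M.l + 1), Nat.mod_lt _ (by omega)⟩ w'
    refine ⟨w'', ?_⟩
    rw [hw'']
    congr 4
    apply Fin.ext
    simp only
    rw [Nat.mod_add_mod, add_assoc]

/-- powers of the first return -/
theorem W_return_pow (q : Q) (n : J → ℕ) (k : ℕ) (w : List M.X) :
    (M.W (some q) (zz n) ^ ((2 * M.l + 1) * k)) ((q, M.res n, ⟨0, by omega⟩, M.z0) :: w) =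
      (q, M.res n, ⟨0, by omega⟩, M.z0) ::
        (M.W (M.nxt q (M.res n)) (zz (M.nn q n)) ^ k) w := by
  induction k with
  | zero => simp
  | succ k ih =>
    rw [mul_add, mul_one, add_comm, pow_add, Perm.mul_apply, ih, W_return, pow_succ']
    rfl

theorem V_index (q : Q) (r : J → Fin M.B) (c : Fin (2 * M.l + 1)) (i : J → Fin M.B)
    (w : List M.X) (hi : ¬ ∀ j, (i j : ℕ) = 0) : M.V ((q, r, c, i) :: w) = (q, r, c, i) :: w := by
  simp only [V, if_neg hi]

/-- `A` only moves the position -/
theorem A_shape (o : Option Q) (n : J → ℤ) (q : Q) (r : J → Fin M.B) (c : Fin (2 * M.l + 1))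
    (i : J → Fin M.B) (w : List M.X) :
    ∃ c' w', M.A o n ((q, r, c, i) :: w) = (q, r, c', i) :: w' := by
  have hi : ∀ c w, ∃ w', M.T (-n) ((q, r, c, fun j => M.red ((i j : ℕ) + n j)) :: w) =
      (q, r, c, i) :: w' := by
    intro c w
    refine ⟨M.T (- fun j => M.rho q r c j * (((i j : ℕ) + n j) / M.B)) w, ?_⟩
    have h := M.T_cons n q r c i (M.T (- fun j => M.rho q r c j * (((i j : ℕ) + n j) / M.B)) w)
    rw [← T_add, add_neg_cancel, T_zero] at h
    rw [← h, ← T_add, neg_add_cancel, T_zero]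
  rw [A_apply, T_cons]
  cases o with
  | none =>
    obtain ⟨w', hw'⟩ := hi c (M.T (fun j => M.rho q r c j * (((i j : ℕ) + n j) / M.B)) w)
    exact ⟨c, w', hw'⟩
  | some q' =>
    simp only [U]
    split_ifs with h1 h2
    · obtain ⟨w', hw'⟩ := hi c.rev (M.U (M.nxt q r)
        (M.T (fun j => M.rho q r c j * (((i j : ℕ) + n j) / M.B)) w))
      exact ⟨_, w', hw'⟩
    · obtain ⟨w', hw'⟩ := hi c.rev (M.T (fun j => M.rho q r c j * (((i j : ℕ) + n j) / M.B)) w)
      exact ⟨_, w', hw'⟩
    · obtain ⟨w', hw'⟩ := hi c (M.T (fun j => M.rho q r c j * (((i j : ℕ) + n j) / M.B)) w)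
      exact ⟨_, w', hw'⟩

/-- `A` fixes inactive words of index zero -/
theorem A_inactive (q' : Q) (n : J → ℕ) (q : Q) (r : J → Fin M.B) (c : Fin (2 * M.l + 1))
    (w : List M.X) (h : ¬ (q = q' ∧ M.res n = r)) :
    M.A (some q') (zz n) ((q, r, c, M.z0) :: w) = (q, r, c, M.z0) :: w := by
  rw [A_apply, T_idx]
  simp only [U, if_neg h]
  rw [← M.T_idx n q r c w, ← T_add, neg_add_cancel, T_zero]

theorem W_none_sq (n : J → ℤ) : M.W none n ^ 2 = 1 := by
  have : M.W none n = M.VP := by
    unfold W A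
    rw [UP_none]; group
  rw [this, sq, VP_sq]

/-- inactive words have period two -/
theorem W_sq_inactive (q' : Q) (n : J → ℕ) (q : Q) (r : J → Fin M.B) (c : Fin (2 * M.l + 1))
    (i : J → Fin M.B) (w : List M.X) (h : ¬ (q = q' ∧ r = M.res n ∧ i = M.z0)) :
    (M.W (some q') (zz n) ^ 2) ((q, r, c, i) :: w) = (q, r, c, i) :: w := by
  have hAA : ∀ y, M.A (some q') (zz n) (M.A (some q') (zz n) y) = y := by
    intro y
    have := M.A_sq (some q') (zz n)
    rw [← Perm.mul_apply, this, Perm.one_apply]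
  have hVV : ∀ y, M.V (M.V y) = y := M.V_V
  rw [sq, Perm.mul_apply, W_apply, W_apply]
  by_cases hi : ∀ j, (i j : ℕ) = 0
  · have hi' : i = M.z0 := by
      funext j; apply Fin.ext; simp [z0, hi j]
    have h1 : ¬ (q = q' ∧ M.res n = r) := by
      intro h2; exact h ⟨h2.1, h2.2.symm, hi'⟩
    subst hi'
    rw [A_inactive M q' n q r c w h1, V_z0, A_inactive M q' n q r _ _ h1, ← V_z0, hVV]
  · obtain ⟨c', w', hA⟩ := M.A_shape (some q') (zz n) q r c i w
    rw [hA, V_index M q r c' i w' hi, ← hA, hAA, V_index M q r c i w hi]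

theorem T_nil (n : J → ℤ) : M.T n [] = [] := rfl
theorem V_nil : M.V [] = [] := rfl
theorem U_nil (o : Option Q) : M.U o [] = [] := by cases o <;> rfl

theorem W_nil (o : Option Q) (n : J → ℤ) : M.W o n [] = [] := by
  rw [W_apply, A_apply, T_nil, U_nil, T_nil, V_nil]

theorem pow_fix {α : Type*} (f : Perm α) (x : α) (k m : ℕ) (h : (f ^ k) x = x) :
    (f ^ (k * m)) x = x := by
  rw [pow_mul]
  exact Perm.pow_apply_eq_self_of_apply_eq_self h m

/-- If the machine stops, the element has finite order. -/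
theorem finite_of_halts {o : Option Q} {n : J → ℕ} (h : M.Halts o n) :
    ∃ m, 0 < m ∧ M.W o (zz n) ^ m = 1 := by
  induction h with
  | stop n => exact ⟨2, by norm_num, M.W_none_sq _⟩
  | step q n _ ih =>
    obtain ⟨m, hm, h⟩ := ih
    refine ⟨2 * ((2 * M.l + 1) * m), by positivity, ?_⟩
    apply Equiv.ext
    intro x
    rw [Perm.one_apply]
    rcases x with _ | ⟨⟨q', r, c, i⟩, w⟩
    · have : (M.W (some q) (zz n) ^ 1) [] = [] := by rw [pow_one, W_nil]
      have h2 := pow_fix _ _ _ (2 * ((2 * M.l + 1) * m)) this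
      rwa [one_mul] at h2
    · by_cases hx : q' = q ∧ r = M.res n ∧ i = M.z0
      · obtain ⟨rfl, rfl, rfl⟩ := hx
        obtain ⟨w', hw'⟩ := M.W_next_pow q' n (2 * M.l + 1 - c) c w
        have e : (⟨(c + (2 * M.l + 1 - c)) % (2 * M.l + 1), Nat.mod_lt _ (by omega)⟩ :
            Fin (2 * M.l + 1)) = ⟨0, by omega⟩ := by
          apply Fin.ext
          have := c.2
          simp only
          rw [Nat.add_sub_cancel' this.le, Nat.mod_self]
        rw [e] at hw'
        have key : (M.W (some q') (zz n) ^ ((2 * M.l + 1) * m))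
            ((q', M.res n, ⟨0, by omega⟩, M.z0) :: w') =
            (q', M.res n, ⟨0, by omega⟩, M.z0) :: w' := by
          rw [W_return_pow, h, Perm.one_apply]
        rw [mul_comm 2]
        apply pow_fix
        rw [← hw', ← Perm.mul_apply, ← pow_add, add_comm, pow_add, Perm.mul_apply] at key
        exact (M.W (some q') (zz n) ^ (2 * M.l + 1 - (c : ℕ))).injective key
      · exact pow_fix _ _ _ _ (M.W_sq_inactive q n q' r c i w hx)

/-- If the element has finite order, the machine stops. -/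
theorem halts_of_finite (hl : 0 < M.l) (m : ℕ) : ∀ (o : Option Q) (n : J → ℕ), 0 < m →
    M.W o (zz n) ^ m = 1 → M.Halts o n := by
  induction m using Nat.strong_induction_on with
  | _ m ih =>
    intro o n hm h
    cases o with
    | none => exact Halts.stop n
    | some q =>
      apply Halts.step
      obtain ⟨w', hw'⟩ := M.W_next_pow q n m ⟨0, by omega⟩ []
      rw [h, Perm.one_apply] at hw'
      have hd : (2 * M.l + 1) ∣ m := by
        have := (List.cons.inj hw').1
        have h2 := congrArg (fun x : M.X => (x.2.2.1 : ℕ)) this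
        simp only [zero_add] at h2
        exact Nat.dvd_of_mod_eq_zero h2.symm
      obtain ⟨k, rfl⟩ := hd
      have hk : 0 < k := Nat.pos_of_mul_pos_left hm
      refine ih k ?_ _ _ hk ?_
      · nlinarith
      · apply Equiv.ext
        intro w
        have h2 := M.W_return_pow q n k w
        rw [h, Perm.one_apply] at h2
        exact (List.cons.inj h2).2.symm

end Sys

end Pool.Agent.Helper599.Core
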