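import Mathlib
import Pool.Agent.Helper599.Core

set_option autoImplicit false

namespace Pool.Agent.Helper599.Mod

open Equiv Pool.Agent.Helper599.Core

variable {Q : Type} (M : Sys Q Bool)

/-- An instruction: a state (or the stopping state) and the residues. -/
abbrev Ins : Type := Option Q × (Bool → Fin M.B)

/-- next state -/
def nx (i : Ins M) : Option Q := i.1.bind (fun q => M.nxt q i.2)

/-- multiplier -/
def aa (i : Ins M) (j : Bool) : ℕ :=
  match i.1 with
  | none => 1
  | some q => if (M.nxt q i.2).isSome then M.a q i.2 j else 1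

/-- constant -/
def bb (i : Ins M) (j : Bool) : ℕ :=
  match i.1 with
  | none => 0
  | some q => if (M.nxt q i.2).isSome then M.b q i.2 j else 0

theorem bb_lt_aa (h : ∀ q r, M.nxt q r ≠ none → ∀ j, M.b q r j < M.a q r j) (i : Ins M)
    (j : Bool) : bb M i j < aa M i j := by
  obtain ⟨o, r⟩ := i
  cases o with
  | none => simp [aa, bb]
  | some q =>
    cases hh : M.nxt q r with
    | none => simp [aa, bb, hh]
    | some p => simpa [aa, bb, hh] using h q r (by simp [hh]) j

/-- One step on integer counters. -/
def stepZ (c : Option Q × (Bool → ℤ)) : Option Q × (Bool → ℤ) :=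
  (nx M (c.1, fun j => M.red (c.2 j)),
    fun j => aa M (c.1, fun j => M.red (c.2 j)) j * (c.2 j / M.B) +
      bb M (c.1, fun j => M.red (c.2 j)) j)

/-- The configuration reaches the final one. -/
def Reach (c : Option Q × (Bool → ℤ)) : Prop := ∃ m : ℕ, (stepZ M)^[m] c = (none, 0)

theorem stepZ_final : stepZ M (none, 0) = (none, 0) := by
  simp only [stepZ, nx, aa, bb, Prod.mk.injEq, Option.bind_none, true_and]
  funext j
  simp

theorem reach_step (c : Option Q × (Bool → ℤ)) : Reach M (stepZ M c) ↔ Reach M c := by
  constructor
  · rintro ⟨m, hm⟩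
    exact ⟨m + 1, by rw [Function.iterate_succ_apply]; exact hm⟩
  · rintro ⟨m, hm⟩
    cases m with
    | zero =>
      refine ⟨0, ?_⟩
      simp only [Function.iterate_zero, id_eq] at hm ⊢
      rw [hm, stepZ_final]
    | succ m =>
      exact ⟨m, by rw [Function.iterate_succ_apply] at hm; exact hm⟩

/-- The step from a configuration written with residues. -/
theorem stepZ_eq (i : Ins M) (u : Bool → ℤ) :
    stepZ M (i.1, fun j => (i.2 j : ℕ) + M.B * u j) =
      (nx M i, fun j => bb M i j + aa M i j * u j) := by
  have hB := M.hB
  have h1 : (fun j => M.red ((i.2 j : ℕ) + M.B * u j)) = i.2 := by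
    funext j
    apply M.red_eq
    have := (i.2 j).2
    rw [Int.add_mul_emod_self_left]
    exact Int.emod_eq_of_lt (by omega) (by omega)
  simp only [stepZ, h1, Prod.mk.eta, Prod.mk.injEq, true_and]
  funext j
  have := (i.2 j).2
  rw [Int.add_mul_ediv_left _ _ (by omega), Int.ediv_eq_zero_of_lt (by omega) (by omega)]
  ring

theorem reach_eq (i : Ins M) (u : Bool → ℤ) :
    Reach M (nx M i, fun j => bb M i j + aa M i j * u j) ↔
      Reach M (i.1, fun j => (i.2 j : ℕ) + M.B * u j) := by
  rw [← stepZ_eq]
  exact reach_step M _

theorem reach_clean (hB : 2 ≤ M.B) (s : ℕ) : ∀ n : Bool → ℕ, n true + n false ≤ s →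
    Reach M (none, fun j => (n j : ℤ)) := by
  induction s with
  | zero =>
    intro n hn
    refine ⟨0, ?_⟩
    simp only [Function.iterate_zero, id_eq, Prod.mk.injEq, true_and]
    funext j
    cases j <;> simp <;> omega
  | succ s ih =>
    intro n hn
    by_cases h0 : n true + n false = 0
    · exact ih n (by omega)
    · rw [← reach_step]
      have h1 : stepZ M (none, fun j => (n j : ℤ)) = (none, fun j => ((n j / M.B : ℕ) : ℤ)) := by
        simp only [stepZ, nx, aa, bb, Option.bind_none, Prod.mk.injEq, true_and]
        funext j
        push_cast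
        ring
      rw [h1]
      apply ih
      have k1 : n true / M.B ≤ n true / 2 := Nat.div_le_div_left hB (by norm_num)
      have k2 : n false / M.B ≤ n false / 2 := Nat.div_le_div_left hB (by norm_num)
      omega

theorem red_nat (n : ℕ) : M.red (n : ℤ) = ⟨n % M.B, Nat.mod_lt _ M.hB⟩ := by
  apply M.red_eq
  push_cast
  rfl

theorem step_some (q : Q) (n : Bool → ℕ) (q' : Q) (h : M.nxt q (M.res n) = some q') :
    stepZ M (some q, fun j => (n j : ℤ)) = (some q', fun j => (M.nn q n j : ℤ)) := by
  have h1 : (fun j => M.red ((n j : ℕ) : ℤ)) = M.res n := by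
    funext j
    exact red_nat M _
  simp only [stepZ, h1, nx, aa, bb, Option.bind_some, h, Option.isSome_some, if_true,
    Prod.mk.injEq, true_and]
  funext j
  simp [Sys.nn]

theorem step_none (q : Q) (n : Bool → ℕ) (h : M.nxt q (M.res n) = none) :
    stepZ M (some q, fun j => (n j : ℤ)) = (none, fun j => ((n j / M.B : ℕ) : ℤ)) := by
  have h1 : (fun j => M.red ((n j : ℕ) : ℤ)) = M.res n := by
    funext j
    exact red_nat M _
  simp only [stepZ, h1, nx, aa, bb, Option.bind_some, h, Option.isSome_none,
    Prod.mk.injEq, true_and]
  funext j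
  simp

/-- Stopping is reaching the final configuration. -/
theorem halts_iff_reach (hB : 2 ≤ M.B) (o : Option Q) (n : Bool → ℕ) :
    M.Halts o n ↔ Reach M (o, fun j => (n j : ℤ)) := by
  constructor
  · intro h
    induction h with
    | stop n => exact reach_clean M hB _ n le_rfl
    | step q n _ ih =>
      rw [← reach_step]
      cases hh : M.nxt q (M.res n) with
      | none =>
        rw [step_none M q n hh]
        exact reach_clean M hB _ _ le_rfl
      | some q' =>
        rw [step_some M q n q' hh]
        rw [hh] at ih
        exact ih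
  · rintro ⟨m, hm⟩
    induction m generalizing o n with
    | zero =>
      simp only [Function.iterate_zero, id_eq, Prod.mk.injEq] at hm
      rw [hm.1]
      exact Sys.Halts.stop n
    | succ m ih =>
      cases o with
      | none => exact Sys.Halts.stop n
      | some q =>
        apply Sys.Halts.step
        cases hh : M.nxt q (M.res n) with
        | none => exact Sys.Halts.stop _
        | some q' =>
          apply ih
          rw [Function.iterate_succ_apply, step_some M q n q' hh] at hm
          exact hm

end Pool.Agent.Helper599.Mod
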