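import Mathlib
import Pool.Agent.Helper599.Mod

set_option autoImplicit false

namespace Pool.Agent.Helper599.Mod

open Equiv Pool.Agent.Helper599.Core

section Box

/-- integer vectors -/
abbrev V : Type := Bool → ℤ

/-- colours -/
abbrev Col : Type := Set V × Set V

variable (m : Bool → ℕ)

/-- residues modulo the vector -/
abbrev Bx : Type := (j : Bool) → Fin (m j)

/-- the vector with given quotient and residue -/
def emb (u : V) (r : Bx m) : V := fun j => ((r j : ℕ) : ℤ) + m j * u j

variable (hm : ∀ j, 0 < m j)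

/-- quotient and residue -/
def spl : V × Bx m ≃ V where
  toFun p := emb m p.1 p.2
  invFun v := (fun j => v j / m j, fun j => ⟨(v j % m j).toNat, by
    have h := hm j
    have h1 := Int.emod_nonneg (v j) (b := (m j : ℤ)) (by omega)
    have h2 := Int.emod_lt_of_pos (v j) (b := (m j : ℤ)) (by omega)
    omega⟩)
  left_inv := by
    rintro ⟨u, r⟩
    simp only [emb, Prod.mk.injEq]
    constructor
    · funext j
      have h := hm j
      have := (r j).2
      rw [Int.add_mul_ediv_left _ _ (by omega), Int.ediv_eq_zero_of_lt (by omega) (by omega)]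
      ring
    · funext j
      have h := hm j
      have := (r j).2
      apply Fin.ext
      simp only
      rw [Int.add_mul_emod_self_left, Int.emod_eq_of_lt (by omega) (by omega)]
      simp
  right_inv := by
    intro v
    funext j
    have h := hm j
    have h1 := Int.emod_nonneg (v j) (b := (m j : ℤ)) (by omega)
    have h3 := Int.emod_add_mul_ediv (v j) (m j : ℤ)
    simp only [emb]
    rw [Int.toNat_of_nonneg h1]
    exact h3

theorem spl_apply (u : V) (r : Bx m) : spl m hm (u, r) = emb m u r := rfl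

/-- the type of a pair -/
def ty (p : Bx m × Col) : Set V := {u | emb m u p.1 ∈ p.2.1}

open Cardinal in
include hm in
theorem card_fiber (S : Set V) : Cardinal.mk {p : Bx m × Col // ty m p = S} = Cardinal.mk (Set V) := by
  have hinf : Cardinal.aleph0 ≤ Cardinal.mk (Set V) := by
    have : Infinite (Set V) := inferInstance
    exact Cardinal.aleph0_le_mk (Set V)
  apply le_antisymm
  · refine le_trans (Cardinal.mk_le_of_injective Subtype.val_injective) ?_
    rw [Cardinal.mk_prod, Cardinal.mk_prod]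
    simp only [Cardinal.lift_id]
    rw [Cardinal.mul_eq_self hinf]
    refine Cardinal.mul_le_of_le hinf ?_ le_rfl
    exact le_trans (Cardinal.mk_lt_aleph0 (α := Bx m)).le hinf
  · let r0 : Bx m := fun j => ⟨0, hm j⟩
    refine Cardinal.mk_le_of_injective (f := fun A' : Set V =>
      (⟨(r0, ((fun u => emb m u r0) '' S, A')), ?_⟩ : {p : Bx m × Col // ty m p = S})) ?_
    · ext u
      simp only [ty, Set.mem_ofPred_eq, Set.mem_image]
      constructor
      · rintro ⟨u', hu', h⟩
        have := (spl m hm).injective (a₁ := (u', r0)) (a₂ := (u, r0)) h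
        rw [Prod.mk.injEq] at this
        rw [← this.1]; exact hu'
      · intro h
        exact ⟨u, h, rfl⟩
    · intro A1 A2 h
      simp only [Subtype.mk.injEq, Prod.mk.injEq, true_and] at h
      exact h

/-- a type preserving bijection -/
theorem exists_theta (m' : Bool → ℕ) (hm' : ∀ j, 0 < m' j) (p : Bx m × Col)
    (p' : Bx m' × Col) (hp : ty m p = ty m' p') :
    (∀ j, 0 < m j) → ∃ θ : Bx m × Col ≃ Bx m' × Col, (∀ q, ty m' (θ q) = ty m q) ∧ θ p = p' := by
  intro hm
  classical
  have h1 : ∀ S, Nonempty ({p : Bx m × Col // ty m p = S} ≃ {p : Bx m' × Col // ty m' p = S}) := by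
    intro S
    apply Cardinal.eq.1
    rw [card_fiber m hm, card_fiber m' hm']
  let e := fun S => (h1 S).some
  let θ₀ : Bx m × Col ≃ Bx m' × Col :=
    (Equiv.sigmaFiberEquiv (ty m)).symm.trans
      ((Equiv.sigmaCongrRight e).trans (Equiv.sigmaFiberEquiv (ty m')))
  have h2 : ∀ q, ty m' (θ₀ q) = ty m q := by
    intro q
    exact ((e (ty m q)) ⟨q, rfl⟩).2
  refine ⟨θ₀.trans (Equiv.swap (θ₀ p) p'), ?_, ?_⟩
  · intro q
    rw [Equiv.trans_apply, Equiv.swap_apply_def]
    split_ifs with h3 h4
    · rw [← hp, ← h2 p, ← h3, h2]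
    · rw [h2 p, hp, ← h4, h2]
    · exact h2 q
  · rw [Equiv.trans_apply, Equiv.swap_apply_left]

end Box

section Machine

variable {Q : Type} (M : Sys Q Bool)

/-- The space. -/
abbrev Om : Type := V × Col

/-- the distinguished set -/
def DD : Set Om := {p | p.1 ∈ p.2.1}

/-- translation -/
def XX (n : V) : Perm Om where
  toFun p := (p.1 + n, p.2)
  invFun p := (p.1 - n, p.2)
  left_inv p := by simp
  right_inv p := by simp

theorem XX_apply (n : V) (p : Om) : XX n p = (p.1 + n, p.2) := rfl

theorem XX_add (n m : V) : XX (n + m) = XX n * XX m := by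
  ext p : 1
  simp only [XX_apply, Perm.mul_apply, Prod.mk.injEq, and_true]
  abel

theorem XX_zero : XX 0 = 1 := by
  ext p : 1
  simp [XX_apply]

theorem XX_neg (n : V) : XX (-n) = (XX n)⁻¹ := by
  rw [eq_inv_iff_mul_eq_one, ← XX_add, neg_add_cancel, XX_zero]

theorem XX_pow (n : V) (k : ℕ) : XX n ^ k = XX (k • n) := by
  induction k with
  | zero => rw [pow_zero, zero_smul, XX_zero]
  | succ k ih => rw [pow_succ, ih, ← XX_add, succ_nsmul]

/-- the marked colour -/
def cc (o : Option Q) : Col := ({n | Reach M (o, n)}, ∅)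

theorem ty_cc (i : Ins M) (r : Bx (fun _ => M.B)) (hr : r = i.2)
    (b : Bx (aa M i)) (hb : ∀ j, (b j : ℕ) = bb M i j) :
    ty (fun _ => M.B) (r, cc M i.1) = ty (aa M i) (b, cc M (nx M i)) := by
  subst hr
  ext u
  have h := reach_eq M i u
  have e1 : (fun j => ((bb M i j : ℕ) : ℤ) + aa M i j * u j) = emb (aa M i) u b := by
    funext j
    simp only [emb, hb]
  rw [e1] at h
  exact h.symm

/-- The model of the instructions. -/
theorem exists_L (hM : ∀ q r, M.nxt q r ≠ none → ∀ j, M.b q r j < M.a q r j) (i : Ins M) :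
    ∃ L : Perm Om, (∀ j, L * XX (Pi.single j 1) ^ M.B = XX (Pi.single j 1) ^ (aa M i j) * L) ∧
      (∀ p, L p ∈ DD ↔ p ∈ DD) ∧
      L (fun j => ((i.2 j : ℕ) : ℤ), cc M i.1) = (fun j => (bb M i j : ℤ), cc M (nx M i)) := by
  have hB := M.hB
  have hab := bb_lt_aa M hM i
  have ha : ∀ j, 0 < aa M i j := fun j => lt_of_le_of_lt (Nat.zero_le _) (hab j)
  let b : Bx (aa M i) := fun j => ⟨bb M i j, hab j⟩
  let r : Bx (fun _ => M.B) := i.2
  obtain ⟨θ, h1, h2⟩ := exists_theta (fun _ => M.B) (aa M i) ha (r, cc M i.1)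
    (b, cc M (nx M i)) (ty_cc M i r rfl b (fun j => rfl)) (fun _ => hB)
  let EB := spl (fun _ => M.B) (fun _ => hB)
  let Ea := spl (aa M i) ha
  let L : Perm Om := ((Equiv.prodCongr EB (Equiv.refl Col)).symm.trans
    (Equiv.prodAssoc _ _ _)).trans ((Equiv.prodCongr (Equiv.refl V) θ).trans
      ((Equiv.prodAssoc _ _ _).symm.trans (Equiv.prodCongr Ea (Equiv.refl Col))))
  have hL : ∀ u r c, L (emb (fun _ => M.B) u r, c) =
      (emb (aa M i) u (θ (r, c)).1, (θ (r, c)).2) := by
    intro u r c
    have : (emb (fun _ => M.B) u r, c) = (Equiv.prodCongr EB (Equiv.refl Col)) ((u, r), c) := rfl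
    simp only [L, Equiv.trans_apply, this, Equiv.symm_apply_apply]
    rfl
  have hs : ∀ p : Om, ∃ u r c, p = (emb (fun _ => M.B) u r, c) := by
    rintro ⟨v, c⟩
    obtain ⟨⟨u, r⟩, h⟩ := EB.surjective v
    exact ⟨u, r, c, by rw [← h]; rfl⟩
  have he : ∀ (m : Bool → ℕ) (u : V) (r : Bx m) (j : Bool),
      emb m u r + m j • Pi.single j 1 = emb m (u + Pi.single j 1) r := by
    intro m u r j
    funext k
    simp only [emb, Pi.add_apply, Pi.smul_apply]
    by_cases hk : k = j
    · subst hk
      simp only [Pi.single_eq_same]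
      simp
      ring
    · simp [Pi.single_eq_of_ne hk]
  refine ⟨L, ?_, ?_, ?_⟩
  · intro j
    ext p : 1
    obtain ⟨u, r, c, rfl⟩ := hs p
    rw [XX_pow, XX_pow]
    simp only [Perm.mul_apply, XX_apply]
    rw [he (fun _ => M.B), hL, hL]
    simp only
    rw [he (aa M i)]
  · intro p
    obtain ⟨u, r, c, rfl⟩ := hs p
    rw [hL]
    have := h1 (r, c)
    have h3 : u ∈ ty (aa M i) (θ (r, c)) ↔ u ∈ ty (fun _ => M.B) (r, c) := by rw [this]
    exact h3
  · have e1 : (fun j => ((i.2 j : ℕ) : ℤ)) = emb (fun _ => M.B) 0 r := by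
      funext j
      simp [emb, r]
    have e2 : (fun j => ((bb M i j : ℕ) : ℤ)) = emb (aa M i) 0 b := by
      funext j
      simp [emb, b]
    rw [e1, hL, h2, e2]

end Machine

end Pool.Agent.Helper599.Mod
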