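import Mathlib
import Pool.Agent.Helper599.Model
import Pool.Agent.Helper599.Source

set_option autoImplicit false

namespace Pool.Agent.Helper599.Mod

open Equiv Pool.Agent.Helper599.Core

/-- generators -/
inductive Gn (Q : Type) (B : ℕ) : Type
  | x (j : Bool)
  | y (j : Bool)
  | t (o : Option Q)
  | l (i : Option Q × (Bool → Fin B))
  | k

/-- relators -/
inductive Rl (Q : Type) (B : ℕ) : Type
  | xy (j : Bool)
  | yx (j : Bool)
  | comm
  | lx (i : Option Q × (Bool → Fin B)) (j : Bool)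
  | lt (i : Option Q × (Bool → Fin B))
  | kl (i : Option Q × (Bool → Fin B))
  | kt

/-- names -/
inductive Nm (Q : Type) (B : ℕ) : Type
  | id
  | g
  | gn (a : Gn Q B)
  | rl (r : Rl Q B)

instance {Q : Type} {B : ℕ} [Finite Q] : Finite (Gn Q B) := by
  let f : Gn Q B → (Bool ⊕ Bool) ⊕ (Option Q ⊕ ((Option Q × (Bool → Fin B)) ⊕ Unit)) :=
    fun a => match a with
    | .x j => .inl (.inl j)
    | .y j => .inl (.inr j)
    | .t o => .inr (.inl o)
    | .l i => .inr (.inr (.inl i))
    | .k => .inr (.inr (.inr ()))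
  refine Finite.of_injective f ?_
  intro a b h
  cases a <;> cases b <;> simp_all [f]

instance {Q : Type} {B : ℕ} [Finite Q] : Finite (Rl Q B) := by
  let f : Rl Q B → (Bool ⊕ Bool) ⊕ (((Option Q × (Bool → Fin B)) × Bool) ⊕
      ((Option Q × (Bool → Fin B)) ⊕ (Option Q × (Bool → Fin B)))) ⊕ (Unit ⊕ Unit) :=
    fun a => match a with
    | .xy j => .inl (.inl j)
    | .yx j => .inl (.inr j)
    | .comm => .inr (.inr (.inl ()))
    | .lx i j => .inr (.inl (.inl (i, j)))
    | .lt i => .inr (.inl (.inr (.inl i)))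
    | .kl i => .inr (.inl (.inr (.inr i)))
    | .kt => .inr (.inr (.inr ()))
  refine Finite.of_injective f ?_
  intro a b h
  cases a <;> cases b <;> simp_all [f]

instance {Q : Type} {B : ℕ} [Finite Q] : Finite (Nm Q B) := by
  let f : Nm Q B → (Unit ⊕ Unit) ⊕ (Gn Q B ⊕ Rl Q B) :=
    fun a => match a with
    | .id => .inl (.inl ())
    | .g => .inl (.inr ())
    | .gn a => .inr (.inl a)
    | .rl a => .inr (.inr a)
  refine Finite.of_injective f ?_
  intro a b h
  cases a <;> cases b <;> simp_all [f]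

variable {Q : Type} (M : Sys Q Bool)

/-- the word of a configuration -/
def W (n : Bool → ℕ) (o : Option Q) : List (Gn Q M.B) :=
  List.replicate (n true) (.x true) ++ (List.replicate (n false) (.x false) ++
    (.t o :: (List.replicate (n false) (.y false) ++ List.replicate (n true) (.y true))))

/-- left sides -/
def lhs : Rl Q M.B → List (Gn Q M.B)
  | .xy j => [.x j, .y j]
  | .yx j => [.y j, .x j]
  | .comm => [.x true, .x false]
  | .lx i j => .l i :: List.replicate M.B (.x j)
  | .lt i => .l i :: W M (fun j => (i.2 j : ℕ)) i.1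
  | .kl i => [.k, .l i]
  | .kt => [.k, .t none]

/-- right sides -/
def rhs : Rl Q M.B → List (Gn Q M.B)
  | .xy _ => []
  | .yx _ => []
  | .comm => [.x false, .x true]
  | .lx i j => List.replicate (aa M i j) (.x j) ++ [.l i]
  | .lt i => W M (bb M i) (nx M i) ++ [.l i]
  | .kl i => [.l i, .k]
  | .kt => [.t none, .k]

section Group

variable {H : Type} [Group H] (φ : Gn Q M.B → H)

/-- value of a word -/
def vl (w : List (Gn Q M.B)) : H := (w.map φ).prod

theorem vl_append (v w : List (Gn Q M.B)) : vl M φ (v ++ w) = vl M φ v * vl M φ w := by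
  simp [vl]

theorem vl_cons (a : Gn Q M.B) (w : List (Gn Q M.B)) : vl M φ (a :: w) = φ a * vl M φ w := by
  simp [vl]

theorem vl_nil : vl M φ [] = 1 := rfl

theorem vl_replicate (a : Gn Q M.B) (n : ℕ) : vl M φ (List.replicate n a) = φ a ^ n := by
  simp [vl]

/-- translations -/
def Xp (n : Bool → ℕ) : H := φ (.x true) ^ n true * φ (.x false) ^ n false

variable (hφ : ∀ r, vl M φ (lhs M r) = vl M φ (rhs M r))

include hφ in
theorem y_eq (j : Bool) : φ (.y j) = (φ (.x j))⁻¹ := by
  have := hφ (.xy j)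
  simp only [lhs, rhs, vl_cons, vl_nil, mul_one] at this
  exact eq_inv_of_mul_eq_one_right this

theorem vl_W (hy : ∀ j, φ (.y j) = (φ (.x j))⁻¹) (n : Bool → ℕ) (o : Option Q) :
    vl M φ (W M n o) = Xp M φ n * φ (.t o) * (Xp M φ n)⁻¹ := by
  simp only [W, vl_append, vl_cons, vl_replicate, hy, Xp]
  group

include hφ in
theorem x_comm : Commute (φ (.x true)) (φ (.x false)) := by
  have := hφ .comm
  simp only [lhs, rhs, vl_cons, vl_nil, mul_one] at this
  exact this

include hφ in
theorem Xp_add (n m : Bool → ℕ) : Xp M φ (fun j => n j + m j) = Xp M φ n * Xp M φ m := by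
  have h := x_comm M φ hφ
  simp only [Xp, pow_add]
  have h1 : Commute (φ (.x true) ^ m true) (φ (.x false) ^ n false) := h.pow_pow _ _
  calc _ = φ (.x true) ^ n true * (φ (.x true) ^ m true * φ (.x false) ^ n false) *
        φ (.x false) ^ m false := by group
    _ = _ := by rw [h1.eq]; group

include hφ in
theorem l_pow (i : Ins M) (j : Bool) (m : ℕ) :
    φ (.l i) * φ (.x j) ^ (M.B * m) = φ (.x j) ^ (aa M i j * m) * φ (.l i) := by
  have h := hφ (.lx i j)
  simp only [lhs, rhs, vl_cons, vl_nil, vl_append, vl_replicate, mul_one] at h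
  induction m with
  | zero => simp
  | succ m ih =>
    rw [Nat.mul_succ, Nat.mul_succ, pow_add, pow_add, ← mul_assoc, ih, mul_assoc, h, mul_assoc]

include hφ in
theorem l_Xp (i : Ins M) (m : Bool → ℕ) :
    φ (.l i) * Xp M φ (fun j => M.B * m j) = Xp M φ (fun j => aa M i j * m j) * φ (.l i) := by
  simp only [Xp]
  rw [← mul_assoc, l_pow M φ hφ, mul_assoc, l_pow M φ hφ, mul_assoc]

include hφ in
theorem l_W (i : Ins M) (m : Bool → ℕ) :
    φ (.l i) * vl M φ (W M (fun j => (i.2 j : ℕ) + M.B * m j) i.1) =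
      vl M φ (W M (fun j => bb M i j + aa M i j * m j) (nx M i)) * φ (.l i) := by
  have hy := y_eq M φ hφ
  have h1 := l_Xp M φ hφ i m
  have h2 := hφ (.lt i)
  simp only [lhs, rhs, vl_cons, vl_append, vl_nil, mul_one] at h2
  rw [vl_W M φ hy, vl_W M φ hy] at h2
  rw [vl_W M φ hy, vl_W M φ hy]
  have e1 : Xp M φ (fun j => (i.2 j : ℕ) + M.B * m j) =
      Xp M φ (fun j => M.B * m j) * Xp M φ (fun j => (i.2 j : ℕ)) := by
    rw [← Xp_add M φ hφ]; congr 1; funext j; ring
  have e2 : Xp M φ (fun j => bb M i j + aa M i j * m j) =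
      Xp M φ (fun j => aa M i j * m j) * Xp M φ (bb M i) := by
    rw [← Xp_add M φ hφ]; congr 1; funext j; ring
  rw [e1, e2]
  set A := Xp M φ (fun j => M.B * m j)
  set A' := Xp M φ (fun j => aa M i j * m j)
  set R := Xp M φ (fun j => (i.2 j : ℕ))
  set R' := Xp M φ (bb M i)
  set l := φ (.l i)
  have h3 : l * A⁻¹ = A'⁻¹ * l := by
    rw [eq_inv_mul_iff_mul_eq, ← mul_assoc, ← h1]; group
  calc l * (A * R * φ (.t i.1) * (A * R)⁻¹)
      = (l * A) * (R * φ (.t i.1) * R⁻¹) * A⁻¹ := by group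
    _ = A' * (l * (R * φ (.t i.1) * R⁻¹)) * A⁻¹ := by rw [h1]; group
    _ = A' * (R' * φ (.t (nx M i)) * R'⁻¹) * (l * A⁻¹) := by rw [h2]; group
    _ = _ := by rw [h3]; group

include hφ in
/-- Reaching configurations give elements commuting with `k`. -/
theorem commute_of_reach (o : Option Q) (n : Bool → ℕ) (h : Reach M (o, fun j => (n j : ℤ))) :
    Commute (φ .k) (vl M φ (W M n o)) := by
  obtain ⟨m, hm⟩ := h
  induction m generalizing o n with
  | zero =>
    simp only [Function.iterate_zero, id_eq, Prod.mk.injEq] at hm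
    obtain ⟨h1, h2⟩ := hm
    subst h1
    have h3 : n = 0 := by
      funext j
      have := congrFun h2 j
      simpa using this
    subst h3
    have h4 := hφ .kt
    simp only [lhs, rhs, vl_cons, vl_nil, mul_one] at h4
    rw [vl_W M φ (y_eq M φ hφ)]
    have : Xp M φ 0 = 1 := by simp [Xp]
    rw [this, one_mul, inv_one, mul_one]
    exact h4
  | succ m ih =>
    let i : Ins M := (o, fun j => M.red (n j))
    let u : Bool → ℕ := fun j => n j / M.B
    have e1 : (fun j => (n j : ℤ)) = fun j => ((i.2 j : ℕ) : ℤ) + M.B * (u j : ℤ) := by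
      funext j
      have h1 := M.red_val (n j : ℤ)
      simp only [i, u]
      rw [h1]
      push_cast
      exact (Int.emod_add_mul_ediv _ _).symm
    have e2 : n = fun j => (i.2 j : ℕ) + M.B * u j := by
      funext j
      have := congrFun e1 j
      exact_mod_cast this
    have e3 : stepZ M (o, fun j => (n j : ℤ)) =
        (nx M i, fun j => ((bb M i j + aa M i j * u j : ℕ) : ℤ)) := by
      rw [e1]
      have := stepZ_eq M i (fun j => (u j : ℤ))
      rw [this]
      push_cast
      rfl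
    rw [Function.iterate_succ_apply, e3] at hm
    have h1 := ih _ _ hm
    have h2 := l_W M φ hφ i u
    rw [e2]
    have h3 := hφ (.kl i)
    simp only [lhs, rhs, vl_cons, vl_nil, mul_one] at h3
    have h3 : Commute (φ .k) (φ (.l i)) := h3
    have h4 : vl M φ (W M (fun j => (i.2 j : ℕ) + M.B * u j) o) =
        (φ (.l i))⁻¹ * (vl M φ (W M (fun j => bb M i j + aa M i j * u j) (nx M i)) *
          φ (.l i)) := by
      rw [eq_inv_mul_iff_mul_eq]
      exact h2
    rw [h4]
    exact (h3.inv_right).mul_right (h1.mul_right h3)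

end Group

/-! ### The pairs of words -/

variable (q0 : Q) (N : ℕ)

/-- The pairs of words. -/
def pr : Nm Q M.B → List (Gn Q M.B) × List (Gn Q M.B)
  | .id => ([], [])
  | .g => (.k :: W M (Source.ini N) (some q0), W M (Source.ini N) (some q0) ++ [.k])
  | .gn a => ([a], [a])
  | .rl r => (lhs M r, rhs M r)

/-- first word map -/
def f1 : FreeGroup (Nm Q M.B) →* FreeGroup (Gn Q M.B) :=
  FreeGroup.lift (fun a => vl M FreeGroup.of (pr M q0 N a).1)

/-- second word map -/
def f2 : FreeGroup (Nm Q M.B) →* FreeGroup (Gn Q M.B) :=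
  FreeGroup.lift (fun a => vl M FreeGroup.of (pr M q0 N a).2)

/-- weight of a name -/
def wn : Nm Q M.B → ZMod 2
  | .g => 1
  | _ => 0

/-- weight -/
def wt : FreeGroup (Nm Q M.B) →* Multiplicative (ZMod 2) :=
  FreeGroup.lift (fun a => Multiplicative.ofAdd (wn M a))

theorem lift_vl {H : Type} [Group H] (φ : Gn Q M.B → H) (w : List (Gn Q M.B)) :
    FreeGroup.lift φ (vl M FreeGroup.of w) = vl M φ w := by
  induction w with
  | nil => simp [vl]
  | cons a w ih => rw [vl_cons, vl_cons, map_mul, ih, FreeGroup.lift_apply_of]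

/-- elements coming from the other names -/
def RR : Subgroup (FreeGroup (Gn Q M.B)) where
  carrier := {c | ∃ u, f1 M q0 N u = 1 ∧ f2 M q0 N u = c ∧ wt M u = 1}
  one_mem' := ⟨1, by simp⟩
  mul_mem' := by
    rintro _ _ ⟨u, h1, rfl, h3⟩ ⟨v, k1, rfl, k3⟩
    exact ⟨u * v, by simp [h1, k1], by simp, by simp [h3, k3]⟩
  inv_mem' := by
    rintro _ ⟨u, h1, rfl, h3⟩
    exact ⟨u⁻¹, by simp [h1], by simp, by simp [h3]⟩

/-- names of generators -/
def dg : FreeGroup (Gn Q M.B) →* FreeGroup (Nm Q M.B) :=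
  FreeGroup.lift (fun a => FreeGroup.of (.gn a))

theorem f1_dg (c : FreeGroup (Gn Q M.B)) : f1 M q0 N (dg M c) = c := by
  have : (f1 M q0 N).comp (dg M) = MonoidHom.id _ := by
    apply FreeGroup.ext_hom
    intro a
    simp [f1, dg, pr, vl]
  exact DFunLike.congr_fun this c

theorem f2_dg (c : FreeGroup (Gn Q M.B)) : f2 M q0 N (dg M c) = c := by
  have : (f2 M q0 N).comp (dg M) = MonoidHom.id _ := by
    apply FreeGroup.ext_hom
    intro a
    simp [f2, dg, pr, vl]
  exact DFunLike.congr_fun this c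

theorem wt_dg (c : FreeGroup (Gn Q M.B)) : wt M (dg M c) = 1 := by
  have : (wt M).comp (dg M) = 1 := by
    apply FreeGroup.ext_hom
    intro a
    simp [wt, dg, wn]
  exact DFunLike.congr_fun this c

instance : (RR M q0 N).Normal where
  conj_mem := by
    rintro _ ⟨u, h1, rfl, h3⟩ c
    refine ⟨dg M c * u * (dg M c)⁻¹, ?_, ?_, ?_⟩
    · rw [map_mul, map_mul, map_inv, h1, mul_one, mul_inv_cancel]
    · rw [map_mul, map_mul, map_inv, f2_dg]
    · rw [map_mul, map_mul, map_inv, h3, mul_one, mul_inv_cancel]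

/-- In the halting case the weight is not determined. -/
theorem exists_of_reach (h : Reach M (some q0, fun j => (Source.ini N j : ℤ))) :
    ∃ u, f1 M q0 N u = 1 ∧ f2 M q0 N u = 1 ∧ wt M u = Multiplicative.ofAdd 1 := by
  let π := QuotientGroup.mk' (RR M q0 N)
  let φ : Gn Q M.B → FreeGroup (Gn Q M.B) ⧸ RR M q0 N := fun a => π (FreeGroup.of a)
  have hπ : ∀ w, π (vl M FreeGroup.of w) = vl M φ w := by
    intro w
    induction w with
    | nil => simp [vl]
    | cons a w ih => rw [vl_cons, vl_cons, map_mul, ih]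
  have hφ : ∀ r, vl M φ (lhs M r) = vl M φ (rhs M r) := by
    intro r
    rw [← hπ, ← hπ]
    refine QuotientGroup.eq.2 ?_
    refine ⟨(dg M (vl M FreeGroup.of (lhs M r)))⁻¹ * FreeGroup.of (.rl r), ?_, ?_, ?_⟩
    · rw [map_mul, map_inv, f1_dg]
      simp [f1, pr]
    · rw [map_mul, map_inv, f2_dg]
      simp [f2, pr]
    · rw [map_mul, map_inv, wt_dg]
      simp [wt, wn]
  have h1 := commute_of_reach M φ hφ (some q0) (Source.ini N) h
  have h2 : vl M φ (pr M q0 N .g).1 = vl M φ (pr M q0 N .g).2 := by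
    simp only [pr, vl_cons, vl_append, vl_nil, mul_one]
    exact h1.eq
  rw [← hπ, ← hπ] at h2
  have h3 := QuotientGroup.eq.1 h2
  obtain ⟨u, k1, k2, k3⟩ := h3
  refine ⟨(dg M (vl M FreeGroup.of (pr M q0 N .g).1))⁻¹ * FreeGroup.of .g * u⁻¹, ?_, ?_, ?_⟩
  · rw [map_mul, map_mul, map_inv, map_inv, f1_dg, k1]
    simp [f1]
  · rw [map_mul, map_mul, map_inv, map_inv, f2_dg, k2]
    simp [f2]
  · rw [map_mul, map_mul, map_inv, map_inv, wt_dg, k3]
    simp [wt, wn]

end Pool.Agent.Helper599.Mod
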