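import Mathlib
import Pool.Agent.Helper599.Pairs

set_option autoImplicit false

namespace Pool.Agent.Helper599.Mod

open Equiv Pool.Agent.Helper599.Core

/-- pairs of a function and a bit -/
abbrev Ph : Type := (Om → ZMod 2) × ZMod 2

/-- transport -/
def Sg (σ : Perm Om) : Perm Ph where
  toFun p := (fun ω => p.1 (σ.symm ω), p.2)
  invFun p := (fun ω => p.1 (σ ω), p.2)
  left_inv p := by simp
  right_inv p := by simp

/-- evaluation at a point -/
def Tg (ω : Om) : Perm Ph where
  toFun p := (p.1, p.2 + p.1 ω)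
  invFun p := (p.1, p.2 - p.1 ω)
  left_inv p := by simp
  right_inv p := by simp

/-- the constant -/
def Zg (e : ZMod 2) : Perm Ph where
  toFun p := (p.1, p.2 + e)
  invFun p := (p.1, p.2 - e)
  left_inv p := by simp
  right_inv p := by simp

open Classical in
/-- indicator of the complement -/
noncomputable def ind (ω : Om) : ZMod 2 := if ω ∈ DD then 0 else 1

/-- adding the indicator -/
noncomputable def Kg : Perm Ph where
  toFun p := (fun ω => p.1 ω + ind ω, p.2)
  invFun p := (fun ω => p.1 ω - ind ω, p.2)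
  left_inv p := by simp
  right_inv p := by simp

theorem Sg_apply (σ : Perm Om) (p : Ph) : Sg σ p = (fun ω => p.1 (σ.symm ω), p.2) := rfl
theorem Tg_apply (ω : Om) (p : Ph) : Tg ω p = (p.1, p.2 + p.1 ω) := rfl
theorem Zg_apply (e : ZMod 2) (p : Ph) : Zg e p = (p.1, p.2 + e) := rfl
theorem Kg_apply (p : Ph) : Kg p = (fun ω => p.1 ω + ind ω, p.2) := rfl

theorem Sg_mul (σ τ : Perm Om) : Sg (σ * τ) = Sg σ * Sg τ := by
  ext p : 1
  rfl

theorem Sg_one : Sg 1 = 1 := by
  ext p : 1
  rfl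

theorem Sg_inv (σ : Perm Om) : Sg σ⁻¹ = (Sg σ)⁻¹ := by
  rw [eq_inv_iff_mul_eq_one, ← Sg_mul, inv_mul_cancel, Sg_one]

theorem Sg_pow (σ : Perm Om) (n : ℕ) : Sg (σ ^ n) = Sg σ ^ n := by
  induction n with
  | zero => rw [pow_zero, pow_zero, Sg_one]
  | succ n ih => rw [pow_succ, pow_succ, Sg_mul, ih]

theorem Sg_Tg (σ : Perm Om) (ω : Om) : Sg σ * Tg ω = Tg (σ ω) * Sg σ := by
  ext p : 1
  simp [Perm.mul_apply, Sg_apply, Tg_apply]

theorem Kg_Tg (ω : Om) : Kg * Tg ω = Tg ω * Kg * Zg (ind ω) := by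
  ext p : 1
  simp only [Perm.mul_apply, Kg_apply, Tg_apply, Zg_apply, Prod.mk.injEq, true_and]
  have : ind ω + ind ω = 0 := CharTwo.add_self_eq_zero _
  linear_combination - this

theorem Kg_Sg (σ : Perm Om) (h : ∀ p, σ p ∈ DD ↔ p ∈ DD) : Kg * Sg σ = Sg σ * Kg := by
  ext p : 1
  simp only [Perm.mul_apply, Kg_apply, Sg_apply, Prod.mk.injEq, and_true]
  funext ω
  have h1 : ind ω = ind (σ.symm ω) := by
    have this : ω ∈ DD ↔ σ.symm ω ∈ DD := by
      have := h (σ.symm ω)
      rwa [Equiv.apply_symm_apply] at this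
    unfold ind
    by_cases h2 : σ.symm ω ∈ DD
    · rw [if_pos h2, if_pos (this.2 h2)]
    · rw [if_neg h2, if_neg (fun h3 => h2 (this.1 h3))]
  rw [h1]

theorem Zg_add (e f : ZMod 2) : Zg (e + f) = Zg e * Zg f := by
  ext p : 1
  simp only [Perm.mul_apply, Zg_apply, Prod.mk.injEq, true_and]
  ring

theorem Zg_zero : Zg 0 = 1 := by
  ext p : 1
  simp [Zg_apply]

theorem Zg_Kg (e : ZMod 2) : Commute (Zg e) Kg := by
  change _ = _
  ext p : 1
  simp [Perm.mul_apply, Kg_apply, Zg_apply]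

theorem Zg_Sg (e : ZMod 2) (σ : Perm Om) : Commute (Zg e) (Sg σ) := by
  change _ = _
  ext p : 1
  simp [Perm.mul_apply, Sg_apply, Zg_apply]

theorem Zg_Tg (e : ZMod 2) (ω : Om) : Commute (Zg e) (Tg ω) := by
  change _ = _
  ext p : 1
  simp only [Perm.mul_apply, Tg_apply, Zg_apply, Prod.mk.injEq, true_and]
  ring

variable {Q : Type} (M : Sys Q Bool)

section

variable (hM : ∀ q r, M.nxt q r ≠ none → ∀ j, M.b q r j < M.a q r j)

/-- the marked point -/
def pt (o : Option Q) : Om := (0, cc M o)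

/-- the model -/
noncomputable def ph : Gn Q M.B → Perm Ph
  | .x j => Sg (XX (Pi.single j 1))
  | .y j => (Sg (XX (Pi.single j 1)))⁻¹
  | .t o => Tg (pt M o)
  | .l i => Sg (exists_L M hM i).choose
  | .k => Kg

theorem Zg_ph (e : ZMod 2) (a : Gn Q M.B) : Commute (Zg e) (ph M hM a) := by
  cases a with
  | x j => exact Zg_Sg _ _
  | y j => exact (Zg_Sg _ _).inv_right
  | t o => exact Zg_Tg _ _
  | l i => exact Zg_Sg _ _
  | k => exact Zg_Kg _

theorem Zg_vl (e : ZMod 2) (w : List (Gn Q M.B)) : Commute (Zg e) (vl M (ph M hM) w) := by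
  induction w with
  | nil => exact Commute.one_right _
  | cons a w ih => rw [vl_cons]; exact (Zg_ph M hM e a).mul_right ih

theorem Xp_ph (n : Bool → ℕ) : Xp M (ph M hM) n = Sg (XX (fun j => (n j : ℤ))) := by
  simp only [Xp, ph]
  rw [← Sg_pow, ← Sg_pow, ← Sg_mul, XX_pow, XX_pow, ← XX_add]
  congr 2
  funext j
  cases j <;> simp

theorem W_ph (n : Bool → ℕ) (o : Option Q) :
    vl M (ph M hM) (W M n o) = Tg (fun j => (n j : ℤ), cc M o) := by
  rw [vl_W M (ph M hM) (fun j => rfl), Xp_ph]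
  simp only [ph]
  rw [Sg_Tg, mul_inv_cancel_right]
  simp [XX_apply, pt]

theorem rel_ph (r : Rl Q M.B) : vl M (ph M hM) (lhs M r) = vl M (ph M hM) (rhs M r) := by
  cases r with
  | xy j => simp [lhs, rhs, vl_cons, vl_nil, ph]
  | yx j => simp [lhs, rhs, vl_cons, vl_nil, ph]
  | comm =>
    simp only [lhs, rhs, vl_cons, vl_nil, ph, mul_one]
    rw [← Sg_mul, ← Sg_mul, ← XX_add, ← XX_add, add_comm]
  | lx i j =>
    simp only [lhs, rhs, vl_cons, vl_append, vl_nil, vl_replicate, mul_one, ph]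
    rw [← Sg_pow, ← Sg_pow, ← Sg_mul, ← Sg_mul, (exists_L M hM i).choose_spec.1 j]
  | lt i =>
    simp only [lhs, rhs, vl_cons, vl_append, vl_nil, mul_one]
    rw [W_ph, W_ph]
    simp only [ph]
    rw [Sg_Tg, (exists_L M hM i).choose_spec.2.2]
  | kl i =>
    simp only [lhs, rhs, vl_cons, vl_nil, mul_one, ph]
    exact Kg_Sg _ (exists_L M hM i).choose_spec.2.1
  | kt =>
    simp only [lhs, rhs, vl_cons, vl_nil, mul_one, ph]
    rw [Kg_Tg]
    have : ind (pt M none) = 0 := by
      unfold ind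
      rw [if_pos]
      exact ⟨0, rfl⟩
    rw [this, Zg_zero, mul_one]

variable (q0 : Q) (N : ℕ)

theorem g_ph (h : ¬ Reach M (some q0, fun j => (Source.ini N j : ℤ))) :
    vl M (ph M hM) (pr M q0 N .g).1 = vl M (ph M hM) (pr M q0 N .g).2 * Zg 1 := by
  simp only [pr, vl_cons, vl_append, vl_nil, mul_one]
  rw [W_ph]
  simp only [ph]
  rw [Kg_Tg]
  have : ind (fun j => (Source.ini N j : ℤ), cc M (some q0)) = 1 := by
    unfold ind
    rw [if_neg]
    exact h
  rw [this]

theorem nm_ph (h : ¬ Reach M (some q0, fun j => (Source.ini N j : ℤ))) (a : Nm Q M.B) :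
    vl M (ph M hM) (pr M q0 N a).1 = vl M (ph M hM) (pr M q0 N a).2 * Zg (wn M a) := by
  cases a with
  | id => simp [pr, wn, Zg_zero]
  | g => exact g_ph M hM q0 N h
  | gn a => simp [pr, wn, Zg_zero]
  | rl r =>
    simp only [pr, wn, Zg_zero, mul_one]
    exact rel_ph M hM r

theorem main_ph (h : ¬ Reach M (some q0, fun j => (Source.ini N j : ℤ)))
    (u : FreeGroup (Nm Q M.B)) :
    FreeGroup.lift (ph M hM) (f1 M q0 N u) =
      FreeGroup.lift (ph M hM) (f2 M q0 N u) * Zg (Multiplicative.toAdd (wt M u)) := by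
  have hc : ∀ (e : ZMod 2) (c : FreeGroup (Gn Q M.B)),
      Commute (Zg e) (FreeGroup.lift (ph M hM) c) := by
    intro e c
    induction c using FreeGroup.induction_on with
    | C1 => rw [map_one]; exact Commute.one_right _
    | of a => rw [FreeGroup.lift_apply_of]; exact Zg_ph M hM e a
    | inv_of a ih => rw [map_inv]; exact ih.inv_right
    | mul a b h1 h2 => rw [map_mul]; exact h1.mul_right h2
  have hof : ∀ a : Nm Q M.B, FreeGroup.lift (ph M hM) (f1 M q0 N (FreeGroup.of a)) =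
      FreeGroup.lift (ph M hM) (f2 M q0 N (FreeGroup.of a)) *
        Zg (Multiplicative.toAdd (wt M (FreeGroup.of a))) := by
    intro a
    simp only [f1, f2, wt, FreeGroup.lift_apply_of, lift_vl, toAdd_ofAdd]
    exact nm_ph M hM q0 N h a
  induction u using FreeGroup.induction_on with
  | C1 => simp [Zg_zero]
  | of a => exact hof a
  | inv_of a _ =>
    have := hof a
    simp only [map_inv, toAdd_inv]
    rw [this, mul_inv_rev, ((hc _ _).inv_inv).eq]
    congr 1
    rw [inv_eq_iff_mul_eq_one, ← Zg_add]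
    have hz : Multiplicative.toAdd (wt M (FreeGroup.of a)) +
        -Multiplicative.toAdd (wt M (FreeGroup.of a)) = 0 := add_neg_cancel _
    rw [hz, Zg_zero]
  | mul a b h1 h2 =>
    simp only [map_mul, toAdd_mul, h1, h2, Zg_add]
    have := hc (Multiplicative.toAdd (wt M a)) (f2 M q0 N b)
    simp only [mul_assoc]
    congr 1
    rw [← mul_assoc, this.eq, mul_assoc]

include hM in
/-- In the other case the weight is determined. -/
theorem wt_eq_one (h : ¬ Reach M (some q0, fun j => (Source.ini N j : ℤ)))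
    (u : FreeGroup (Nm Q M.B)) (h1 : f1 M q0 N u = 1) (h2 : f2 M q0 N u = 1) : wt M u = 1 := by
  have := main_ph M hM q0 N h u
  rw [h1, h2, map_one, one_mul] at this
  have h3 := DFunLike.congr_fun this ((fun _ => 0, 0) : Ph)
  rw [Zg_apply] at h3
  have h4 := congrArg Prod.snd h3
  simp only [Perm.one_apply, zero_add] at h4
  rw [← ofAdd_toAdd (wt M u), ← h4]
  rfl

end

end Pool.Agent.Helper599.Mod
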