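import Mathlib

set_option autoImplicit false

namespace Pool.Agent.Helper599.PP

/-- automorphisms of the lattice -/
abbrev GL2 : Type := (ℤ × ℤ) ≃ₗ[ℤ] (ℤ × ℤ)

/-- The hyperbolic automorphisms of the lattice. -/
def Au (c : ℤ) : GL2 where
  toFun p := (c * p.1 + (c ^ 2 - 1) * p.2, p.1 + c * p.2)
  invFun p := (c * p.1 - (c ^ 2 - 1) * p.2, -p.1 + c * p.2)
  left_inv p := by
    ext
    · simp only; ring
    · simp only; ring
  right_inv p := by
    ext
    · simp only; ring
    · simp only; ring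
  map_add' p q := by
    ext
    · simp only [Prod.fst_add, Prod.snd_add]; ring
    · simp only [Prod.fst_add, Prod.snd_add]; ring
  map_smul' m p := by
    ext
    · simp only [Prod.smul_fst, Prod.smul_snd, smul_eq_mul, RingHom.id_apply]; ring
    · simp only [Prod.smul_fst, Prod.smul_snd, smul_eq_mul, RingHom.id_apply]; ring

theorem Au_apply (c : ℤ) (p : ℤ × ℤ) :
    Au c p = (c * p.1 + (c ^ 2 - 1) * p.2, p.1 + c * p.2) := rfl

theorem Au_inv_apply (c : ℤ) (p : ℤ × ℤ) :
    (Au c)⁻¹ p = (c * p.1 - (c ^ 2 - 1) * p.2, -p.1 + c * p.2) := rfl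

/-- nonzero vectors -/
abbrev Nz : Type := {p : ℤ × ℤ // p ≠ 0}

instance : MulAction GL2 Nz where
  smul g p := ⟨g p.1, by
    intro h
    apply p.2
    exact g.injective (by rw [h, map_zero])⟩
  one_smul p := rfl
  mul_smul g h p := rfl

theorem smul_val (g : GL2) (p : Nz) : (g • p).1 = g p.1 := rfl

/-- The base constants. -/
def cst (k : ℕ) : ℕ := 3 * (k + 1)

open scoped Function Pointwise in
/-- Different constants generate a free group. -/
theorem injective {ι : Type} [Nontrivial ι] (e : ι → ℕ) (he : Function.Injective e) :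
    Function.Injective (FreeGroup.lift (fun i => Au (cst (e i)))) := by
  have hc : ∀ i, (3 : ℤ) ≤ cst (e i) := by
    intro i; unfold cst; push_cast; omega
  have hd : ∀ i j, i ≠ j → (cst (e i) : ℤ) + 3 ≤ cst (e j) ∨ (cst (e j) : ℤ) + 3 ≤ cst (e i) := by
    intro i j h
    have : e i ≠ e j := fun h' => h (he h')
    unfold cst; push_cast; omega
  have hq : ∀ (c d p q : ℤ), c + 3 ≤ d → |p - c * q| ≤ |q| → |p - d * q| ≤ |q| →
      p = 0 ∧ q = 0 := by
    intro c d p q hcd h1 h2
    have h3 : |(d - c) * q| ≤ |q| + |q| := by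
      have : (d - c) * q = (p - c * q) - (p - d * q) := by ring
      rw [this]
      exact (abs_sub _ _).trans (add_le_add h1 h2)
    rw [abs_mul, abs_of_nonneg (by omega : 0 ≤ d - c)] at h3
    have h4 : 0 ≤ |q| := abs_nonneg q
    have h5 : |q| = 0 := by nlinarith
    have h6 : q = 0 := abs_eq_zero.1 h5
    subst h6
    simp at h1
    exact ⟨h1, rfl⟩
  refine FreeGroup.injective_lift_of_ping_pong (fun i => Au (cst (e i)))
    (α := Nz)
    (fun i => {p : Nz | |p.1.1 - cst (e i) * p.1.2| ≤ |p.1.2|})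
    (fun i => {p : Nz | |p.1.1 + cst (e i) * p.1.2| < |p.1.2|}) ?_ ?_ ?_ ?_ ?_ ?_
  · intro i
    refine ⟨⟨(cst (e i), 1), by simp⟩, ?_⟩
    simp
  · intro i j hij
    rw [Function.onFun, Set.disjoint_left]
    rintro ⟨⟨p, q⟩, hp⟩ h1 h2
    simp only [Set.mem_ofPred_eq] at h1 h2
    apply hp
    rcases hd i j hij with h | h
    · obtain ⟨h3, h4⟩ := hq _ _ p q h h1 h2
      rw [h3, h4]; rfl
    · obtain ⟨h3, h4⟩ := hq _ _ p q h h2 h1
      rw [h3, h4]; rfl
  · intro i j hij
    rw [Function.onFun, Set.disjoint_left]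
    rintro ⟨⟨p, q⟩, hp⟩ h1 h2
    simp only [Set.mem_ofPred_eq] at h1 h2
    apply hp
    have e1 : ∀ c : ℤ, |p + c * q| = |-p - c * q| := by
      intro c
      rw [← abs_neg]
      congr 1
      ring
    rw [e1] at h1 h2
    rcases hd i j hij with h | h
    · obtain ⟨h3, h4⟩ := hq _ _ (-p) q h h1.le h2.le
      rw [neg_eq_zero] at h3
      rw [h3, h4]; rfl
    · obtain ⟨h3, h4⟩ := hq _ _ (-p) q h h2.le h1.le
      rw [neg_eq_zero] at h3
      rw [h3, h4]; rfl
  · intro i j
    rw [Set.disjoint_left]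
    rintro ⟨⟨p, q⟩, hp⟩ h1 h2
    simp only [Set.mem_ofPred_eq] at h1 h2
    apply hp
    have h3 : |((cst (e i) : ℤ) + cst (e j)) * q| ≤ |q| + |q| := by
      have : ((cst (e i) : ℤ) + cst (e j)) * q = (p + cst (e j) * q) - (p - cst (e i) * q) := by
        ring
      rw [this]
      exact (abs_sub _ _).trans (add_le_add h2.le h1)
    have hi := hc i
    have hj := hc j
    rw [abs_mul, abs_of_nonneg (by omega : (0 : ℤ) ≤ (cst (e i) : ℤ) + cst (e j))] at h3
    have h4 : 0 ≤ |q| := abs_nonneg q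
    have h5 : |q| = 0 := by nlinarith
    have h6 : q = 0 := abs_eq_zero.1 h5
    subst h6
    simp at h1
    rw [h1]; rfl
  · intro i
    rintro _ ⟨⟨⟨p, q⟩, hp⟩, h1, rfl⟩
    simp only [Set.mem_compl_iff, Set.mem_ofPred_eq, not_lt] at h1 ⊢
    rw [smul_val, Au_apply]
    simp only
    have : (cst (e i) : ℤ) * p + ((cst (e i) : ℤ) ^ 2 - 1) * q - cst (e i) * (p + cst (e i) * q) =
      -q := by ring
    rw [this, abs_neg]
    exact h1
  · intro i
    rintro _ ⟨⟨⟨p, q⟩, hp⟩, h1, rfl⟩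
    simp only [Set.mem_compl_iff, Set.mem_ofPred_eq, not_le, Pi.inv_apply] at h1 ⊢
    rw [smul_val, Au_inv_apply]
    simp only
    have e2 : (cst (e i) : ℤ) * p - ((cst (e i) : ℤ) ^ 2 - 1) * q + cst (e i) * (-p + cst (e i) * q) =
      q := by ring
    have e3 : |-p + cst (e i) * q| = |p - cst (e i) * q| := by
      rw [← abs_neg]
      congr 1
      ring
    rw [e2, e3]
    exact h1

end Pool.Agent.Helper599.PP
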