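import Mathlib
import Pool.Agent.Helper599.PingPong

set_option autoImplicit false

namespace Pool.Agent.Helper599.Ray

open Equiv Pool.Agent.Helper599.PP

/-- the lattice of rank four -/
abbrev Z4 : Type := (ℤ × ℤ) × (ℤ × ℤ)

/-- rays -/
abbrev R : Type := ℕ → Fin 18

/-- pairs of automorphisms -/
abbrev GG : Type := GL2 × GL2

/-- action of a pair -/
def ac (M : GG) (z : Z4) : Z4 := (M.1 z.1, M.2 z.2)

theorem ac_add (M : GG) (z w : Z4) : ac M (z + w) = ac M z + ac M w := by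
  simp [ac]

theorem ac_smul (M : GG) (c : ℤ) (z : Z4) : ac M (c • z) = c • ac M z := by
  simp only [ac, Prod.smul_fst, Prod.smul_snd, map_smul, Prod.smul_mk]

theorem ac_neg (M : GG) (z : Z4) : ac M (-z) = - ac M z := by
  simp [ac]

theorem ac_zero (M : GG) : ac M 0 = 0 := by
  simp [ac]

theorem ac_one (z : Z4) : ac 1 z = z := rfl

theorem ac_mul (M N : GG) (z : Z4) : ac (M * N) z = ac M (ac N z) := rfl

theorem ac_inv_ac (M : GG) (z : Z4) : ac M⁻¹ (ac M z) = z := by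
  rw [← ac_mul, inv_mul_cancel, ac_one]

/-- the digit vector of a letter -/
def dz (x : ℕ) : Z4 := (((x % 2 : ℕ), (x / 2 % 2 : ℕ)), ((x / 4 % 2 : ℕ), (x / 8 % 2 : ℕ)))

/-- value of the first letters -/
def val (η : R) : ℕ → Z4
  | 0 => 0
  | m + 1 => val η m + (2 ^ m : ℤ) • dz (η m)

/-- the first letters are digits -/
def IsDig (η : R) (m : ℕ) : Prop := ∀ j < m, (η j : ℕ) < 16

/-- congruence modulo a power of two -/
def Cg (m : ℕ) (x y : Z4) : Prop := ∃ w : Z4, x = y + (2 ^ m : ℤ) • w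

theorem Cg.refl (m : ℕ) (x : Z4) : Cg m x x := ⟨0, by simp⟩

theorem Cg.trans {m : ℕ} {x y z : Z4} (h : Cg m x y) (h' : Cg m y z) : Cg m x z := by
  obtain ⟨w, rfl⟩ := h
  obtain ⟨w', rfl⟩ := h'
  exact ⟨w' + w, by rw [smul_add]; abel⟩

theorem Cg.symm {m : ℕ} {x y : Z4} (h : Cg m x y) : Cg m y x := by
  obtain ⟨w, rfl⟩ := h
  exact ⟨-w, by rw [smul_neg]; abel⟩

theorem Cg.add {m : ℕ} {x y x' y' : Z4} (h : Cg m x y) (h' : Cg m x' y') :
    Cg m (x + x') (y + y') := by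
  obtain ⟨w, rfl⟩ := h
  obtain ⟨w', rfl⟩ := h'
  exact ⟨w + w', by rw [smul_add]; abel⟩

theorem Cg.ac {m : ℕ} {x y : Z4} (h : Cg m x y) (M : GG) : Cg m (ac M x) (ac M y) := by
  obtain ⟨w, rfl⟩ := h
  exact ⟨Ray.ac M w, by rw [ac_add, ac_smul]⟩

theorem Cg.mono {m m' : ℕ} {x y : Z4} (hm : m ≤ m') (h : Cg m' x y) : Cg m x y := by
  obtain ⟨w, rfl⟩ := h
  refine ⟨(2 ^ (m' - m) : ℤ) • w, ?_⟩
  rw [smul_smul, ← pow_add, Nat.add_sub_cancel' hm]

theorem IsDig.mono {η : R} {m m' : ℕ} (hm : m ≤ m') (h : IsDig η m') : IsDig η m :=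
  fun j hj => h j (by omega)

theorem dz_inj {x y : ℕ} (hx : x < 16) (hy : y < 16) (w : Z4) (h : dz x = dz y + (2 : ℤ) • w) :
    x = y := by
  obtain ⟨⟨a, b⟩, ⟨c, d⟩⟩ := w
  simp only [dz, Prod.smul_mk, Prod.mk_add_mk, Prod.mk.injEq, smul_eq_mul] at h
  omega

theorem val_congr {η ζ : R} {m : ℕ} (h : ∀ j < m, η j = ζ j) : val η m = val ζ m := by
  induction m with
  | zero => rfl
  | succ m ih =>
    rw [val, val, ih (fun j hj => h j (by omega)), h m (by omega)]

theorem eq_of_cg {η ζ : R} {m : ℕ} (hη : IsDig η m) (hζ : IsDig ζ m)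
    (h : Cg m (val η m) (val ζ m)) : ∀ j < m, η j = ζ j := by
  induction m with
  | zero => intro j hj; omega
  | succ m ih =>
    have h1 : Cg m (val η m) (val ζ m) := by
      have h2 : Cg m (val η (m + 1)) (val η m) := ⟨_, rfl⟩
      have h3 : Cg m (val ζ (m + 1)) (val ζ m) := ⟨_, rfl⟩
      exact (h2.symm.trans (h.mono (Nat.le_succ m))).trans h3
    have h4 := ih (hη.mono (Nat.le_succ m)) (hζ.mono (Nat.le_succ m)) h1
    have h5 := val_congr h4
    obtain ⟨w, hw⟩ := h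
    rw [val, val, h5, pow_succ, add_assoc, mul_smul, ← smul_add] at hw
    have h6 := add_left_cancel hw
    have h7 : dz (η m) = dz (ζ m) + (2 : ℤ) • w := by
      have h8 : (2 ^ m : ℤ) ≠ 0 := by positivity
      exact smul_right_injective Z4 h8 h6
    intro j hj
    rcases Nat.lt_succ_iff_lt_or_eq.1 hj with h9 | h9
    · exact h4 j h9
    · subst h9
      exact Fin.ext (dz_inj (hη j hj) (hζ j hj) w h7)

/-- flipping the two special letters -/
def fl (e : ZMod 2) (x : ℕ) : ℕ := if e = 0 then x else 33 - x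

theorem fl_add (e e' : ZMod 2) (x : ℕ) (hx : x < 18) : fl (e + e') x = fl e (fl e' x) := by
  have h1 : e = 0 ∨ e = 1 := by revert e; decide
  have h2 : e' = 0 ∨ e' = 1 := by revert e'; decide
  have h3 : (1 : ZMod 2) + 1 = 0 := rfl
  have h4 : (1 : ZMod 2) ≠ 0 := by decide
  rcases h1 with rfl | rfl <;> rcases h2 with rfl | rfl <;> simp [fl, h3, h4]
  omega

theorem fl_ge (e : ZMod 2) (x : ℕ) (hx : x < 18) (h : 16 ≤ x) : 16 ≤ fl e x := by
  unfold fl; split_ifs <;> omega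

/-- description of an element -/
structure Desc (g : Perm R) (M : GG) (v : Z4) (e : ZMod 2) : Prop where
  dig : ∀ η m, IsDig η m → IsDig (g η) m
  vl : ∀ η m, IsDig η m → Cg m (val (g η) m) (ac M (val η m) + v)
  flip : ∀ η m, IsDig η m → 16 ≤ (η m : ℕ) → (g η m : ℕ) = fl e (η m)
  rest : ∀ η m, IsDig η m → 16 ≤ (η m : ℕ) → ∀ j, m < j → g η j = η j

theorem Desc.one : Desc 1 1 0 0 where
  dig η m h := h
  vl η m h := by simpa [ac_one] using Cg.refl m _
  flip η m h h' := rfl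
  rest η m h h' j hj := rfl

theorem Desc.mul {g h : Perm R} {M M' : GG} {v v' : Z4} {e e' : ZMod 2} (hg : Desc g M v e)
    (hh : Desc h M' v' e') : Desc (g * h) (M * M') (ac M v' + v) (e + e') where
  dig η m hη := hg.dig _ _ (hh.dig _ _ hη)
  vl η m hη := by
    have h1 := hg.vl _ _ (hh.dig _ _ hη)
    have h2 := ((hh.vl _ _ hη).ac M).add (Cg.refl m v)
    have h3 := h1.trans h2
    rw [ac_add, ← ac_mul, add_assoc] at h3
    exact h3
  flip η m hη hm := by
    have h1 := hh.flip _ _ hη hm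
    have h2 := fl_ge e' _ (η m).2 hm
    rw [fl_add e e' _ (η m).2, ← h1]
    exact hg.flip _ _ (hh.dig _ _ hη) (by rw [h1]; exact h2)
  rest η m hη hm j hj := by
    have h1 := hh.flip _ _ hη hm
    have h2 := fl_ge e' _ (η m).2 hm
    have h3 := hg.rest _ _ (hh.dig _ _ hη) (by rw [h1]; exact h2) j hj
    rw [Perm.mul_apply, h3]
    exact hh.rest _ _ hη hm j hj

theorem app_inv (g : Perm R) (η : R) : g (g⁻¹ η) = η := g.apply_symm_apply η

theorem Desc.inv {g : Perm R} {M : GG} {v : Z4} {e : ZMod 2} (hg : Desc g M v e) :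
    Desc g⁻¹ M⁻¹ (- ac M⁻¹ v) e := by
  have hdig : ∀ η m, IsDig η m → IsDig (g⁻¹ η) m := by
    intro η m hη
    by_contra hcon
    unfold IsDig at hcon
    push Not at hcon
    classical
    have h1 := Nat.find_spec hcon
    have h2 := fun j => Nat.find_min hcon (m := j)
    set k := Nat.find hcon
    have h3 : IsDig (g⁻¹ η) k := by
      intro j hj
      by_contra h4
      exact h2 j hj ⟨by omega, by omega⟩
    have h5 := hg.flip _ _ h3 h1.2
    rw [app_inv] at h5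
    have h6 := fl_ge e _ (g⁻¹ η k).2 h1.2
    have h7 := hη k h1.1
    omega
  have hsp : ∀ η m, IsDig η m → 16 ≤ (η m : ℕ) → 16 ≤ (g⁻¹ η m : ℕ) := by
    intro η m hη hm
    by_contra h1
    have h2 : IsDig (g⁻¹ η) (m + 1) := by
      intro j hj
      rcases Nat.lt_succ_iff_lt_or_eq.1 hj with h | h
      · exact hdig η m hη j h
      · subst h; omega
    have h3 := hg.dig _ _ h2 m (by omega)
    rw [app_inv] at h3
    omega
  constructor
  · exact hdig
  · intro η m hη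
    have h1 := hg.vl _ _ (hdig η m hη)
    rw [app_inv] at h1
    have h2 := (h1.ac M⁻¹).symm.add (Cg.refl m (- ac M⁻¹ v))
    rw [ac_add, ac_inv_ac] at h2
    simpa using h2
  · intro η m hη hm
    have h1 := hg.flip _ _ (hdig η m hη) (hsp η m hη hm)
    rw [app_inv] at h1
    rw [h1, ← fl_add _ _ _ (g⁻¹ η m).2]
    have : e + e = 0 := CharTwo.add_self_eq_zero _
    rw [this]
    rfl
  · intro η m hη hm j hj
    have h1 := hg.rest _ _ (hdig η m hη) (hsp η m hη hm) j hj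
    rw [app_inv] at h1
    exact h1.symm

/-- fixing a ray with a special letter -/
theorem Desc.fix {g : Perm R} {v : Z4} (hg : Desc g 1 v 0) (η : R) (m : ℕ) (hη : IsDig η m)
    (hm : 16 ≤ (η m : ℕ)) (hv : Cg m v 0) : g η = η := by
  have h1 := hg.vl η m hη
  rw [ac_one] at h1
  have h2 := (h1.trans ((Cg.refl m (val η m)).add hv))
  rw [add_zero] at h2
  have h3 := eq_of_cg (hg.dig _ _ hη) hη h2
  funext j
  rcases lt_trichotomy j m with h | h | h
  · exact h3 j h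
  · subst h
    exact Fin.ext (hg.flip η j hη hm)
  · exact hg.rest η m hη hm j h

/-- fixing a ray of digits -/
theorem Desc.fix_dig {g : Perm R} {e : ZMod 2} (hg : Desc g 1 0 e) (η : R)
    (hη : ∀ j, (η j : ℕ) < 16) : g η = η := by
  funext j
  have h0 : IsDig η (j + 1) := fun i _ => hη i
  have h1 := hg.vl η (j + 1) h0
  rw [ac_one, add_zero] at h1
  exact eq_of_cg (hg.dig _ _ h0) h0 h1 j (by omega)

theorem Desc.eq_one {g : Perm R} (hg : Desc g 1 0 0) : g = 1 := by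
  ext η : 1
  rw [Perm.one_apply]
  by_cases h : ∀ j, (η j : ℕ) < 16
  · exact hg.fix_dig η h
  · push Not at h
    classical
    have h1 := Nat.find_spec h
    have h2 := fun j => Nat.find_min h (m := j)
    refine hg.fix η (Nat.find h) ?_ h1 (Cg.refl _ _)
    intro j hj
    have := h2 j hj
    omega

/-- coordinates independent -/
def Gen (ξ : R) : Prop := (∀ j, (ξ j : ℕ) < 16) ∧ ∀ (c : Z4 →ₗ[ℤ] ℤ) (c0 : ℤ),
  (∀ m : ℕ, (2 ^ m : ℤ) ∣ c0 + c (val ξ m)) → c = 0 ∧ c0 = 0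

/-- the linear map of a pair -/
def acL (M : GG) : Z4 →ₗ[ℤ] Z4 where
  toFun := ac M
  map_add' := ac_add M
  map_smul' := ac_smul M

theorem Gen.eq {ξ : R} (h : Gen ξ) {g : Perm R} {M : GG} {v : Z4} {e : ZMod 2}
    (hg : Desc g M v e) (hfix : g ξ = ξ) : M = 1 ∧ v = 0 := by
  obtain ⟨h1, h2⟩ := h
  have key : ∀ p : Z4 →ₗ[ℤ] ℤ, p.comp (acL M - LinearMap.id) = 0 ∧ p v = 0 := by
    intro p
    apply h2
    intro m
    have h3 := hg.vl ξ m (fun j _ => h1 j)
    rw [hfix] at h3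
    obtain ⟨w, hw⟩ := h3
    refine ⟨- p w, ?_⟩
    have h4 := congrArg p hw
    simp only [map_add, map_smul, smul_eq_mul] at h4
    simp only [LinearMap.comp_apply, LinearMap.sub_apply, LinearMap.id_apply, map_sub]
    have h5 : p (acL M (val ξ m)) = p (ac M (val ξ m)) := rfl
    rw [h5]
    linarith
  have k1 := key (LinearMap.fst ℤ ℤ ℤ ∘ₗ LinearMap.fst ℤ (ℤ × ℤ) (ℤ × ℤ))
  have k2 := key (LinearMap.snd ℤ ℤ ℤ ∘ₗ LinearMap.fst ℤ (ℤ × ℤ) (ℤ × ℤ))
  have k3 := key (LinearMap.fst ℤ ℤ ℤ ∘ₗ LinearMap.snd ℤ (ℤ × ℤ) (ℤ × ℤ))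
  have k4 := key (LinearMap.snd ℤ ℤ ℤ ∘ₗ LinearMap.snd ℤ (ℤ × ℤ) (ℤ × ℤ))
  constructor
  · have hac : ∀ z, ac M z = z := by
      intro z
      have e1 := DFunLike.congr_fun k1.1 z
      have e2 := DFunLike.congr_fun k2.1 z
      have e3 := DFunLike.congr_fun k3.1 z
      have e4 := DFunLike.congr_fun k4.1 z
      simp only [LinearMap.comp_apply, LinearMap.sub_apply, LinearMap.id_apply,
        LinearMap.zero_apply, LinearMap.fst_apply, LinearMap.snd_apply, Prod.fst_sub,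
        Prod.snd_sub, sub_eq_zero] at e1 e2 e3 e4
      exact Prod.ext (Prod.ext e1 e2) (Prod.ext e3 e4)
    refine Prod.ext ?_ ?_
    · apply LinearEquiv.ext
      intro p
      have := congrArg Prod.fst (hac (p, 0))
      exact this
    · apply LinearEquiv.ext
      intro p
      have := congrArg Prod.snd (hac (0, p))
      exact this
  · exact Prod.ext (Prod.ext k1.2 k2.2) (Prod.ext k3.2 k4.2)

/-! ### A generic ray -/

/-- the digits: a single bit at the positions `2 ^ n` -/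
def xiN (m : ℕ) : ℕ := if 2 ^ Nat.log 2 m = m then 2 ^ (Nat.log 2 m % 4) else 0

theorem xiN_lt (m : ℕ) : xiN m < 16 := by
  unfold xiN
  split_ifs
  · have : Nat.log 2 m % 4 < 4 := Nat.mod_lt _ (by norm_num)
    interval_cases (Nat.log 2 m % 4) <;> norm_num
  · norm_num

/-- the ray -/
def xi (m : ℕ) : Fin 18 := ⟨xiN m, (xiN_lt m).trans (by norm_num)⟩

theorem xi_lt (m : ℕ) : (xi m : ℕ) < 16 := xiN_lt m

theorem xi_pow (n : ℕ) : (xi (2 ^ n) : ℕ) = 2 ^ (n % 4) := by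
  change xiN (2 ^ n) = _
  unfold xiN
  rw [Nat.log_pow (by norm_num), if_pos rfl]

theorem xi_between (n m : ℕ) (h1 : 2 ^ n < m) (h2 : m < 2 ^ (n + 1)) : (xi m : ℕ) = 0 := by
  change xiN m = _
  unfold xiN
  have h3 : Nat.log 2 m = n := Nat.log_eq_of_pow_le_of_lt_pow h1.le h2
  rw [h3, if_neg h1.ne]

theorem dz_zero : dz 0 = 0 := rfl

theorem val_between (n m : ℕ) (h1 : 2 ^ n < m) (h2 : m ≤ 2 ^ (n + 1)) :
    val xi m = val xi (2 ^ n + 1) := by
  induction m, h1 using Nat.le_induction with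
  | base => rfl
  | succ m hm ih =>
    rw [val, ih (by omega), xi_between n m hm (by omega), dz_zero, smul_zero, add_zero]

/-- bound of a functional -/
theorem bound (c : Z4 →ₗ[ℤ] ℤ) : ∃ C : ℤ, 0 ≤ C ∧ ∀ x : ℕ, |c (dz x)| ≤ C := by
  have hfin : (Set.range (fun x : ℕ => c (dz x))).Finite := by
    refine (Set.finite_range (fun x : Fin 16 => c (dz x))).subset ?_
    rintro _ ⟨x, rfl⟩
    refine ⟨⟨x % 16, Nat.mod_lt _ (by norm_num)⟩, ?_⟩
    simp only
    congr 1
    simp only [dz, Prod.mk.injEq]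
    omega
  obtain ⟨C, hC⟩ := (hfin.image (fun z => |z|)).bddAbove
  refine ⟨max C 0, le_max_right _ _, fun x => le_trans (hC ?_) (le_max_left _ _)⟩
  exact ⟨_, ⟨x, rfl⟩, rfl⟩

theorem gen_xi : Gen xi := by
  refine ⟨xi_lt, ?_⟩
  intro c c0 h
  obtain ⟨C, hC0, hC⟩ := bound c
  let D : ℤ := |c0| + C
  have hD0 : 0 ≤ D := by positivity
  have hb : ∀ m : ℕ, |c0 + c (val xi m)| ≤ D * 2 ^ m := by
    intro m
    induction m with
    | zero =>
      simp only [val, map_zero, add_zero, pow_zero, mul_one]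
      exact le_add_of_nonneg_right hC0
    | succ m ih =>
      rw [val, map_add, map_smul, smul_eq_mul, ← add_assoc, pow_succ]
      refine (abs_add_le _ _).trans ?_
      rw [abs_mul, abs_of_nonneg (by positivity : (0 : ℤ) ≤ 2 ^ m)]
      have h1 : (2 : ℤ) ^ m * |c (dz (xi m))| ≤ 2 ^ m * D :=
        mul_le_mul_of_nonneg_left ((hC _).trans (le_add_of_nonneg_left (abs_nonneg _)))
          (by positivity)
      linarith
  -- eventually zero
  obtain ⟨n0, hn0⟩ : ∃ n0 : ℕ, D < 2 ^ n0 := by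
    obtain ⟨n, hn⟩ := pow_unbounded_of_one_lt D (by norm_num : (1 : ℤ) < 2)
    exact ⟨n, hn⟩
  have hz : ∀ n : ℕ, n0 + 1 ≤ n → c0 + c (val xi (2 ^ (n + 1))) = 0 := by
    intro n hn
    have h1 := h (2 ^ (n + 1))
    have h2 := hb (2 ^ n + 1)
    have h3 : val xi (2 ^ (n + 1)) = val xi (2 ^ n + 1) :=
      val_between n _ (Nat.pow_lt_pow_right (by norm_num) (by omega)) le_rfl
    rw [h3] at h1 ⊢
    apply Int.eq_zero_of_abs_lt_dvd h1
    refine lt_of_le_of_lt h2 ?_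
    have h4 : n0 + (2 ^ n + 1) ≤ 2 ^ (n + 1) := by
      have : n < 2 ^ n := Nat.lt_two_pow_self
      rw [pow_succ]
      omega
    calc D * 2 ^ (2 ^ n + 1) < 2 ^ n0 * 2 ^ (2 ^ n + 1) :=
          mul_lt_mul_of_pos_right hn0 (by positivity)
      _ = 2 ^ (n0 + (2 ^ n + 1)) := (pow_add _ _ _).symm
      _ ≤ 2 ^ (2 ^ (n + 1)) := pow_le_pow_right₀ (by norm_num) h4
  have hk : ∀ k < 4, c (dz (2 ^ k)) = 0 := by
    intro k hk
    obtain ⟨n, hn, hnk⟩ : ∃ n, n0 + 2 ≤ n ∧ n % 4 = k := ⟨4 * (n0 + 2) + k, by omega, by omega⟩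
    obtain ⟨n, rfl⟩ : ∃ n', n = n' + 1 := ⟨n - 1, by omega⟩
    have h1 := hz n (by omega)
    have h2 := hz (n + 1) (by omega)
    rw [val_between (n + 1) _ (Nat.pow_lt_pow_right (by norm_num) (by omega)) le_rfl, val,
      map_add, map_smul, ← add_assoc, h1, zero_add, xi_pow, hnk, smul_eq_mul] at h2
    rcases mul_eq_zero.1 h2 with h3 | h3
    · exact absurd h3 (by positivity)
    · exact h3
  have hc : c = 0 := by
    have d0 : dz (2 ^ 0) = ((1, 0), (0, 0)) := rfl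
    have d1 : dz (2 ^ 1) = ((0, 1), (0, 0)) := rfl
    have d2 : dz (2 ^ 2) = ((0, 0), (1, 0)) := rfl
    have d3 : dz (2 ^ 3) = ((0, 0), (0, 1)) := rfl
    have k0 := hk 0 (by norm_num)
    have k1 := hk 1 (by norm_num)
    have k2 := hk 2 (by norm_num)
    have k3 := hk 3 (by norm_num)
    rw [d0] at k0
    rw [d1] at k1
    rw [d2] at k2
    rw [d3] at k3
    apply LinearMap.ext
    rintro ⟨⟨p, q⟩, ⟨r, s⟩⟩
    have e : (((p, q), (r, s)) : Z4) = p • ((1, 0), (0, 0)) + q • ((0, 1), (0, 0)) +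
        r • ((0, 0), (1, 0)) + s • ((0, 0), (0, 1)) := by
      simp
    rw [e]
    simp only [map_add, map_smul, k0, k1, k2, k3, LinearMap.zero_apply, smul_zero, add_zero]
  refine ⟨hc, ?_⟩
  have := hz (n0 + 1) le_rfl
  rw [hc] at this
  simpa using this

end Pool.Agent.Helper599.Ray
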