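import Mathlib
import Pool.Agent.Helper599.Ray

set_option autoImplicit false

namespace Pool.Agent.Helper599.Ray

open Equiv Pool.Agent.Helper599.PP

/-- natural matrices, also pairs of pairs of numbers -/
abbrev NM : Type := (ℕ × ℕ) × (ℕ × ℕ)

/-- application of a matrix -/
def ap (A : NM) (p : ℤ × ℤ) : ℤ × ℤ := (A.1.1 * p.1 + A.1.2 * p.2, A.2.1 * p.1 + A.2.2 * p.2)

/-- code of a state -/
def code (K i : ℕ) (v : NM) : ℕ := v.1.1 + K * (v.1.2 + K * (v.2.1 + K * (v.2.2 + K * i)))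

/-- index of a state -/
def idx (K s : ℕ) : ℕ := s / K / K / K / K

/-- vector of a state -/
def vec (K s : ℕ) : NM := ((s % K, s / K % K), (s / K / K % K, s / K / K / K % K))

/-- digits of a letter -/
def dg (x : ℕ) : NM := ((x % 2, x / 2 % 2), (x / 4 % 2, x / 8 % 2))

/-- new vector -/
def nv (A : NM × NM) (z v : NM) : NM :=
  ((A.1.1.1 * z.1.1 + A.1.1.2 * z.1.2 + v.1.1, A.1.2.1 * z.1.1 + A.1.2.2 * z.1.2 + v.1.2),
    (A.2.1.1 * z.2.1 + A.2.1.2 * z.2.2 + v.2.1, A.2.2.1 * z.2.1 + A.2.2.2 * z.2.2 + v.2.2))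

/-- half of a vector -/
def hf (u : NM) : NM := ((u.1.1 / 2, u.1.2 / 2), (u.2.1 / 2, u.2.2 / 2))

/-- letter with the parities of a vector -/
def lt (u : NM) : ℕ := u.1.1 % 2 + 2 * (u.1.2 % 2) + 4 * (u.2.1 % 2) + 8 * (u.2.2 % 2)

/-- next state -/
def nx (K i0 : ℕ) (mt : ℕ → NM × NM) (s x : ℕ) : ℕ :=
  if x < 16 then code K (idx K s) (hf (nv (mt (idx K s)) (dg x) (vec K s)))
  else code K i0 ((0, 0), (0, 0))

/-- output -/
def ot (K ig : ℕ) (mt : ℕ → NM × NM) (s x : ℕ) : ℕ :=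
  if x < 16 then lt (nv (mt (idx K s)) (dg x) (vec K s))
  else if idx K s = ig then 33 - x else x

/-- The table. -/
def table (K L ig i0 : ℕ) (mt : ℕ → NM × NM) : List (List (ℕ × ℕ)) :=
  (List.range (L * K ^ 4)).map fun s => (List.range 18).map fun x =>
    (nx K i0 mt s x, ot K ig mt s x)

/-- bounded vectors -/
def Bd (K : ℕ) (v : NM) : Prop := (v.1.1 < K ∧ v.1.2 < K) ∧ (v.2.1 < K ∧ v.2.2 < K)

/-- as integers -/
def tz (v : NM) : Z4 := ((v.1.1, v.1.2), (v.2.1, v.2.2))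

theorem idx_code {K i : ℕ} {v : NM} (h : Bd K v) : idx K (code K i v) = i := by
  obtain ⟨⟨a, b⟩, ⟨c, d⟩⟩ := v
  obtain ⟨⟨h1, h2⟩, ⟨h3, h4⟩⟩ := h
  simp only at h1 h2 h3 h4
  have hK : 0 < K := by omega
  simp only [idx, code]
  rw [Nat.add_mul_div_left _ _ hK, Nat.div_eq_of_lt h1, zero_add,
    Nat.add_mul_div_left _ _ hK, Nat.div_eq_of_lt h2, zero_add,
    Nat.add_mul_div_left _ _ hK, Nat.div_eq_of_lt h3, zero_add,
    Nat.add_mul_div_left _ _ hK, Nat.div_eq_of_lt h4, zero_add]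

theorem vec_code {K i : ℕ} {v : NM} (h : Bd K v) : vec K (code K i v) = v := by
  obtain ⟨⟨a, b⟩, ⟨c, d⟩⟩ := v
  obtain ⟨⟨h1, h2⟩, ⟨h3, h4⟩⟩ := h
  simp only at h1 h2 h3 h4
  have hK : 0 < K := by omega
  simp only [vec, code]
  rw [Nat.add_mul_mod_self_left, Nat.mod_eq_of_lt h1,
    Nat.add_mul_div_left _ _ hK, Nat.div_eq_of_lt h1, zero_add,
    Nat.add_mul_mod_self_left, Nat.mod_eq_of_lt h2,
    Nat.add_mul_div_left _ _ hK, Nat.div_eq_of_lt h2, zero_add,
    Nat.add_mul_mod_self_left, Nat.mod_eq_of_lt h3,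
    Nat.add_mul_div_left _ _ hK, Nat.div_eq_of_lt h3, zero_add,
    Nat.add_mul_mod_self_left, Nat.mod_eq_of_lt h4]

theorem code_idx_vec (K s : ℕ) : code K (idx K s) (vec K s) = s := by
  simp only [code, idx, vec]
  rw [Nat.mod_add_div, Nat.mod_add_div, Nat.mod_add_div, Nat.mod_add_div]

theorem bd_vec {K : ℕ} (hK : 0 < K) (s : ℕ) : Bd K (vec K s) :=
  ⟨⟨Nat.mod_lt _ hK, Nat.mod_lt _ hK⟩, ⟨Nat.mod_lt _ hK, Nat.mod_lt _ hK⟩⟩

theorem code_lt {K i L : ℕ} {v : NM} (h : Bd K v) (hi : i < L) : code K i v < L * K ^ 4 := by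
  obtain ⟨⟨a, b⟩, ⟨c, d⟩⟩ := v
  obtain ⟨⟨h1, h2⟩, ⟨h3, h4⟩⟩ := h
  simp only at h1 h2 h3 h4
  simp only [code]
  have e1 : ∀ a b c : ℕ, a < K → b < c → a + K * b < K * c := by
    intro a b c h1 h2
    have : K * (b + 1) ≤ K * c := Nat.mul_le_mul_left K h2
    rw [Nat.mul_add] at this
    omega
  have := e1 _ _ _ h1 (e1 _ _ _ h2 (e1 _ _ _ h3 (e1 _ _ _ h4 hi)))
  calc _ < K * (K * (K * (K * L))) := this
    _ = _ := by ring

theorem idx_lt {K s L : ℕ} (h : s < L * K ^ 4) : idx K s < L := by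
  unfold idx
  rw [Nat.div_div_eq_div_mul, Nat.div_div_eq_div_mul, Nat.div_div_eq_div_mul]
  apply Nat.div_lt_of_lt_mul
  calc s < _ := h
    _ = _ := by ring

/-- data for the table -/
structure Data where
  K : ℕ
  L : ℕ
  ig : ℕ
  i0 : ℕ
  mt : ℕ → NM × NM
  MM : ℕ → GG
  hK : 2 ≤ K
  hi0 : i0 < L
  hig : ig < L
  hne : i0 ≠ ig
  mt0 : mt i0 = (((1, 0), (0, 1)), ((1, 0), (0, 1)))
  h1 : ∀ i < L, ∀ p, ap (mt i).1 p = (MM i).1 p
  h2 : ∀ i < L, ∀ p, ap (mt i).2 p = (MM i).2 p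
  hs : ∀ i < L, (mt i).1.1.1 + (mt i).1.1.2 ≤ K ∧ (mt i).1.2.1 + (mt i).1.2.2 ≤ K ∧
    (mt i).2.1.1 + (mt i).2.1.2 ≤ K ∧ (mt i).2.2.1 + (mt i).2.2.2 ≤ K

namespace Data

variable (D : Data)

theorem tz_dg (x : ℕ) : tz (dg x) = dz x := rfl

theorem tz_nv (i : ℕ) (hi : i < D.L) (z v : NM) :
    tz (nv (D.mt i) z v) = ac (D.MM i) (tz z) + tz v := by
  have k1 := D.h1 i hi (z.1.1, z.1.2)
  have k2 := D.h2 i hi (z.2.1, z.2.2)
  simp only [ac, tz]
  rw [← k1, ← k2]
  simp only [ap, nv, Prod.mk_add_mk]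
  push_cast
  rfl

theorem tz_split (u : NM) : tz u = dz (lt u) + (2 : ℤ) • tz (hf u) := by
  obtain ⟨⟨a, b⟩, ⟨c, d⟩⟩ := u
  simp only [tz, dz, lt, hf, Prod.smul_mk, Prod.mk_add_mk, Prod.mk.injEq, smul_eq_mul]
  omega

theorem lt_lt (u : NM) : lt u < 16 := by
  simp only [lt]; omega

theorem bd_hf (i : ℕ) (hi : i < D.L) (x : ℕ) (v : NM) (hv : Bd D.K v) :
    Bd D.K (hf (nv (D.mt i) (dg x) v)) := by
  obtain ⟨a1, a2, a3, a4⟩ := D.hs i hi
  obtain ⟨⟨b1, b2⟩, ⟨b3, b4⟩⟩ := hv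
  have hK := D.hK
  have e : ∀ a b y z w K : ℕ, a + b ≤ K → w < K → (a * (y % 2) + b * (z % 2) + w) / 2 < K := by
    intro a b y z w K h1 h2
    have k1 : a * (y % 2) ≤ a * 1 := Nat.mul_le_mul_left a (by omega)
    have k2 : b * (z % 2) ≤ b * 1 := Nat.mul_le_mul_left b (by omega)
    omega
  simp only [Bd, hf, nv, dg]
  refine ⟨⟨?_, ?_⟩, ⟨?_, ?_⟩⟩
  · have := e _ _ x (x / 2) _ _ a1 b1
    simpa using this
  · exact e _ _ x (x / 2) _ _ a2 b2
  · exact e _ _ (x / 4) (x / 8) _ _ a3 b3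
  · exact e _ _ (x / 4) (x / 8) _ _ a4 b4

theorem bd_zero : Bd D.K ((0, 0), (0, 0)) := by
  have := D.hK
  simp only [Bd]; omega

/-- The transition. -/
def N (s x : ℕ) : ℕ := nx D.K D.i0 D.mt s x

/-- The output. -/
def O (s x : ℕ) : ℕ := ot D.K D.ig D.mt s x

/-- number of states -/
def n : ℕ := D.L * D.K ^ 4

theorem N_lt {s : ℕ} (hs : s < D.n) (x : ℕ) : D.N s x < D.n := by
  unfold N nx
  have hK := D.hK
  split_ifs with h
  · exact code_lt (D.bd_hf _ (idx_lt hs) x _ (bd_vec (by omega) s)) (idx_lt hs)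
  · exact code_lt D.bd_zero D.hi0

theorem O_lt (s x : ℕ) (hx : x < 18) : D.O s x < 18 := by
  unfold O ot
  split_ifs with h h1
  · have := lt_lt (nv (D.mt (idx D.K s)) (dg x) (vec D.K s)); omega
  · omega
  · omega

theorem O_inj {s : ℕ} (hs : s < D.n) {x y : ℕ} (hx : x < 18) (hy : y < 18)
    (h : D.O s x = D.O s y) : x = y := by
  have key : ∀ x y, x < 16 → y < 16 → D.O s x = D.O s y → x = y := by
    intro x y hx hy h
    unfold O ot at h
    rw [if_pos hx, if_pos hy] at h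
    have e1 := D.tz_nv (idx D.K s) (idx_lt hs) (dg x) (vec D.K s)
    have e2 := D.tz_nv (idx D.K s) (idx_lt hs) (dg y) (vec D.K s)
    rw [tz_split, h] at e1
    rw [tz_split] at e2
    set w1 := tz (hf (nv (D.mt (idx D.K s)) (dg x) (vec D.K s)))
    set w2 := tz (hf (nv (D.mt (idx D.K s)) (dg y) (vec D.K s)))
    set M := D.MM (idx D.K s)
    have e3 : ac M (tz (dg x)) = ac M (tz (dg y)) + (2 : ℤ) • (w1 - w2) := by
      rw [smul_sub]
      have : (2 : ℤ) • w1 - (2 : ℤ) • w2 = ac M (tz (dg x)) - ac M (tz (dg y)) := by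
        have h1 := sub_eq_sub_iff_add_eq_add.2 (show
          dz (lt (nv (D.mt (idx D.K s)) (dg y) (vec D.K s))) + (2 : ℤ) • w1 +
            (ac M (tz (dg y)) + tz (vec D.K s)) =
          (ac M (tz (dg x)) + tz (vec D.K s)) +
            (dz (lt (nv (D.mt (idx D.K s)) (dg y) (vec D.K s))) + (2 : ℤ) • w2) by
              rw [e1, e2])
        calc _ = (dz (lt (nv (D.mt (idx D.K s)) (dg y) (vec D.K s))) + (2 : ℤ) • w1) -
              (dz (lt (nv (D.mt (idx D.K s)) (dg y) (vec D.K s))) + (2 : ℤ) • w2) := by abel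
          _ = (ac M (tz (dg x)) + tz (vec D.K s)) - (ac M (tz (dg y)) + tz (vec D.K s)) := by
              rw [e1, e2]
          _ = _ := by abel
      rw [this]
      abel
    have e4 := congrArg (ac M⁻¹) e3
    rw [ac_add, ac_smul, ac_inv_ac, ac_inv_ac] at e4
    exact dz_inj hx hy _ e4
  by_cases h1 : x < 16 <;> by_cases h2 : y < 16
  · exact key x y h1 h2 h
  · exfalso
    unfold O ot at h
    rw [if_pos h1, if_neg h2] at h
    have := lt_lt (nv (D.mt (idx D.K s)) (dg x) (vec D.K s))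
    split_ifs at h <;> omega
  · exfalso
    unfold O ot at h
    rw [if_pos h2, if_neg h1] at h
    have := lt_lt (nv (D.mt (idx D.K s)) (dg y) (vec D.K s))
    split_ifs at h <;> omega
  · unfold O ot at h
    rw [if_neg h1, if_neg h2] at h
    split_ifs at h <;> omega

/-- the table of the data -/
def T : List (List (ℕ × ℕ)) := table D.K D.L D.ig D.i0 D.mt

theorem T_valid : D.T.length = D.n ∧ ∀ row ∈ D.T, row.length = 18 ∧ (row.map Prod.snd).Nodup ∧
    ∀ e ∈ row, e.1 < D.n ∧ e.2 < 18 := by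
  constructor
  · simp [T, table, n]
  · intro row hrow
    simp only [T, table, List.mem_map, List.mem_range] at hrow
    obtain ⟨s, hs, rfl⟩ := hrow
    refine ⟨by simp, ?_, ?_⟩
    · rw [List.map_map]
      refine List.Nodup.map_on ?_ List.nodup_range
      intro x hx y hy h
      rw [List.mem_range] at hx hy
      exact D.O_inj hs hx hy h
    · intro e he
      simp only [List.mem_map, List.mem_range] at he
      obtain ⟨x, hx, rfl⟩ := he
      exact ⟨D.N_lt hs x, D.O_lt s x hx⟩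

theorem T_getD {s x : ℕ} (hs : s < D.n) (hx : x < 18) :
    (D.T.getD s []).getD x (0, 0) = (D.N s x, D.O s x) := by
  unfold T table
  have hs : s < D.L * D.K ^ 4 := hs
  have e1 : (List.map (fun s => List.map (fun x => (nx D.K D.i0 D.mt s x, ot D.K D.ig D.mt s x))
      (List.range 18)) (List.range (D.L * D.K ^ 4))).getD s [] =
      List.map (fun x => (nx D.K D.i0 D.mt s x, ot D.K D.ig D.mt s x)) (List.range 18) := by
    rw [List.getD_eq_getElem _ _ (by simpa using hs), List.getElem_map, List.getElem_range]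
  rw [e1, List.getD_eq_getElem _ _ (by simpa using hx), List.getElem_map, List.getElem_range]
  rfl

/-- the states along a ray -/
def stt (q : ℕ) (η : R) : ℕ → ℕ
  | 0 => q
  | i + 1 => D.N (stt q η i) (η i)

theorem stt_lt {q : ℕ} (hq : q < D.n) (η : R) (i : ℕ) : D.stt q η i < D.n := by
  induction i with
  | zero => exact hq
  | succ i ih => exact D.N_lt ih _

theorem fold_eq {q : ℕ} (hq : q < D.n) (η : R) (i : ℕ) :
    (List.ofFn (fun j : Fin i => (η j : ℕ))).foldl
      (fun s x => ((D.T.getD s []).getD x (0, 0)).1) q = D.stt q η i := by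
  induction i with
  | zero => rfl
  | succ i ih =>
    rw [List.ofFn_succ_last, List.foldl_append]
    have e : (List.ofFn (fun j : Fin i => ((η (j.castSucc : Fin (i + 1)) : Fin 18) : ℕ))) =
        List.ofFn (fun j : Fin i => (η j : ℕ)) := rfl
    rw [e, ih]
    simp only [List.foldl_cons, List.foldl_nil, Fin.val_last]
    rw [D.T_getD (D.stt_lt hq η i) (η i).2]
    rfl

/-- the permutation `σ` is the one of the state `q` -/
def Is (q : ℕ) (σ : Perm R) : Prop := ∀ (η : R) (i : ℕ), ((σ η i : Fin 18) : ℕ) = D.O (D.stt q η i) (η i)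

theorem is_iff {q : ℕ} (hq : q < D.n) (σ : Perm R) : (∀ (η : ℕ → Fin 18) (i : ℕ),
    ((σ η i : Fin 18) : ℕ) =
      ((D.T.getD ((List.ofFn (fun j : Fin i => (η j : ℕ))).foldl
        (fun s x => ((D.T.getD s []).getD x (0, 0)).1) q) []).getD (η i : ℕ) (0, 0)).2) ↔
    D.Is q σ := by
  unfold Is
  refine forall_congr' fun η => forall_congr' fun i => ?_
  rw [D.fold_eq hq, D.T_getD (D.stt_lt hq η i) (η i).2]

/-- outputs as permutations -/
noncomputable def oP (s : ℕ) : Perm (Fin 18) :=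
  if hs : s < D.n then Equiv.ofBijective (fun x : Fin 18 => (⟨D.O s x, D.O_lt s x x.2⟩ : Fin 18))
    (Finite.injective_iff_bijective.1 (fun x y h => by
      apply Fin.ext
      exact D.O_inj hs x.2 y.2 (by simpa using h))) else 1

theorem oP_apply {s : ℕ} (hs : s < D.n) (x : Fin 18) : ((D.oP s x : Fin 18) : ℕ) = D.O s x := by
  unfold oP
  rw [dif_pos hs]
  rfl

/-- states along the inverse image -/
noncomputable def istt (q : ℕ) (ζ : R) : ℕ → ℕ
  | 0 => q
  | i + 1 => D.N (istt q ζ i) ((D.oP (istt q ζ i)).symm (ζ i))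

/-- the permutation of a state -/
noncomputable def sP (q : ℕ) : Perm R where
  toFun η := fun i => D.oP (D.stt q η i) (η i)
  invFun ζ := fun i => (D.oP (D.istt q ζ i)).symm (ζ i)
  left_inv η := by
    have h : ∀ i, D.istt q (fun i => D.oP (D.stt q η i) (η i)) i = D.stt q η i := by
      intro i
      induction i with
      | zero => rfl
      | succ i ih => rw [istt, ih, stt, Equiv.symm_apply_apply]
    funext i
    simp only [h, Equiv.symm_apply_apply]
  right_inv ζ := by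
    have h : ∀ i, D.stt q (fun i => (D.oP (D.istt q ζ i)).symm (ζ i)) i = D.istt q ζ i := by
      intro i
      induction i with
      | zero => rfl
      | succ i ih => rw [stt, ih, istt]
    funext i
    simp only [h, Equiv.apply_symm_apply]

theorem is_sP {q : ℕ} (hq : q < D.n) : D.Is q (D.sP q) := by
  intro η i
  exact D.oP_apply (D.stt_lt hq η i) _

/-- weight of an index -/
def wi (i : ℕ) : ZMod 2 := if i = D.ig then 1 else 0

theorem run_dig {i : ℕ} (hi : i < D.L) {v : NM} (hv : Bd D.K v) {σ : Perm R}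
    (hσ : D.Is (code D.K i v) σ) (η : R) (m : ℕ) (hη : IsDig η m) :
    ∃ w, Bd D.K w ∧ D.stt (code D.K i v) η m = code D.K i w ∧ IsDig (σ η) m ∧
      val (σ η) m + (2 ^ m : ℤ) • tz w = ac (D.MM i) (val η m) + tz v := by
  induction m with
  | zero => exact ⟨v, hv, rfl, fun j hj => by omega, by simp [val, ac_zero]⟩
  | succ m ih =>
    obtain ⟨w, h1, h2, h3, h4⟩ := ih (hη.mono (Nat.le_succ m))
    have h5 := hη m (by omega)
    have h6 := hσ η m
    rw [h2] at h6
    unfold O ot at h6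
    rw [if_pos h5, idx_code h1, vec_code h1] at h6
    set u := nv (D.mt i) (dg (η m)) w with hu
    refine ⟨hf u, D.bd_hf i hi _ _ h1, ?_, ?_, ?_⟩
    · rw [stt, h2]
      unfold N nx
      rw [if_pos h5, idx_code h1, vec_code h1]
    · intro j hj
      rcases Nat.lt_succ_iff_lt_or_eq.1 hj with h | h
      · exact h3 j h
      · subst h
        rw [h6]
        exact lt_lt u
    · have h7 := tz_split u
      have h8 := D.tz_nv i hi (dg (η m)) w
      rw [← hu] at h8
      rw [val, val, ac_add, ac_smul, h6, pow_succ, mul_smul, add_assoc, ← smul_add, ← h7, h8,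
        smul_add, tz_dg]
      rw [add_comm ((2 ^ m : ℤ) • ac (D.MM i) (dz (η m))), ← add_assoc, h4]
      abel

theorem run_id {q : ℕ} (η : R) (m : ℕ)
    (h : D.stt q η m = code D.K D.i0 ((0, 0), (0, 0))) (j : ℕ) (hj : m ≤ j) :
    D.stt q η j = code D.K D.i0 ((0, 0), (0, 0)) := by
  induction j, hj using Nat.le_induction with
  | base => exact h
  | succ j hj ih =>
    rw [stt, ih]
    unfold N nx
    split_ifs with h1
    · rw [idx_code D.bd_zero, vec_code D.bd_zero, D.mt0]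
      have e : hf (nv (((1, 0), (0, 1)), ((1, 0), (0, 1))) (dg (η j)) ((0, 0), (0, 0))) =
          ((0, 0), (0, 0)) := by
        simp only [hf, nv, dg, Prod.mk.injEq]
        omega
      rw [e]
    · rfl

theorem out_id (x : ℕ) : D.O (code D.K D.i0 ((0, 0), (0, 0))) x = x ∨ 18 ≤ x := by
  unfold O ot
  rw [idx_code D.bd_zero, vec_code D.bd_zero, D.mt0, if_neg D.hne]
  split_ifs with h1
  · left
    simp only [lt, nv, dg]
    omega
  · left; rfl

theorem desc {i : ℕ} (hi : i < D.L) {v : NM} (hv : Bd D.K v) {σ : Perm R}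
    (hσ : D.Is (code D.K i v) σ) : Desc σ (D.MM i) (tz v) (D.wi i) where
  dig η m hη := by
    obtain ⟨w, _, _, h, _⟩ := D.run_dig hi hv hσ η m hη
    exact h
  vl η m hη := by
    obtain ⟨w, _, _, _, h⟩ := D.run_dig hi hv hσ η m hη
    refine ⟨- tz w, ?_⟩
    rw [← h, smul_neg]
    abel
  flip η m hη hm := by
    obtain ⟨w, h1, h2, _, _⟩ := D.run_dig hi hv hσ η m hη
    rw [hσ η m, h2]
    unfold O ot wi fl
    rw [if_neg (by omega), idx_code h1]
    split_ifs with h3 h4 h5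
    · exact absurd h4 (by decide)
    · rfl
    · rfl
    · exact absurd rfl h5
  rest η m hη hm j hj := by
    obtain ⟨w, h1, h2, _, _⟩ := D.run_dig hi hv hσ η m hη
    have h3 : D.stt (code D.K i v) η (m + 1) = code D.K D.i0 ((0, 0), (0, 0)) := by
      rw [stt]
      unfold N nx
      rw [if_neg (by omega)]
    have h4 := D.run_id η (m + 1) h3 j hj
    apply Fin.ext
    rw [hσ η j, h4]
    rcases D.out_id (η j) with h | h
    · exact h
    · have := (η j).2; omega

end Data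

end Pool.Agent.Helper599.Ray
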