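import Mathlib
import Pool.Agent.Helper599.Tab
import Pool.Agent.Helper599.Pairs2

set_option autoImplicit false

namespace Pool.Agent.Helper599.Asm

open Equiv Pool.Agent.Helper599 Pool.Agent.Helper599.PP Pool.Agent.Helper599.Ray
open Pool.Agent.Helper599.Mod Pool.Agent.Helper599.Core

/-- multiplication by a base matrix -/
def st (c : ℕ) (A : NM) : NM :=
  ((c * A.1.1 + (c ^ 2 - 1) * A.2.1, c * A.1.2 + (c ^ 2 - 1) * A.2.2),
    (A.1.1 + c * A.2.1, A.1.2 + c * A.2.2))

theorem ap_st (c : ℕ) (hc : 1 ≤ c) (A : NM) (p : ℤ × ℤ) : ap (st c A) p = Au c (ap A p) := by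
  have h : ((c ^ 2 - 1 : ℕ) : ℤ) = (c : ℤ) ^ 2 - 1 := by
    rw [Nat.cast_sub (Nat.one_le_pow _ _ hc)]; push_cast; rfl
  simp only [ap, st, Au_apply, Prod.mk.injEq]
  push_cast [h]
  constructor <;> ring

/-- matrix of a word -/
def nmw (w : List ℕ) : NM := w.foldr st ((1, 0), (0, 1))

theorem ap_nmw (w : List ℕ) (hw : ∀ c ∈ w, 1 ≤ c) (p : ℤ × ℤ) :
    ap (nmw w) p = (w.map (fun c : ℕ => Au c)).prod p := by
  induction w with
  | nil => simp [nmw, ap]
  | cons c w ih =>
    have h1 := ih (fun c hc => hw c (List.mem_cons_of_mem _ hc))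
    change ap (st c (nmw w)) p = _
    rw [ap_st c (hw c List.mem_cons_self), h1, List.map_cons, List.prod_cons]
    rfl

theorem nmw_replicate (N c : ℕ) (w : List ℕ) :
    nmw (List.replicate N c ++ w) = (st c)^[N] (nmw w) := by
  induction N with
  | zero => rfl
  | succ N ih =>
    rw [List.replicate_succ, List.cons_append, Function.iterate_succ_apply', ← ih]
    rfl

section

variable {Q : Type} [Finite Q] (M : Sys Q Bool) (q0 : Q)

/-- numbering of generators -/
noncomputable def en (a : Gn Q M.B) : ℕ := (Finite.equivFin (Gn Q M.B) a : ℕ)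

theorem en_inj : Function.Injective (en M) := by
  intro a b h
  exact (Finite.equivFin (Gn Q M.B)).injective (Fin.ext h)

/-- constants of generators -/
noncomputable def co (a : Gn Q M.B) : ℕ := cst (en M a)

theorem co_pos (a : Gn Q M.B) : 1 ≤ co M a := by
  unfold co cst; omega

/-- representation of the free group -/
noncomputable def rep : FreeGroup (Gn Q M.B) →* GL2 := FreeGroup.lift (fun a => Au (co M a))

theorem rep_injective : Function.Injective (rep M) := by
  have : Nontrivial (Gn Q M.B) := ⟨.k, .x true, by simp⟩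
  exact PP.injective (en M) (en_inj M)

/-- the number of names -/
noncomputable def LL : ℕ := Nat.card (Nm Q M.B)

/-- numbering of names -/
noncomputable def eN : Nm Q M.B ≃ Fin (LL M) := Finite.equivFin _

/-- matrices of a name -/
noncomputable def mat (N : ℕ) (a : Nm Q M.B) : NM × NM :=
  (nmw ((pr M q0 N a).1.map (co M)), nmw ((pr M q0 N a).2.map (co M)))

theorem ap_word (w : List (Gn Q M.B)) (p : ℤ × ℤ) :
    ap (nmw (w.map (co M))) p = rep M (vl M FreeGroup.of w) p := by
  rw [ap_nmw]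
  · unfold rep
    rw [lift_vl, List.map_map]
    rfl
  · intro c hc
    rw [List.mem_map] at hc
    obtain ⟨a, _, rfl⟩ := hc
    exact co_pos M a

/-- pair of representations -/
noncomputable def RR (N : ℕ) : FreeGroup (Nm Q M.B) →* GG :=
  ((rep M).comp (f1 M q0 N)).prod ((rep M).comp (f2 M q0 N))

/-- list of constant matrices -/
noncomputable def lst : List (NM × NM) := List.ofFn (fun i : Fin (LL M) => mat M q0 0 ((eN M).symm i))

/-- default matrices -/
def dm : NM × NM := (((1, 0), (0, 1)), ((1, 0), (0, 1)))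

/-- index of the special name -/
noncomputable def ig : ℕ := (eN M .g : ℕ)

/-- index of the trivial name -/
noncomputable def i0 : ℕ := (eN M .id : ℕ)

/-- matrices of an index -/
noncomputable def mtN (N i : ℕ) : NM × NM := if i = ig M then mat M q0 N .g else (lst M q0).getD i dm

/-- sum of the entries -/
def sm (A : NM × NM) : ℕ :=
  (A.1.1.1 + A.1.1.2 + (A.1.2.1 + A.1.2.2)) + (A.2.1.1 + A.2.1.2 + (A.2.2.1 + A.2.2.2))

/-- bound of the carries -/
noncomputable def KK (N : ℕ) : ℕ := 2 + ((lst M q0).map sm).sum + sm (mat M q0 N .g)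

theorem mtN_eq (N : ℕ) (i : Fin (LL M)) : mtN M q0 N i = mat M q0 N ((eN M).symm i) := by
  unfold mtN
  split_ifs with h
  · have : (eN M).symm i = .g := by
      rw [Equiv.symm_apply_eq]
      exact Fin.ext h
    rw [this]
  · unfold lst
    rw [List.getD_eq_getElem _ _ (by simp), List.getElem_ofFn]
    have h1 : (eN M).symm i ≠ .g := by
      intro h2
      apply h
      rw [Equiv.symm_apply_eq] at h2
      rw [h2]; rfl
    simp only [Fin.eta]
    unfold mat
    generalize (eN M).symm i = a at h1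
    cases a with
    | id => rfl
    | g => exact absurd rfl h1
    | gn a => rfl
    | rl r => rfl

theorem mtN_le (N : ℕ) (i : Fin (LL M)) : sm (mtN M q0 N i) ≤ KK M q0 N := by
  unfold mtN KK
  split_ifs with h
  · omega
  · have h1 : (lst M q0).getD i dm ∈ lst M q0 := by
      rw [List.getD_eq_getElem _ _ (by simp [lst])]
      exact List.getElem_mem _
    have h2 : sm ((lst M q0).getD i dm) ≤ ((lst M q0).map sm).sum :=
      List.le_sum_of_mem (List.mem_map_of_mem h1)
    omega

/-- the data -/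
noncomputable def DA (N : ℕ) : Data where
  K := KK M q0 N
  L := LL M
  ig := ig M
  i0 := i0 M
  mt := mtN M q0 N
  MM i := if h : i < LL M then RR M q0 N (FreeGroup.of ((eN M).symm ⟨i, h⟩)) else 1
  hK := by unfold KK; omega
  hi0 := (eN M .id).2
  hig := (eN M .g).2
  hne := by
    intro h
    have := (eN M).injective (Fin.ext h)
    exact absurd this (by simp)
  mt0 := by
    have h1 := mtN_eq M q0 N (eN M .id)
    rw [Equiv.symm_apply_apply] at h1
    exact h1
  h1 i hi p := by
    rw [dif_pos hi]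
    have := mtN_eq M q0 N ⟨i, hi⟩
    simp only at this
    rw [this]
    simp only [mat]
    rw [ap_word]
    simp [RR, f1]
  h2 i hi p := by
    rw [dif_pos hi]
    have := mtN_eq M q0 N ⟨i, hi⟩
    simp only at this
    rw [this]
    simp only [mat]
    rw [ap_word]
    simp [RR, f2]
  hs i hi := by
    have := mtN_le M q0 N ⟨i, hi⟩
    simp only [sm] at this
    omega

/-- the group -/
noncomputable def Cl (D : Data) : Subgroup (Perm R) :=
  Subgroup.closure {σ | ∃ q < D.n, D.Is q σ}

theorem MM_eN (N : ℕ) (a : Nm Q M.B) : (DA M q0 N).MM (eN M a) = RR M q0 N (FreeGroup.of a) := by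
  change (if h : (eN M a : ℕ) < LL M then RR M q0 N (FreeGroup.of ((eN M).symm ⟨eN M a, h⟩))
    else 1) = _
  rw [dif_pos (eN M a).2]
  simp

theorem wi_eN (N : ℕ) (a : Nm Q M.B) : (DA M q0 N).wi (eN M a) = wn M a := by
  unfold Data.wi
  change (if (eN M a : ℕ) = (eN M .g : ℕ) then (1 : ZMod 2) else 0) = _
  have h : ((eN M a : ℕ) = (eN M .g : ℕ)) ↔ a = .g := by
    rw [← Fin.ext_iff]
    exact (eN M).injective.eq_iff
  cases a with
  | id => rw [if_neg (by rw [h]; simp)]; rfl
  | g => rw [if_pos rfl]; rfl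
  | gn a => rw [if_neg (by rw [h]; simp)]; rfl
  | rl r => rw [if_neg (by rw [h]; simp)]; rfl

/-- Every element has a description. -/
theorem exists_desc (N : ℕ) (g : Perm R) (hg : g ∈ Cl (DA M q0 N)) :
    ∃ u v, Desc g (RR M q0 N u) v (Multiplicative.toAdd (wt M u)) := by
  induction hg using Subgroup.closure_induction with
  | mem σ h =>
    obtain ⟨q, hq, hσ⟩ := h
    have h1 := code_idx_vec (DA M q0 N).K q
    have h2 : idx (DA M q0 N).K q < (DA M q0 N).L := idx_lt hq
    have hK := (DA M q0 N).hK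
    rw [← h1] at hσ
    have h3 := (DA M q0 N).desc h2 (bd_vec (by omega) q) hσ
    have h4 : ∃ a, (eN M a : ℕ) = idx (DA M q0 N).K q :=
      ⟨(eN M).symm ⟨idx (DA M q0 N).K q, h2⟩, by simp⟩
    obtain ⟨a, ha⟩ := h4
    rw [← ha, MM_eN, wi_eN] at h3
    refine ⟨FreeGroup.of a, tz (vec (DA M q0 N).K q), ?_⟩
    have h5 : Multiplicative.toAdd (wt M (FreeGroup.of a)) = wn M a := by
      simp [wt]
    rw [h5]
    exact h3
  | one => exact ⟨1, 0, by simpa using Desc.one⟩
  | mul g h _ _ ih1 ih2 =>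
    obtain ⟨u, v, h1⟩ := ih1
    obtain ⟨u', v', h2⟩ := ih2
    refine ⟨u * u', ac (RR M q0 N u) v' + v, ?_⟩
    rw [map_mul, map_mul, toAdd_mul]
    exact h1.mul h2
  | inv g _ ih =>
    obtain ⟨u, v, h1⟩ := ih
    refine ⟨u⁻¹, - ac (RR M q0 N u)⁻¹ v, ?_⟩
    have h2 := h1.inv
    rw [map_inv, map_inv, toAdd_inv]
    have h3 : - Multiplicative.toAdd (wt M u) = Multiplicative.toAdd (wt M u) :=
      ZMod.neg_eq_self_mod_two _
    rw [h3]
    exact h2

/-- Elements with zero translation. -/
theorem exists_elt (N : ℕ) (u : FreeGroup (Nm Q M.B)) :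
    ∃ g ∈ Cl (DA M q0 N), Desc g (RR M q0 N u) 0 (Multiplicative.toAdd (wt M u)) := by
  have h0 : tz ((0, 0), (0, 0)) = 0 := rfl
  induction u using FreeGroup.induction_on with
  | C1 => exact ⟨1, one_mem _, by simpa using Desc.one⟩
  | of a =>
    have hq : code (DA M q0 N).K (eN M a) ((0, 0), (0, 0)) < (DA M q0 N).n :=
      code_lt (DA M q0 N).bd_zero (eN M a).2
    have hσ := (DA M q0 N).is_sP hq
    refine ⟨(DA M q0 N).sP _, Subgroup.subset_closure ⟨_, hq, hσ⟩, ?_⟩
    have h3 := (DA M q0 N).desc (eN M a).2 (DA M q0 N).bd_zero hσ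
    rw [MM_eN, wi_eN, h0] at h3
    have h5 : Multiplicative.toAdd (wt M (FreeGroup.of a)) = wn M a := by
      simp [wt]
    rw [h5]
    exact h3
  | inv_of a ih =>
    obtain ⟨g, hg, h1⟩ := ih
    refine ⟨g⁻¹, inv_mem hg, ?_⟩
    have h2 := h1.inv
    rw [ac_zero, neg_zero] at h2
    have h3 : - Multiplicative.toAdd (wt M (FreeGroup.of a)) =
        Multiplicative.toAdd (wt M (FreeGroup.of a)) := ZMod.neg_eq_self_mod_two _
    rw [map_inv, map_inv, toAdd_inv, h3]
    exact h2
  | mul a b h1 h2 =>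
    obtain ⟨g, hg, h1⟩ := h1
    obtain ⟨h, hh, h2⟩ := h2
    refine ⟨g * h, mul_mem hg hh, ?_⟩
    have h3 := h1.mul h2
    rw [ac_zero, add_zero] at h3
    rw [map_mul, map_mul, toAdd_mul]
    exact h3

theorem MM0 (D : Data) : D.MM D.i0 = 1 := by
  have h1 := D.h1 D.i0 D.hi0
  have h2 := D.h2 D.i0 D.hi0
  rw [D.mt0] at h1 h2
  refine Prod.ext ?_ ?_
  · apply LinearEquiv.ext
    intro p
    rw [← h1]
    simp [ap]
  · apply LinearEquiv.ext
    intro p
    rw [← h2]
    simp [ap]

theorem desc_pow {g : Perm R} {v : Z4} (h : Desc g 1 v 0) (k : ℕ) :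
    Desc (g ^ k) 1 ((k : ℤ) • v) 0 := by
  induction k with
  | zero => simpa using Desc.one
  | succ k ih =>
    rw [pow_succ']
    have h1 := h.mul ih
    rw [mul_one, ac_one, add_zero] at h1
    have h2 : (((k + 1 : ℕ) : ℤ)) • v = (k : ℤ) • v + v := by
      push_cast
      rw [add_smul, one_smul]
    rw [h2]
    exact h1

/-- The translation elements. -/
theorem exists_tau (D : Data) : ∃ τ ∈ Cl D, Desc τ 1 ((1, 0), (0, 0)) 0 := by
  have hK := D.hK
  have hb : Bd D.K ((1, 0), (0, 0)) := by simp only [Bd]; omega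
  have hq : code D.K D.i0 ((1, 0), (0, 0)) < D.n := code_lt hb D.hi0
  have hσ := D.is_sP hq
  refine ⟨D.sP _, Subgroup.subset_closure ⟨_, hq, hσ⟩, ?_⟩
  have h3 := D.desc D.hi0 hb hσ
  rw [MM0] at h3
  have : D.wi D.i0 = 0 := by
    unfold Data.wi
    rw [if_neg D.hne]
  rw [this] at h3
  exact h3

/-- The main equivalence. -/
theorem main (hab : ∀ q r, M.nxt q r ≠ none → ∀ j, M.b q r j < M.a q r j) (N : ℕ) :
    (∃ ξ : R, ∀ g ∈ Cl (DA M q0 N), g ξ = ξ → g = 1) ↔
      ¬ Reach M (some q0, fun j => (Source.ini N j : ℤ)) := by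
  constructor
  · rintro ⟨ξ, hξ⟩ hreach
    by_cases h : ∀ j, (ξ j : ℕ) < 16
    · obtain ⟨u, h1, h2, h3⟩ := exists_of_reach M q0 N hreach
      obtain ⟨g, hg, h4⟩ := exists_elt M q0 N u
      have h5 : RR M q0 N u = 1 := by
        simp [RR, h1, h2]
      rw [h5, h3, toAdd_ofAdd] at h4
      have h6 := hξ g hg (h4.fix_dig ξ h)
      rw [h6] at h4
      have h7 := h4.flip (fun _ => 16) 0 (fun j hj => by omega) (by simp)
      have h8 : (1 : ZMod 2) ≠ 0 := by decide
      simp [fl, h8] at h7
    · push Not at h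
      classical
      have h1 := Nat.find_spec h
      have h2 := fun j => Nat.find_min h (m := j)
      set m := Nat.find h
      obtain ⟨τ, hτ, h3⟩ := exists_tau (DA M q0 N)
      have h4 := desc_pow h3 (2 ^ m)
      have h5 : τ ^ (2 ^ m) = 1 := by
        refine hξ _ (pow_mem hτ _) (h4.fix ξ m ?_ h1 ?_)
        · intro j hj
          have := h2 j hj
          omega
        · refine ⟨((1, 0), (0, 0)), ?_⟩
          rw [zero_add]
          push_cast
          rfl
      rw [h5] at h4
      have h6 := h4.vl (fun _ => 0) (m + 1) (fun j _ => by simp)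
      obtain ⟨w, hw⟩ := h6
      rw [Perm.one_apply, ac_one] at hw
      have h7 := congrArg (fun z : Z4 => z.1.1) hw
      simp only [Prod.fst_add, Prod.smul_fst, smul_eq_mul, mul_one] at h7
      have h8 : (2 : ℤ) ^ m * (1 + 2 * w.1.1) = 0 := by
        push_cast at h7
        rw [pow_succ] at h7
        linarith
      rcases mul_eq_zero.1 h8 with h9 | h9
      · exact absurd h9 (by positivity)
      · omega
  · intro hn
    refine ⟨xi, ?_⟩
    intro g hg hfix
    obtain ⟨u, v, h1⟩ := exists_desc M q0 N g hg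
    obtain ⟨h2, h3⟩ := gen_xi.eq h1 hfix
    have h4 : f1 M q0 N u = 1 := rep_injective M (by
      rw [map_one]
      exact congrArg Prod.fst h2)
    have h5 : f2 M q0 N u = 1 := rep_injective M (by
      rw [map_one]
      exact congrArg Prod.snd h2)
    have h6 := wt_eq_one M hab q0 N hn u h4 h5
    rw [h2, h3, h6] at h1
    exact h1.eq_one

end

end Pool.Agent.Helper599.Asm
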