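import Mathlib

set_option autoImplicit false

namespace Pool.Agent.Helper599.Auto

open Equiv

section Ext

variable {X Y : Type}

/-- the longest prefix over the first alphabet -/
def pre : List (X ⊕ Y) → List X
  | [] => []
  | .inl x :: w => x :: pre w
  | .inr _ :: _ => []

/-- the rest of the word -/
def post : List (X ⊕ Y) → List (X ⊕ Y)
  | [] => []
  | .inl _ :: w => post w
  | .inr y :: w => .inr y :: w

theorem pre_post (w : List (X ⊕ Y)) : (pre w).map Sum.inl ++ post w = w := by
  induction w with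
  | nil => rfl
  | cons x w ih => cases x <;> simp [pre, post, ih]

theorem pre_append (p : List X) (w : List (X ⊕ Y)) : pre (p.map Sum.inl ++ post w) = p := by
  induction p with
  | nil =>
    simp only [List.map_nil, List.nil_append]
    induction w with
    | nil => rfl
    | cons x w ih => cases x <;> simp [pre, post, ih]
  | cons a p ih => simp [pre, ih]

theorem post_append (p : List X) (w : List (X ⊕ Y)) :
    post (p.map Sum.inl ++ post w) = post w := by
  induction p with
  | nil =>
    simp only [List.map_nil, List.nil_append]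
    induction w with
    | nil => rfl
    | cons x w ih => cases x <;> simp [post, ih]
  | cons a p ih => simp [post, ih]

/-- a map acting on the longest prefix over the first alphabet -/
def ef (f : List X → List X) (w : List (X ⊕ Y)) : List (X ⊕ Y) :=
  (f (pre w)).map Sum.inl ++ post w

theorem ef_comp (f g : List X → List X) (w : List (X ⊕ Y)) : ef f (ef g w) = ef (f ∘ g) w := by
  unfold ef
  rw [pre_append, post_append]
  rfl

/-- the extension homomorphism -/
def ext : Perm (List X) →* Perm (List (X ⊕ Y)) where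
  toFun f := ⟨ef f, ef f.symm, fun w => by
    rw [ef_comp]; unfold ef; simp [pre_post], fun w => by
    rw [ef_comp]; unfold ef; simp [pre_post]⟩
  map_one' := by
    apply Equiv.ext; intro w
    change ef _ w = w
    unfold ef; simp [pre_post]
  map_mul' f g := by
    apply Equiv.ext; intro w
    change ef _ w = ef _ (ef _ w)
    rw [ef_comp]
    rfl

theorem ext_apply (f : Perm (List X)) (w : List (X ⊕ Y)) :
    ext f w = (f (pre w)).map Sum.inl ++ post w := rfl

theorem ext_inj : Function.Injective (ext : Perm (List X) →* Perm (List (X ⊕ Y))) := by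
  intro f g h
  apply Equiv.ext
  intro w
  have h1 := congrArg (fun F : Perm (List (X ⊕ Y)) => pre (F (w.map Sum.inl ++ post []))) h
  simp only [ext_apply, pre_append] at h1
  exact h1

theorem ext_inr (f : Perm (List X)) (hf : f [] = []) (y : Y) (w : List (X ⊕ Y)) :
    ext f (.inr y :: w) = .inr y :: w := by
  simp [ext_apply, pre, post, hf]

theorem ext_nil (f : Perm (List X)) (hf : f [] = []) : (ext f : Perm (List (X ⊕ Y))) [] = [] := by
  simp [ext_apply, pre, post, hf]

theorem ext_inl (f : Perm (List X)) (hf : f [] = []) (x : X) (w : List (X ⊕ Y)) :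
    ∃ x' w', ext f (.inl x :: w) = .inl x' :: w' := by
  rw [ext_apply]
  simp only [pre]
  cases h : f (x :: pre w) with
  | nil =>
    rw [← hf] at h
    exact absurd (f.injective h) (by simp)
  | cons x' w' => exact ⟨x', _, rfl⟩

end Ext

/-- A finite invertible automaton realised by permutations of the words. -/
structure Real (S X : Type) where
  next : S → X → S
  o : S → X → X
  F : S → Perm (List X)
  nil : ∀ s, F s [] = []
  cons : ∀ s x w, F s (x :: w) = o s x :: F (next s x) w

namespace Real

variable {S X : Type} (R : Real S X)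

theorem o_inj (s : S) : Function.Injective (R.o s) := by
  intro x y h
  have h1 : R.F s [x] = R.F s [y] := by
    rw [R.cons, R.cons, h, R.nil, R.nil]
  exact (List.cons.inj ((R.F s).injective h1)).1

/-- the group generated by the automaton -/
def G : Subgroup (Perm (List X)) := Subgroup.closure (Set.range R.F)

theorem G_nil {g : Perm (List X)} (hg : g ∈ R.G) : g [] = [] := by
  induction hg using Subgroup.closure_induction with
  | mem g hg => obtain ⟨s, rfl⟩ := hg; exact R.nil s
  | one => rfl
  | mul g h _ _ h1 h2 => rw [Perm.mul_apply, h2, h1]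
  | inv g _ h1 => rw [Perm.inv_eq_iff_eq, h1]

/-- The cyclic extension. -/
def B {k : ℕ} [NeZero k] (σ : Fin k → S) : Perm (List (X ⊕ Fin k)) where
  toFun w := match w with
    | [] => []
    | .inl x :: w => .inl x :: w
    | .inr y :: w => .inr (y + 1) :: ext (R.F (σ y)) w
  invFun w := match w with
    | [] => []
    | .inl x :: w => .inl x :: w
    | .inr y :: w => .inr (y - 1) :: (ext (R.F (σ (y - 1))))⁻¹ w
  left_inv w := by
    rcases w with _ | ⟨x | y, w⟩
    · rfl
    · rfl
    · simp
  right_inv w := by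
    rcases w with _ | ⟨x | y, w⟩
    · rfl
    · rfl
    · simp

variable {k : ℕ} [NeZero k] (σ : Fin k → S)

theorem B_nil : R.B σ [] = [] := rfl
theorem B_inl (x : X) (w : List (X ⊕ Fin k)) : R.B σ (.inl x :: w) = .inl x :: w := rfl
theorem B_inr (y : Fin k) (w : List (X ⊕ Fin k)) :
    R.B σ (.inr y :: w) = .inr (y + 1) :: ext (R.F (σ y)) w := rfl

/-- the extended automaton -/
def extend (s0 : S) (h0 : R.F s0 = 1) : Real (S ⊕ Unit) (X ⊕ Fin k) where
  next s x := match s, x with
    | .inl s, .inl x => .inl (R.next s x)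
    | .inl _, .inr _ => .inl s0
    | .inr _, .inl _ => .inl s0
    | .inr _, .inr y => .inl (σ y)
  o s x := match s, x with
    | .inl s, .inl x => .inl (R.o s x)
    | .inl _, .inr y => .inr y
    | .inr _, .inl x => .inl x
    | .inr _, .inr y => .inr (y + 1)
  F s := match s with
    | .inl s => ext (R.F s)
    | .inr _ => R.B σ
  nil s := by
    rcases s with s | s
    · exact ext_nil _ (R.nil s)
    · rfl
  cons s x w := by
    rcases s with s | s <;> rcases x with x | y
    · simp only [ext_apply, pre, post, R.cons, List.map_cons, List.cons_append]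
    · simp only [ext_inr _ (R.nil s), h0, map_one, Perm.one_apply]
    · simp only [B_inl, h0, map_one, Perm.one_apply]
    · simp only [B_inr]

theorem commute_ext_B {g : Perm (List X)} (hg : g [] = []) : Commute (ext g) (R.B σ) := by
  apply Equiv.ext
  intro w
  rw [Perm.mul_apply, Perm.mul_apply]
  rcases w with _ | ⟨x | y, w⟩
  · rw [B_nil, ext_nil g hg, B_nil]
  · obtain ⟨x', w', h⟩ := ext_inl (Y := Fin k) g hg x w
    rw [B_inl, h, B_inl]
  · rw [B_inr, ext_inr g hg, ext_inr g hg, B_inr]

theorem B_pow_inl (m : ℤ) (x : X) (w : List (X ⊕ Fin k)) :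
    (R.B σ ^ m) (.inl x :: w) = .inl x :: w := by
  have h1 : R.B σ (.inl x :: w) = .inl x :: w := rfl
  exact Perm.zpow_apply_eq_self_of_apply_eq_self h1 m

theorem B_pow_nil (m : ℤ) : (R.B σ ^ m) [] = [] := by
  have h1 : R.B σ [] = [] := rfl
  exact Perm.zpow_apply_eq_self_of_apply_eq_self h1 m

/-- the map of the direct product -/
def Φ : R.G × Subgroup.zpowers (R.B σ) →* Perm (List (X ⊕ Fin k)) :=
  MonoidHom.noncommCoprod (ext.comp R.G.subtype) (Subgroup.zpowers (R.B σ)).subtype (by
    rintro ⟨g, hg⟩ ⟨b, m, rfl⟩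
    have := (R.commute_ext_B σ (R.G_nil hg)).zpow_right m
    exact this)

theorem Φ_inj : Function.Injective (R.Φ σ) := by
  unfold Φ
  rw [MonoidHom.noncommCoprod_injective]
  refine ⟨?_, Subtype.val_injective, ?_⟩
  · intro a b h
    exact Subtype.ext (ext_inj h)
  · rw [disjoint_iff_inf_le]
    rintro f ⟨⟨⟨g, hg⟩, h1⟩, ⟨⟨b, ⟨m, rfl⟩⟩, h2⟩⟩
    change f = 1
    apply Equiv.ext
    intro w
    rw [Perm.one_apply]
    have h1' : ext g = f := h1
    have h2' : R.B σ ^ m = f := h2
    rcases w with _ | ⟨x | y, w⟩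
    · rw [← h2', B_pow_nil]
    · rw [← h2', B_pow_inl]
    · rw [← h1', ext_inr g (R.G_nil hg)]

theorem Φ_range (s0 : S) (h0 : R.F s0 = 1) : (R.Φ σ).range = (R.extend σ s0 h0).G := by
  unfold Φ
  rw [MonoidHom.noncommCoprod_range]
  have h1 : ((ext (Y := Fin k)).comp R.G.subtype).range =
      Subgroup.closure (ext '' (Set.range R.F)) := by
    rw [← MonoidHom.map_closure, MonoidHom.range_comp, Subgroup.range_subtype]
    rfl
  have h2 : (Subgroup.zpowers (R.B σ)).subtype.range = Subgroup.closure {R.B σ} := by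
    rw [Subgroup.range_subtype, Subgroup.zpowers_eq_closure]
  rw [h1, h2, ← Subgroup.closure_union]
  unfold G
  congr 1
  ext f
  constructor
  · rintro (⟨_, ⟨s, rfl⟩, rfl⟩ | hf)
    · exact ⟨.inl s, rfl⟩
    · rw [Set.mem_singleton_iff] at hf
      subst hf
      exact ⟨.inr (), rfl⟩
  · rintro ⟨s | s, rfl⟩
    · exact Or.inl ⟨_, ⟨s, rfl⟩, rfl⟩
    · exact Or.inr rfl

/-- the extended group is a direct product -/
noncomputable def prodEquiv (s0 : S) (h0 : R.F s0 = 1) :
    R.G × Subgroup.zpowers (R.B σ) ≃* (R.extend σ s0 h0).G :=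
  (MonoidHom.ofInjective (R.Φ_inj σ)).trans (MulEquiv.subgroupCongr (R.Φ_range σ s0 h0))

/-- partial products of the sections -/
def prodF : ℕ → Perm (List (X ⊕ Fin k))
  | 0 => 1
  | i + 1 => (if h : i < k then ext (R.F (σ ⟨i, h⟩)) else 1) * prodF i

theorem B_pow_zero (i : ℕ) (hi : i ≤ k) (w : List (X ⊕ Fin k)) :
    (R.B σ ^ i) (.inr 0 :: w) = .inr (Fin.ofNat k i) :: R.prodF σ i w := by
  induction i with
  | zero => simp [prodF, Fin.ofNat]
  | succ i ih =>
    rw [pow_succ', Perm.mul_apply, ih (by omega), B_inr]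
    have hk : i < k := by omega
    have e : Fin.ofNat k i = ⟨i, hk⟩ := by
      apply Fin.ext
      simp [Fin.ofNat, Nat.mod_eq_of_lt hk]
    congr 1
    · congr 1
      apply Fin.ext
      simp [Fin.ofNat, Fin.val_add]
    · simp only [prodF, dif_pos hk, e, Perm.mul_apply]

theorem B_pow_k (m : ℕ) (w : List (X ⊕ Fin k)) :
    (R.B σ ^ (k * m)) (.inr 0 :: w) = .inr 0 :: (R.prodF σ k ^ m) w := by
  induction m with
  | zero => simp
  | succ m ih =>
    rw [mul_add, mul_one, add_comm, pow_add, Perm.mul_apply, ih, B_pow_zero _ _ _ le_rfl, pow_succ']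
    simp [Fin.ofNat]

theorem B_reach (y : Fin k) (w : List (X ⊕ Fin k)) :
    ∃ i w', (R.B σ ^ i) (.inr 0 :: w') = .inr y :: w := by
  refine ⟨y, (R.prodF σ y)⁻¹ w, ?_⟩
  rw [B_pow_zero _ _ _ y.2.le]
  congr 1
  · congr 1
    apply Fin.ext
    simp [Fin.ofNat, Nat.mod_eq_of_lt y.2]
  · simp

/-- The order of the cyclic extension is finite iff the order of the product is. -/
theorem B_finite_iff : (∃ m, 0 < m ∧ R.B σ ^ m = 1) ↔ (∃ m, 0 < m ∧ R.prodF σ k ^ m = 1) := by
  have hk : 0 < k := Nat.pos_of_ne_zero (NeZero.ne k)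
  constructor
  · rintro ⟨m, hm, h⟩
    refine ⟨m, hm, ?_⟩
    apply Equiv.ext
    intro w
    have h1 := R.B_pow_k σ m w
    rw [mul_comm, pow_mul, h, one_pow, Perm.one_apply] at h1
    exact (List.cons.inj h1).2.symm
  · rintro ⟨m, hm, h⟩
    refine ⟨k * m, by positivity, ?_⟩
    apply Equiv.ext
    intro w
    rw [Perm.one_apply]
    rcases w with _ | ⟨x | y, w⟩
    · exact_mod_cast R.B_pow_nil σ (k * m : ℕ)
    · exact_mod_cast R.B_pow_inl σ (k * m : ℕ) x w
    · obtain ⟨i, w', hw⟩ := R.B_reach σ y w
      rw [← hw, ← Perm.mul_apply, ← pow_add, add_comm, pow_add, Perm.mul_apply, B_pow_k, h,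
        Perm.one_apply]

end Real

end Pool.Agent.Helper599.Auto
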