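import Mathlib
import Pool.Agent.Helper599.Core
import Pool.Agent.Helper599.Source
import Pool.Agent.Helper599.Auto

set_option autoImplicit false

namespace Pool.Agent.Helper599.Fin1

open Equiv Pool.Agent.Helper599.Auto Pool.Agent.Helper599.Core

section Hom

/-- homomorphisms of a product into an abelian group -/
noncomputable def homProd (G C A : Type*) [Group G] [Group C] [CommGroup A] :
    (G × C →* A) ≃ (G →* A) × (C →* A) where
  toFun f := (f.comp (MonoidHom.inl G C), f.comp (MonoidHom.inr G C))
  invFun p := p.1.coprod p.2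
  left_inv f := by simp [MonoidHom.coprod_unique]
  right_inv p := by simp

theorem hom_finite {H : Type*} [Group H] (S : Set H) (hS : S.Finite)
    (K : Subgroup H) (hK : K = Subgroup.closure S) (A : Type*) [CommGroup A] [Finite A] :
    Finite (K →* A) := by
  subst hK
  have : Finite S := hS
  refine Finite.of_injective (fun f : (Subgroup.closure S →* A) =>
    fun s : S => f ⟨s.1, Subgroup.subset_closure s.2⟩) ?_
  intro f g h
  have h1 : ∀ s (hs : s ∈ S), f ⟨s, Subgroup.subset_closure hs⟩ = g ⟨s, Subgroup.subset_closure hs⟩ :=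
    fun s hs => congrFun h ⟨s, hs⟩
  ext ⟨x, hx⟩
  induction hx using Subgroup.closure_induction with
  | mem s hs => exact h1 s hs
  | one =>
    have e : (⟨1, Subgroup.one_mem _⟩ : Subgroup.closure S) = 1 := rfl
    rw [e, map_one, map_one]
  | mul x y hx hy ihx ihy =>
    have e : (⟨x * y, Subgroup.mul_mem _ hx hy⟩ : Subgroup.closure S) =
      ⟨x, hx⟩ * ⟨y, hy⟩ := rfl
    rw [e, map_mul, map_mul, ihx, ihy]
  | inv x hx ih =>
    have e : (⟨x⁻¹, Subgroup.inv_mem _ hx⟩ : Subgroup.closure S) = (⟨x, hx⟩ : Subgroup.closure S)⁻¹ :=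
      rfl
    rw [e, map_inv, map_inv, ih]

theorem inf_zpowers {Q : Type*} [Group Q] (c : Q) (hc : ∀ m : ℕ, 0 < m → c ^ m ≠ 1) :
    Infinite (Subgroup.zpowers c) := by
  have h : (Subgroup.zpowers c : Set Q).Infinite := by
    rw [infinite_zpowers, isOfFinOrder_iff_pow_eq_one]
    rintro ⟨n, hn, h⟩
    exact hc n hn h
  exact h.to_subtype

theorem not_iso {G P Q : Type*} [Group G] [Group P] [Group Q] (b : P) (c : Q)
    (hG : ∀ p : ℕ, p.Prime → Finite (G →* Multiplicative (ZMod p)))
    (m : ℕ) (hm : 0 < m) (hb : b ^ m = 1) (hc : ∀ m : ℕ, 0 < m → c ^ m ≠ 1) :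
    IsEmpty (G × Subgroup.zpowers b ≃* G × Subgroup.zpowers c) := by
  constructor
  intro e
  obtain ⟨p, hpm, hp⟩ := Nat.exists_infinite_primes (m + 1)
  have : Fact p.Prime := ⟨hp⟩
  let A := Multiplicative (ZMod p)
  have hfin : Finite (G →* A) := hG p hp
  have e1 : (G × Subgroup.zpowers b →* A) ≃ (G × Subgroup.zpowers c →* A) :=
    ⟨fun f => f.comp e.symm.toMonoidHom, fun f => f.comp e.toMonoidHom,
      fun f => by ext x <;> simp, fun f => by ext x <;> simp⟩
  have e2 : (G →* A) × (Subgroup.zpowers b →* A) ≃ (G →* A) × (Subgroup.zpowers c →* A) :=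
    (homProd _ _ _).symm.trans (e1.trans (homProd _ _ _))
  have h1 := Nat.card_congr e2
  rw [Nat.card_prod, Nat.card_prod] at h1
  have hpos : 0 < Nat.card (G →* A) := Nat.card_pos
  have hb1 : Nat.card (Subgroup.zpowers b →* A) = 1 := by
    rw [Nat.card_eq_one_iff_unique]
    refine ⟨⟨fun f g => ?_⟩, ⟨1⟩⟩
    have key : ∀ f : Subgroup.zpowers b →* A, ∀ x, f x = 1 := by
      intro f x
      have hx : x ^ m = 1 := by
        obtain ⟨x, k, rfl⟩ := x
        apply Subtype.ext
        change (b ^ k) ^ m = 1
        rw [← zpow_natCast, ← zpow_mul, mul_comm, zpow_mul, zpow_natCast, hb, one_zpow]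
      have h2 : (f x) ^ m = 1 := by rw [← map_pow, hx, map_one]
      have h3 : (f x) ^ p = 1 := by
        have : Nat.card A = p := by
          change Nat.card (ZMod p) = p
          exact Nat.card_zmod p
        have h := pow_card_eq_one' (x := f x)
        rwa [this] at h
      have h4 : orderOf (f x) ∣ Nat.gcd m p := Nat.dvd_gcd (orderOf_dvd_of_pow_eq_one h2)
        (orderOf_dvd_of_pow_eq_one h3)
      have h5 : Nat.gcd m p = 1 := by
        have : Nat.Coprime p m := (Nat.Prime.coprime_iff_not_dvd hp).2
          (fun h => absurd (Nat.le_of_dvd hm h) (by omega))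
        exact this.symm
      rw [h5, Nat.dvd_one, orderOf_eq_one_iff] at h4
      exact h4
    ext x
    rw [key f, key g]
  rw [hb1, mul_one] at h1
  have hc1 : Nat.card (Subgroup.zpowers c →* A) = 1 := by
    have : Nat.card (G →* A) * 1 = Nat.card (G →* A) * Nat.card (Subgroup.zpowers c →* A) := by
      rw [mul_one]; exact h1
    exact (Nat.eq_of_mul_eq_mul_left hpos this).symm
  rw [Nat.card_eq_one_iff_unique] at hc1
  have hsub := hc1.1
  have hinf : Infinite (Subgroup.zpowers c) := inf_zpowers c hc
  have e3 : Multiplicative ℤ ≃* Subgroup.zpowers c := intCyclicMulEquiv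
  let f : Subgroup.zpowers c →* A :=
    (AddMonoidHom.toMultiplicative (Int.castAddHom (ZMod p))).comp e3.symm.toMonoidHom
  have h6 : f = 1 := Subsingleton.elim _ _
  have h7 : f (e3 (Multiplicative.ofAdd 1)) = 1 := by rw [h6]; rfl
  have h8 : f (e3 (Multiplicative.ofAdd 1)) = Multiplicative.ofAdd ((1 : ℤ) : ZMod p) := by
    simp [f]
  rw [h8] at h7
  have h9 : ((1 : ℤ) : ZMod p) = 0 := h7
  simp at h9

theorem iso_of_infinite {G P Q : Type*} [Group G] [Group P] [Group Q] (b : P) (c : Q)
    (hb : ∀ m : ℕ, 0 < m → b ^ m ≠ 1) (hc : ∀ m : ℕ, 0 < m → c ^ m ≠ 1) :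
    Nonempty (G × Subgroup.zpowers b ≃* G × Subgroup.zpowers c) := by
  have hinf1 : Infinite (Subgroup.zpowers b) := inf_zpowers b hb
  have hinf2 : Infinite (Subgroup.zpowers c) := inf_zpowers c hc
  exact ⟨MulEquiv.prodCongr (MulEquiv.refl G)
    ((intCyclicMulEquiv : Multiplicative ℤ ≃* Subgroup.zpowers b).symm.trans intCyclicMulEquiv)⟩

end Hom


section Base

variable {Q J : Type} (M : Sys Q J)

/-- the vector of a state -/
def tv (c : J → Fin 3) : J → ℤ := fun j => (c j : ℕ) - 1

/-- the state of a vector -/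
def tdec (n : J → ℤ) : J → Fin 3 := fun j => ⟨(n j + 1).toNat % 3, Nat.mod_lt _ (by norm_num)⟩

theorem tv_tdec (n : J → ℤ) (h : ∀ j, -1 ≤ n j ∧ n j ≤ 1) : tv (tdec n) = n := by
  funext j
  have := h j
  simp only [tv, tdec]
  rw [Nat.mod_eq_of_lt (by omega)]
  omega

theorem tv_bound (c : J → Fin 3) (j : J) : -1 ≤ tv c j ∧ tv c j ≤ 1 := by
  have := (c j).2
  simp only [tv]
  omega

/-- states -/
abbrev St (Q J : Type) : Type := (J → Fin 3) ⊕ Option Q

/-- action of the states -/
noncomputable def stF : St Q J → Perm (List M.X)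
  | .inl c => M.TP (tv c)
  | .inr none => M.VP
  | .inr (some q) => M.UP (some q)

/-- the state of an optional machine state -/
def stU : Option Q → St Q J
  | none => .inl (tdec 0)
  | some q => .inr (some q)

theorem stF_id : stF M (.inl (tdec 0)) = 1 := by
  change M.TP (tv (tdec 0)) = 1
  rw [tv_tdec _ (by simp), M.TP_zero]

theorem stF_U (o : Option Q) : stF M (stU o) = M.UP o := by
  cases o with
  | none => rw [M.UP_none]; exact stF_id M
  | some q => rfl

open Classical in
/-- transitions -/
noncomputable def stN : St Q J → M.X → St Q J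
  | .inl c, (q, r, p, i) => .inl (tdec fun j => M.rho q r p j * (((i j : ℕ) + tv c j) / M.B))
  | .inr none, (q, r, p, i) =>
      if ∀ j, (i j : ℕ) = 0 then
        if (p : ℕ) = 0 then .inr none else .inl (tdec (M.sig q r p))
      else .inl (tdec 0)
  | .inr (some q'), (q, r, p, i) =>
      if q = q' ∧ i = r then
        if (p : ℕ) = M.l then stU (M.nxt q r) else .inl (tdec 0)
      else .inl (tdec 0)

open Classical in
/-- outputs -/
noncomputable def stO : St Q J → M.X → M.X
  | .inl c, (q, r, p, i) => (q, r, p, fun j => M.red ((i j : ℕ) + tv c j))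
  | .inr none, (q, r, p, i) => if ∀ j, (i j : ℕ) = 0 then (q, r, M.neg p, i) else (q, r, p, i)
  | .inr (some q'), (q, r, p, i) => if q = q' ∧ i = r then (q, r, p.rev, i) else (q, r, p, i)

theorem rho_bound (q : Q) (r : J → Fin M.B) (p : Fin (2 * M.l + 1)) (j : J) :
    0 ≤ M.rho q r p j ∧ M.rho q r p j ≤ 1 := by
  unfold Sys.rho
  split_ifs <;> simp

theorem sig_bound (q : Q) (r : J → Fin M.B) (p : Fin (2 * M.l + 1)) (j : J) :
    -1 ≤ M.sig q r p j ∧ M.sig q r p j ≤ 1 := by
  unfold Sys.sig Sys.s
  split_ifs <;> simp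

theorem carry_bound (i : Fin M.B) (c : ℤ) (hc : -1 ≤ c ∧ c ≤ 1) :
    -1 ≤ ((i : ℕ) + c) / (M.B : ℤ) ∧ ((i : ℕ) + c) / (M.B : ℤ) ≤ 1 := by
  have hB := M.hB
  have hi := i.2
  constructor
  · rw [Int.le_ediv_iff_mul_le (by omega)]
    nlinarith
  · have : ((i : ℕ) + c) / (M.B : ℤ) < 2 := by
      rw [Int.ediv_lt_iff_lt_mul (by omega)]
      nlinarith
    omega

/-- the base automaton -/
noncomputable def base : Real (St Q J) M.X where
  next := stN M
  o := stO M
  F := stF M
  nil s := by
    rcases s with c | _ | q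
    · rfl
    · rfl
    · rfl
  cons s x w := by
    obtain ⟨q, r, p, i⟩ := x
    rcases s with c | _ | q'
    · change M.T (tv c) ((q, r, p, i) :: w) = _
      rw [M.T_cons]
      simp only [stN, stO, stF]
      rw [tv_tdec]
      · rfl
      · intro j
        have h1 := rho_bound M q r p j
        have h2 := carry_bound M (i j) (tv c j) (tv_bound c j)
        constructor <;> nlinarith
    · change M.V ((q, r, p, i) :: w) = _
      simp only [Sys.V, stN, stO]
      split_ifs
      · rfl
      · simp only [stF]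
        rw [tv_tdec _ (sig_bound M q r p)]
        rfl
      · rw [stF_id]; rfl
    · change M.U (some q') ((q, r, p, i) :: w) = _
      simp only [Sys.U, stN, stO]
      split_ifs
      · rw [stF_U]; rfl
      · rw [stF_id]; rfl
      · rw [stF_id]; rfl

end Base

section Cyc

variable {Q : Type} (M : Sys Q Bool)

/-- unit vector of the main counter -/
def e1 : Bool → ℤ := fun j => if j then 1 else 0

/-- sections of the cyclic generator, as a function of the position -/
def secN (q0 : Q) (N y : ℕ) : St Q Bool :=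
  if y < N then .inl (tdec e1) else if y = N then .inr (some q0)
  else if y < 2 * N + 1 then .inl (tdec (-e1)) else .inr none

theorem prod_eq (q0 : Q) (N : ℕ) :
    (base M).prodF (k := 2 * N + 2) (fun y => secN q0 N y) (2 * N + 2) =
      ext (M.W (some q0) (Sys.zz (Source.ini N))) := by
  have hT : stF M (.inl (tdec e1)) = M.TP e1 := by
    change M.TP (tv (tdec e1)) = _
    rw [tv_tdec]; intro j; cases j <;> simp [e1]
  have hT' : stF M (.inl (tdec (-e1))) = M.TP (-e1) := by
    change M.TP (tv (tdec (-e1))) = _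
    rw [tv_tdec]; intro j; cases j <;> simp [e1]
  have hs : ∀ i, i < 2 * N + 2 → (base M).prodF (k := 2 * N + 2) (fun y => secN q0 N y) (i + 1) =
      ext (stF M (secN q0 N i)) * (base M).prodF (k := 2 * N + 2) (fun y => secN q0 N y) i := by
    intro i hi
    simp only [Real.prodF, dif_pos hi]
    rfl
  have h1 : ∀ i, i ≤ N → (base M).prodF (k := 2 * N + 2) (fun y => secN q0 N y) i =
      ext (M.TP (fun j => if j then (i : ℤ) else 0)) := by
    intro i
    induction i with
    | zero =>
      intro _
      have : (fun j : Bool => if j then ((0 : ℕ) : ℤ) else 0) = 0 := by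
        funext j; simp
      rw [this, M.TP_zero, map_one]
      rfl
    | succ i ih =>
      intro hi
      rw [hs i (by omega), ih (by omega), ← map_mul]
      have : secN q0 N i = .inl (tdec e1) := by
        unfold secN; rw [if_pos (by omega)]
      rw [this, hT, ← M.TP_add]
      congr 2
      funext j
      cases j <;> simp [e1]; ring
  have h2 : (base M).prodF (k := 2 * N + 2) (fun y => secN q0 N y) (N + 1) =
      ext (M.UP (some q0) * M.TP (fun j => if j then (N : ℤ) else 0)) := by
    rw [hs N (by omega), h1 N le_rfl, ← map_mul]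
    have : secN q0 N N = .inr (some q0) := by
      unfold secN; rw [if_neg (by omega), if_pos rfl]
    rw [this]
    rfl
  have h3 : ∀ i, i ≤ N → (base M).prodF (k := 2 * N + 2) (fun y => secN q0 N y) (N + 1 + i) =
      ext (M.TP (fun j => if j then -(i : ℤ) else 0) *
        (M.UP (some q0) * M.TP (fun j => if j then (N : ℤ) else 0))) := by
    intro i
    induction i with
    | zero =>
      intro _
      have : (fun j : Bool => if j then -((0 : ℕ) : ℤ) else 0) = 0 := by
        funext j; simp
      rw [this, M.TP_zero, one_mul]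
      exact h2
    | succ i ih =>
      intro hi
      rw [← add_assoc, hs (N + 1 + i) (by omega), ih (by omega), ← map_mul]
      have : secN q0 N (N + 1 + i) = .inl (tdec (-e1)) := by
        unfold secN; rw [if_neg (by omega), if_neg (by omega), if_pos (by omega)]
      rw [this, hT', ← mul_assoc, ← M.TP_add]
      congr 3
      funext j
      cases j
      · simp [e1]
      · simp [e1]
        try ring
  have h4 := hs (2 * N + 1) (by omega)
  have h5 : secN q0 N (2 * N + 1) = .inr none := by
    unfold secN; rw [if_neg (by omega), if_neg (by omega), if_neg (by omega)]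
  have h6 : 2 * N + 1 = N + 1 + N := by ring
  rw [h4, h5, h6, h3 N le_rfl, ← map_mul]
  congr 1
  unfold Sys.W Sys.A
  have h7 : (fun j : Bool => if j then -(N : ℤ) else 0) = - Sys.zz (Source.ini N) := by
    funext j; cases j <;> simp [Sys.zz, Source.ini]
  have h8 : (fun j : Bool => if j then (N : ℤ) else 0) = Sys.zz (Source.ini N) := by
    funext j; cases j <;> simp [Sys.zz, Source.ini]
  rw [h7, h8, M.TP_neg, mul_assoc]
  rfl

/-- The order of the cyclic generator is finite exactly when the machine stops. -/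
theorem B_finite (hl : 0 < M.l) (q0 : Q) (N : ℕ) :
    (∃ m, 0 < m ∧ (base M).B (k := 2 * N + 2) (fun y => secN q0 N y) ^ m = 1) ↔
      M.Halts (some q0) (Source.ini N) := by
  rw [Real.B_finite_iff, prod_eq]
  constructor
  · rintro ⟨m, hm, h⟩
    rw [← map_pow] at h
    exact M.halts_of_finite hl m _ _ hm (ext_inj (by rw [h, map_one]))
  · intro h
    obtain ⟨m, hm, h⟩ := M.finite_of_halts h
    exact ⟨m, hm, by rw [← map_pow, h, map_one]⟩

end Cyc

end Pool.Agent.Helper599.Fin1
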