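import Mathlib
import Pool.Agent.Helper599.Asm

set_option autoImplicit false

namespace Pool.Agent.Helper599.Asm

open Equiv Pool.Agent.Helper599 Pool.Agent.Helper599.PP Pool.Agent.Helper599.Ray
open Pool.Agent.Helper599.Mod Pool.Agent.Helper599.Core

section

variable {α : Type} [Primcodable α]

theorem p_add {f g : α → ℕ} (hf : Primrec f) (hg : Primrec g) : Primrec (fun a => f a + g a) :=
  Primrec.nat_add.comp hf hg

theorem p_mul {f g : α → ℕ} (hf : Primrec f) (hg : Primrec g) : Primrec (fun a => f a * g a) :=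
  Primrec.nat_mul.comp hf hg

theorem p_div {f g : α → ℕ} (hf : Primrec f) (hg : Primrec g) : Primrec (fun a => f a / g a) :=
  Primrec.nat_div.comp hf hg

theorem p_mod {f g : α → ℕ} (hf : Primrec f) (hg : Primrec g) : Primrec (fun a => f a % g a) :=
  Primrec.nat_mod.comp hf hg

theorem p_11 {f : α → NM} (hf : Primrec f) : Primrec (fun a => (f a).1.1) :=
  Primrec.fst.comp (Primrec.fst.comp hf)

theorem p_12 {f : α → NM} (hf : Primrec f) : Primrec (fun a => (f a).1.2) :=
  Primrec.snd.comp (Primrec.fst.comp hf)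

theorem p_21 {f : α → NM} (hf : Primrec f) : Primrec (fun a => (f a).2.1) :=
  Primrec.fst.comp (Primrec.snd.comp hf)

theorem p_22 {f : α → NM} (hf : Primrec f) : Primrec (fun a => (f a).2.2) :=
  Primrec.snd.comp (Primrec.snd.comp hf)

theorem p_mk {a b c d : α → ℕ} (ha : Primrec a) (hb : Primrec b) (hc : Primrec c)
    (hd : Primrec d) : Primrec (fun x => (((a x, b x), (c x, d x)) : NM)) :=
  Primrec.pair (Primrec.pair ha hb) (Primrec.pair hc hd)

theorem p_st (c : ℕ) {f : α → NM} (hf : Primrec f) : Primrec (fun a => st c (f a)) := by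
  unfold st
  exact p_mk (p_add (p_mul (Primrec.const _) (p_11 hf)) (p_mul (Primrec.const _) (p_21 hf)))
    (p_add (p_mul (Primrec.const _) (p_12 hf)) (p_mul (Primrec.const _) (p_22 hf)))
    (p_add (p_11 hf) (p_mul (Primrec.const _) (p_21 hf)))
    (p_add (p_12 hf) (p_mul (Primrec.const _) (p_22 hf)))

theorem p_iter (c : ℕ) {n : α → ℕ} (hn : Primrec n) {f : α → NM} (hf : Primrec f) :
    Primrec (fun a => (st c)^[n a] (f a)) :=
  Primrec.nat_iterate hn hf (p_st c Primrec.snd).to₂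

theorem p_code {K i : α → ℕ} {v : α → NM} (hK : Primrec K) (hi : Primrec i) (hv : Primrec v) :
    Primrec (fun a => code (K a) (i a) (v a)) := by
  unfold code
  exact p_add (p_11 hv) (p_mul hK (p_add (p_12 hv) (p_mul hK (p_add (p_21 hv) (p_mul hK
    (p_add (p_22 hv) (p_mul hK hi)))))))

theorem p_idx {K s : α → ℕ} (hK : Primrec K) (hs : Primrec s) :
    Primrec (fun a => idx (K a) (s a)) := by
  unfold idx
  exact p_div (p_div (p_div (p_div hs hK) hK) hK) hK

theorem p_vec {K s : α → ℕ} (hK : Primrec K) (hs : Primrec s) :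
    Primrec (fun a => vec (K a) (s a)) := by
  unfold vec
  exact p_mk (p_mod hs hK) (p_mod (p_div hs hK) hK) (p_mod (p_div (p_div hs hK) hK) hK)
    (p_mod (p_div (p_div (p_div hs hK) hK) hK) hK)

theorem p_dg {x : α → ℕ} (hx : Primrec x) : Primrec (fun a => Ray.dg (x a)) := by
  unfold Ray.dg
  have c : ∀ n : ℕ, Primrec (fun _ : α => n) := fun n => Primrec.const n
  exact p_mk (p_mod hx (c 2)) (p_mod (p_div hx (c 2)) (c 2)) (p_mod (p_div hx (c 4)) (c 2))
    (p_mod (p_div hx (c 8)) (c 2))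

theorem p_nv {A : α → NM × NM} {z v : α → NM} (hA : Primrec A) (hz : Primrec z)
    (hv : Primrec v) : Primrec (fun a => nv (A a) (z a) (v a)) := by
  unfold nv
  have h1 := Primrec.fst.comp hA
  have h2 := Primrec.snd.comp hA
  exact p_mk (p_add (p_add (p_mul (p_11 h1) (p_11 hz)) (p_mul (p_12 h1) (p_12 hz))) (p_11 hv))
    (p_add (p_add (p_mul (p_21 h1) (p_11 hz)) (p_mul (p_22 h1) (p_12 hz))) (p_12 hv))
    (p_add (p_add (p_mul (p_11 h2) (p_21 hz)) (p_mul (p_12 h2) (p_22 hz))) (p_21 hv))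
    (p_add (p_add (p_mul (p_21 h2) (p_21 hz)) (p_mul (p_22 h2) (p_22 hz))) (p_22 hv))

theorem p_hf {u : α → NM} (hu : Primrec u) : Primrec (fun a => hf (u a)) := by
  unfold hf
  have c : ∀ n : ℕ, Primrec (fun _ : α => n) := fun n => Primrec.const n
  exact p_mk (p_div (p_11 hu) (c 2)) (p_div (p_12 hu) (c 2)) (p_div (p_21 hu) (c 2))
    (p_div (p_22 hu) (c 2))

theorem p_lt {u : α → NM} (hu : Primrec u) : Primrec (fun a => Ray.lt (u a)) := by
  unfold Ray.lt
  have c : ∀ n : ℕ, Primrec (fun _ : α => n) := fun n => Primrec.const n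
  exact p_add (p_add (p_add (p_mod (p_11 hu) (c 2)) (p_mul (c 2) (p_mod (p_12 hu) (c 2))))
    (p_mul (c 4) (p_mod (p_21 hu) (c 2)))) (p_mul (c 8) (p_mod (p_22 hu) (c 2)))

theorem p_sm {A : α → NM × NM} (hA : Primrec A) : Primrec (fun a => sm (A a)) := by
  unfold sm
  have h1 := Primrec.fst.comp hA
  have h2 := Primrec.snd.comp hA
  exact p_add (p_add (p_add (p_11 h1) (p_12 h1)) (p_add (p_21 h1) (p_22 h1)))
    (p_add (p_add (p_11 h2) (p_12 h2)) (p_add (p_21 h2) (p_22 h2)))

end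

variable {Q : Type} [Finite Q] (M : Sys Q Bool) (q0 : Q)

theorem mat_g_eq (N : ℕ) : mat M q0 N .g =
    (st (co M .k) ((st (co M (.x true)))^[N] (st (co M (.t (some q0)))
      ((st (co M (.y true)))^[N] ((1, 0), (0, 1))))),
    (st (co M (.x true)))^[N] (st (co M (.t (some q0)))
      ((st (co M (.y true)))^[N] (st (co M .k) ((1, 0), (0, 1)))))) := by
  have e1 : ∀ (a : Gn Q M.B) (w : List ℕ), nmw (co M a :: w) = st (co M a) (nmw w) :=
    fun a w => rfl
  have e2 : nmw [] = ((1, 0), (0, 1)) := rfl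
  unfold mat
  simp only [pr, W, Source.ini, if_true, List.map_cons, List.map_append, List.map_replicate,
    e1, nmw_replicate, List.append_assoc, List.cons_append, List.map_nil]
  have e3 : (if false = true then N else 0) = 0 := by simp
  rw [e3]
  simp only [Function.iterate_zero, id_eq, Prod.mk.injEq]
  have e4 : nmw (List.replicate N (co M (.y true))) = (st (co M (.y true)))^[N] (nmw []) := by
    have := nmw_replicate N (co M (.y true)) []
    rwa [List.append_nil] at this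
  rw [e4, e2]
  exact ⟨rfl, rfl⟩

theorem p_matg : Primrec (fun N => mat M q0 N .g) := by
  have hid : Primrec (fun N : ℕ => N) := Primrec.id
  have h1 : Primrec (fun _ : ℕ => (((1, 0), (0, 1)) : NM)) := Primrec.const _
  refine (Primrec.pair (p_st (co M .k) (p_iter (co M (.x true)) hid (p_st (co M (.t (some q0)))
    (p_iter (co M (.y true)) hid h1)))) (p_iter (co M (.x true)) hid
    (p_st (co M (.t (some q0))) (p_iter (co M (.y true)) hid (p_st (co M .k) h1))))).of_eq ?_
  intro N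
  exact (mat_g_eq M q0 N).symm

theorem p_mtN : Primrec (fun p : ℕ × ℕ => mtN M q0 p.1 p.2) := by
  unfold mtN
  refine Primrec.ite (Primrec.eq.comp Primrec.snd (Primrec.const _))
    ((p_matg M q0).comp Primrec.fst) ?_
  exact (Primrec.list_getD dm).comp (Primrec.const _) Primrec.snd

theorem p_KK : Primrec (KK M q0) := by
  unfold KK
  exact p_add (Primrec.const _) (p_sm (p_matg M q0))

theorem p_nx : Primrec (fun p : ℕ × ℕ × ℕ => Ray.nx (KK M q0 p.1) (i0 M) (mtN M q0 p.1) p.2.1 p.2.2) := by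
  have hK : Primrec (fun p : ℕ × ℕ × ℕ => KK M q0 p.1) := (p_KK M q0).comp Primrec.fst
  have hs : Primrec (fun p : ℕ × ℕ × ℕ => p.2.1) := Primrec.fst.comp Primrec.snd
  have hx : Primrec (fun p : ℕ × ℕ × ℕ => p.2.2) := Primrec.snd.comp Primrec.snd
  have hi := p_idx hK hs
  have hm : Primrec (fun p : ℕ × ℕ × ℕ => mtN M q0 p.1 (idx (KK M q0 p.1) p.2.1)) :=
    (p_mtN M q0).comp (Primrec.pair Primrec.fst hi)
  unfold Ray.nx
  refine Primrec.ite (Primrec.nat_lt.comp hx (Primrec.const 16)) ?_ ?_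
  · exact p_code hK hi (p_hf (p_nv hm (p_dg hx) (p_vec hK hs)))
  · exact p_code hK (Primrec.const _) (Primrec.const _)

theorem p_ot : Primrec (fun p : ℕ × ℕ × ℕ => ot (KK M q0 p.1) (ig M) (mtN M q0 p.1) p.2.1 p.2.2) := by
  have hK : Primrec (fun p : ℕ × ℕ × ℕ => KK M q0 p.1) := (p_KK M q0).comp Primrec.fst
  have hs : Primrec (fun p : ℕ × ℕ × ℕ => p.2.1) := Primrec.fst.comp Primrec.snd
  have hx : Primrec (fun p : ℕ × ℕ × ℕ => p.2.2) := Primrec.snd.comp Primrec.snd
  have hi := p_idx hK hs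
  have hm : Primrec (fun p : ℕ × ℕ × ℕ => mtN M q0 p.1 (idx (KK M q0 p.1) p.2.1)) :=
    (p_mtN M q0).comp (Primrec.pair Primrec.fst hi)
  unfold ot
  refine Primrec.ite (Primrec.nat_lt.comp hx (Primrec.const 16)) ?_ ?_
  · exact p_lt (p_nv hm (p_dg hx) (p_vec hK hs))
  · refine Primrec.ite (Primrec.eq.comp hi (Primrec.const _)) ?_ hx
    exact Primrec.nat_sub.comp (Primrec.const 33) hx

theorem p_n : Primrec (fun N => (DA M q0 N).n) := by
  have e : ∀ N, (DA M q0 N).n = LL M * (KK M q0 N * (KK M q0 N * (KK M q0 N * KK M q0 N))) := by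
    intro N
    change LL M * KK M q0 N ^ 4 = _
    ring
  refine (p_mul (Primrec.const (LL M)) (p_mul (p_KK M q0) (p_mul (p_KK M q0)
    (p_mul (p_KK M q0) (p_KK M q0))))).of_eq ?_
  intro N
  exact (e N).symm

/-- a row entry -/
noncomputable def ent (p : (ℕ × ℕ) × ℕ) : ℕ × ℕ :=
  (Ray.nx (KK M q0 p.1.1) (i0 M) (mtN M q0 p.1.1) p.1.2 p.2,
    ot (KK M q0 p.1.1) (ig M) (mtN M q0 p.1.1) p.1.2 p.2)

theorem p_ent : Primrec (ent M q0) := by
  have hp : Primrec (fun p : (ℕ × ℕ) × ℕ => (p.1.1, p.1.2, p.2)) :=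
    Primrec.pair (Primrec.fst.comp Primrec.fst) (Primrec.pair (Primrec.snd.comp Primrec.fst)
      Primrec.snd)
  have h1 := (p_nx M q0).comp hp
  have h2 := (p_ot M q0).comp hp
  simp only at h1 h2
  have h3 := Primrec.pair h1 h2
  exact h3

/-- a row -/
noncomputable def rw' (k : ℕ) (p : ℕ × ℕ) : List (ℕ × ℕ) :=
  (List.range k).map (fun x => ent M q0 (p, x))

theorem p_rw (k : ℕ) : Primrec (rw' M q0 k) := by
  have h1 : Primrec₂ (fun (p : ℕ × ℕ) (x : ℕ) => ent M q0 (p, x)) :=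
    ((p_ent M q0).comp (Primrec.pair Primrec.fst Primrec.snd)).to₂
  exact Primrec.list_map (Primrec.const _) h1

theorem T_eq (N : ℕ) : (DA M q0 N).T =
    (List.range (DA M q0 N).n).map (fun s => rw' M q0 18 (N, s)) := by
  have e : (DA M q0 N).T = table (KK M q0 N) (LL M) (ig M) (i0 M) (mtN M q0 N) := rfl
  have e2 : (DA M q0 N).n = LL M * KK M q0 N ^ 4 := rfl
  rw [e, e2, table]
  rfl

/-- The tables are primitive recursive. -/
theorem p_T : Primrec (fun N => (DA M q0 N).T) := by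
  refine Primrec.of_eq ?_ (fun N => (T_eq M q0 N).symm)
  have h1 : Primrec₂ (fun (N : ℕ) (s : ℕ) => rw' M q0 18 (N, s)) :=
    ((p_rw M q0 18).comp (Primrec.pair Primrec.fst Primrec.snd)).to₂
  exact Primrec.list_map (Primrec.list_range.comp (p_n M q0)) h1

end Pool.Agent.Helper599.Asm
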