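import Mathlib

set_option autoImplicit false

namespace Pool.Agent.Helper599.Sold

/-- soldiers automaton with noise towards `true` only -/
def Dyn (X : ℕ → ℤ → Bool) (N : ℕ → ℤ → Bool) : Prop :=
  ∀ n i, X (n+1) i =
      (((X n i && (X n (i+1) || X n (i+3))) ||
        (!X n i && X n (i-1) && X n (i-3))) || N n i)

/-- the zone invariant on `[a,f]`. -/
structure Zone (a f : ℤ) (x : ℤ → Bool) : Prop where
  le : a + 2 ≤ f
  hf : x f = true
  hf2 : x (f-2) = true
  h0 : ∀ j, a ≤ j → j ≤ a + 2 → x j = true
  h1 : ∀ j, a ≤ j → j + 1 ≤ f → x j = true ∨ x (j+1) = true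
  h3 : ∀ j, a ≤ j → j + 3 ≤ f → x j = true ∨ x (j+3) = true

theorem zone_init (a b : ℤ) (x : ℤ → Bool) (hab : a + 2 ≤ b) (h : ∀ j, a ≤ j → j ≤ b → x j = true) :
    Zone a b x :=
  ⟨hab, h b (by omega) le_rfl, h (b-2) (by omega) (by omega), fun j h1 h2 => h j h1 (by omega),
   fun j h1 h2 => Or.inl (h j h1 (by omega)), fun j h1 h2 => Or.inl (h j h1 (by omega))⟩

section
variable {X N : ℕ → ℤ → Bool} (hX : Dyn X N)
include hX

/-- minus in the zone comes from minus one to the right. -/
theorem back {a f : ℤ} {t : ℕ} (hz : Zone a f (X t)) {i : ℤ} (hai : a ≤ i) (hif : i ≤ f)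
    (hi : X (t+1) i = false) :
    X t (i+1) = false ∧ X t (i+3) = false ∧ X t i = true ∧ a + 2 ≤ i := by
  have h := hX t i
  rw [hi] at h
  -- old value is true
  have hxi : X t i = true := by
    by_contra hne
    have hxi : X t i = false := by simpa using hne
    have hi3 : a + 3 ≤ i := by
      by_contra hlt
      have := hz.h0 i hai (by omega)
      rw [this] at hxi; cases hxi
    have e1 : X t (i-1) = true := by
      rcases hz.h1 (i-1) (by omega) (by omega) with h' | h'
      · exact h'
      · rw [show i - 1 + 1 = i by ring] at h'; rw [h'] at hxi; cases hxi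
    have e3 : X t (i-3) = true := by
      rcases hz.h3 (i-3) (by omega) (by omega) with h' | h'
      · exact h'
      · rw [show i - 3 + 3 = i by ring] at h'; rw [h'] at hxi; cases hxi
    rw [hxi, e1, e3] at h
    simp at h
  rw [hxi] at h
  simp only [Bool.true_and, Bool.not_true, Bool.false_and, Bool.or_false] at h
  have h2 : X t (i+1) = false ∧ X t (i+3) = false := by
    cases h1 : X t (i+1) <;> cases h3 : X t (i+3) <;> rw [h1, h3] at h <;>
      first | exact ⟨rfl, rfl⟩ | (exfalso; simp at h)
  refine ⟨h2.1, h2.2, hxi, ?_⟩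
  by_contra hlt
  have := hz.h0 (i+1) (by omega) (by omega)
  rw [this] at h2
  exact absurd h2.1 (by simp)

theorem front_sub {a f : ℤ} {t : ℕ} (hz : Zone a f (X t)) : X (t+1) (f-1) = true := by
  by_contra hne
  have hf : X (t+1) (f-1) = false := by simpa using hne
  have := (back hX hz (i := f-1) (by have := hz.le; omega) (by omega) hf).1
  rw [show f - 1 + 1 = f by ring, hz.hf] at this
  cases this

theorem step_same {a f : ℤ} {t : ℕ} (hz : Zone a f (X t)) (h0 : X (t+1) (a+2) = true)
    (h1 : X t (f+1) = true) : Zone a f (X (t+1)) := by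
  have hle := hz.le
  refine ⟨hz.le, ?_, ?_, ?_, ?_, ?_⟩
  · by_contra hne
    have hf : X (t+1) f = false := by simpa using hne
    have := (back hX hz (by omega) le_rfl hf).1
    rw [h1] at this; cases this
  · by_contra hne
    have hf : X (t+1) (f-2) = false := by simpa using hne
    have := (back hX hz (by omega) (by omega) hf).2.1
    rw [show f - 2 + 3 = f + 1 by ring, h1] at this; cases this
  · intro j hj1 hj2
    by_contra hne
    have hf : X (t+1) j = false := by simpa using hne
    have := (back hX hz hj1 (by omega) hf).2.2.2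
    have : j = a + 2 := by omega
    rw [this, h0] at hf; cases hf
  · intro j hj1 hj2
    by_contra hne
    push Not at hne
    have e1 : X (t+1) j = false := by simpa using hne.1
    have e2 : X (t+1) (j+1) = false := by simpa using hne.2
    have c1 := (back hX hz hj1 (by omega) e1).1
    have c2 := (back hX hz (by omega) hj2 e2).1
    rcases lt_or_ge (j+1) f with hlt | hge
    · rcases hz.h1 (j+1) (by omega) (by omega) with h | h
      · rw [h] at c1; cases c1
      · rw [h] at c2; cases c2
    · have : j + 1 = f := by omega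
      rw [this, h1] at c2; cases c2
  · intro j hj1 hj2
    by_contra hne
    push Not at hne
    have e1 : X (t+1) j = false := by simpa using hne.1
    have e2 : X (t+1) (j+3) = false := by simpa using hne.2
    have c1 := (back hX hz hj1 (by omega) e1).1
    have c2 := (back hX hz (by omega) hj2 e2).1
    rcases lt_or_ge (j+3) f with hlt | hge
    · rcases hz.h3 (j+1) (by omega) (by omega) with h | h
      · rw [h] at c1; cases c1
      · rw [show j + 1 + 3 = j + 3 + 1 by ring] at h
        rw [h] at c2; cases c2
    · have : j + 3 = f := by omega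
      rw [this, h1] at c2; cases c2

theorem step_same' {a f : ℤ} {t : ℕ} (hz : Zone a f (X t)) (h0 : X (t+1) (a+2) = true)
    (h1 : X t (f+1) = true) (h2 : X (t+1) (f+1) = true) : Zone a (f+1) (X (t+1)) := by
  have hle := hz.le
  have h := step_same hX hz h0 h1
  have hs := front_sub hX hz
  refine ⟨by omega, h2, by rw [show f + 1 - 2 = f - 1 by ring]; exact hs, h.h0, ?_, ?_⟩
  · intro j hj1 hj2
    rcases lt_or_ge (j+1) (f+1) with hlt | hge
    · exact h.h1 j hj1 (by omega)
    · right; rw [show j + 1 = f + 1 by omega]; exact h2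
  · intro j hj1 hj2
    rcases lt_or_ge (j+3) (f+1) with hlt | hge
    · exact h.h3 j hj1 (by omega)
    · right; rw [show j + 3 = f + 1 by omega]; exact h2

theorem step_next {a f : ℤ} {t : ℕ} (hz : Zone a f (X t)) (h0 : X (t+1) (a+2) = true)
    (h1 : X t (f+1) = false) : Zone a (f+1) (X (t+1)) := by
  have hle := hz.le
  have hs := front_sub hX hz
  have hf1 : X (t+1) (f+1) = true := by
    have := hX t (f+1)
    rw [show f + 1 - 1 = f by ring, show f + 1 - 3 = f - 2 by ring, h1, hz.hf, hz.hf2] at this
    simpa using this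
  -- augmented no-conflict facts
  have g1 : ∀ j, a ≤ j → j ≤ f → X t j = true ∨ X t (j+1) = true := by
    intro j hj1 hj2
    rcases lt_or_ge j f with hlt | hge
    · exact hz.h1 j hj1 (by omega)
    · left; rw [show j = f by omega]; exact hz.hf
  have g3 : ∀ j, a ≤ j → j + 2 ≤ f → X t j = true ∨ X t (j+3) = true := by
    intro j hj1 hj2
    rcases lt_or_ge (j+2) f with hlt | hge
    · exact hz.h3 j hj1 (by omega)
    · left; rw [show j = f - 2 by omega]; exact hz.hf2
  refine ⟨by omega, hf1, by rw [show f + 1 - 2 = f - 1 by ring]; exact hs, ?_, ?_, ?_⟩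
  · intro j hj1 hj2
    by_contra hne
    have hf : X (t+1) j = false := by simpa using hne
    have := (back hX hz hj1 (by omega) hf).2.2.2
    have : j = a + 2 := by omega
    rw [this, h0] at hf; cases hf
  · intro j hj1 hj2
    rcases lt_or_ge (j+1) (f+1) with hlt | hge
    · by_contra hne
      push Not at hne
      have e1 : X (t+1) j = false := by simpa using hne.1
      have e2 : X (t+1) (j+1) = false := by simpa using hne.2
      have c1 := (back hX hz hj1 (by omega) e1).1
      have c2 := (back hX hz (by omega) (by omega) e2).1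
      rcases g1 (j+1) (by omega) (by omega) with h | h
      · rw [h] at c1; cases c1
      · rw [h] at c2; cases c2
    · right; rw [show j + 1 = f + 1 by omega]; exact hf1
  · intro j hj1 hj2
    rcases lt_or_ge (j+3) (f+1) with hlt | hge
    · by_contra hne
      push Not at hne
      have e1 : X (t+1) j = false := by simpa using hne.1
      have e2 : X (t+1) (j+3) = false := by simpa using hne.2
      have c1 := (back hX hz hj1 (by omega) e1).1
      have c2 := (back hX hz (by omega) (by omega) e2).1
      rcases g3 (j+1) (by omega) (by omega) with h | h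
      · rw [h] at c1; cases c1
      · rw [show j + 1 + 3 = j + 3 + 1 by ring] at h
        rw [h] at c2; cases c2
    · right; rw [show j + 3 = f + 1 by omega]; exact hf1

/-- With no hit up to time `1+t`, the zone is alive with front of speed ≥ 1/2. -/
theorem alive {a b : ℤ} (hz : Zone a b (X 1)) (t : ℕ)
    (hno : ∀ s, s ≤ t → X (1+s) (a+2) = true) :
    ∃ f, Zone a f (X (1+t)) ∧ (t ≤ 2 * (f-b) ∨ (t ≤ 2 * (f-b) + 1 ∧ X (1+t) (f+1) = false)) := by
  induction t with
  | zero => exact ⟨b, hz, Or.inl (by simp)⟩
  | succ t ih =>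
    obtain ⟨f, hf, hc⟩ := ih (fun s hs => hno s (by omega))
    have h0 : X (1 + t + 1) (a+2) = true := hno (t+1) le_rfl
    cases h1 : X (1+t) (f+1) with
    | false =>
      refine ⟨f+1, step_next hX hf h0 h1, Or.inl ?_⟩
      push_cast
      rcases hc with hc | hc <;> omega
    | true =>
      have hc' : (t:ℤ) ≤ 2 * (f-b) := by
        rcases hc with hc | hc
        · exact hc
        · rw [h1] at hc; exact absurd hc.2 (by simp)
      cases h2 : X (1+t+1) (f+1) with
      | true =>
        refine ⟨f+1, step_same' hX hf h0 h1 h2, Or.inl ?_⟩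
        push_cast; omega
      | false =>
        refine ⟨f, step_same hX hf h0 h1, Or.inr ⟨?_, h2⟩⟩
        push_cast; omega

/-- diagonal: at time `1+t`, zone alive at times `1..t`. -/
theorem diag {a b : ℤ} (hz : Zone a b (X 1)) (t : ℕ)
    (hno : ∀ s, s < t → X (1+s) (a+2) = true) {i : ℤ} (hi : a ≤ i)
    (hX0 : X (1+t) i = false) (s : ℕ) (hs : s ≤ t)
    (hbd : (3 * s : ℤ) + 2 * (i - b) ≤ t + 1) :
    X (1 + (t - s)) (i + s) = false := by
  induction s with
  | zero => simpa using hX0
  | succ s ih =>
    have ih' := ih (by omega) (by push_cast at hbd; omega)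
    obtain ⟨f, hf, hc⟩ := alive hX hz (t - (s+1)) (fun r hr => hno r (by omega))
    have hle : i + s ≤ f := by
      have h1 : ((t - (s+1) : ℕ) : ℤ) = t - (s+1) := by push_cast [Nat.cast_sub hs]; ring
      rw [h1] at hc
      push_cast at hbd
      rcases hc with hc | hc <;> omega
    have e : 1 + (t - s) = (1 + (t - (s+1))) + 1 := by omega
    rw [e] at ih'
    have := (back hX hf (i := i + s) (by omega) hle ih').1
    push_cast
    rw [show i + ((s:ℤ) + 1) = i + s + 1 by ring]
    exact this

theorem noise_false {n : ℕ} {i : ℤ} (h : X (n+1) i = false) : N n i = false := by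
  rw [hX n i] at h
  simp only [Bool.or_eq_false_iff] at h
  exact h.2

theorem det (a : ℤ) (L : ℕ) (hL : 3 ≤ L) (hN : ∀ j, a ≤ j → j ≤ a + L → N 0 j = true)
    (n : ℕ) (i : ℤ) (hi : a ≤ i) (hXn : X (n+1) i = false) (m : ℕ) (hm : m ≤ n)
    (hbd : (3 * m : ℤ) + 2 * (i - (a + L)) ≤ n + 1) :
    (∃ t, L - 1 ≤ t ∧ t ≤ n ∧ ∀ s, 3 * s ≤ t → N (t - s) (a + 2 + s) = false) ∨
    (∀ s, s ≤ m → N (n - s) (i + s) = false) := by
  have hX1 : ∀ j, a ≤ j → j ≤ a + L → X 1 j = true := by
    intro j h1 h2
    have := hX 0 j
    rw [hN j h1 h2] at this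
    simpa using this
  have hz : Zone a (a+L) (X 1) := zone_init a (a+L) (X 1) (by omega) hX1
  by_cases hhit : ∃ t, t ≤ n ∧ X (1+t) (a+2) = false
  · left
    classical
    let t := Nat.find hhit
    obtain ⟨ht, hXt⟩ := Nat.find_spec hhit
    have hmin : ∀ s, s < t → X (1+s) (a+2) = true := by
      intro s hs
      have := Nat.find_min hhit hs
      push Not at this
      have h2 := this (by omega)
      simpa using h2
    have hXt' : X (1+t) (a+2) = false := hXt
    have htn : t ≤ n := ht
    have hLt : L - 1 ≤ t := by
      by_contra hlt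
      have hlt' : t + 2 ≤ L := by omega
      have := diag hX hz t hmin (i := a+2) (by omega) hXt' t le_rfl (by omega)
      rw [Nat.sub_self] at this
      rw [hX1 (a+2+t) (by omega) (by omega)] at this
      cases this
    refine ⟨t, hLt, htn, ?_⟩
    intro s hs
    have := diag hX hz t hmin (i := a+2) (by omega) hXt' s (by omega) (by omega)
    rw [Nat.add_comm] at this
    exact noise_false hX this
  · right
    push Not at hhit
    have hno : ∀ s, s < n → X (1+s) (a+2) = true := by
      intro s hs
      have := hhit s hs.le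
      simpa using this
    intro s hs
    have := diag hX hz n hno (i := i) hi (by rw [Nat.add_comm]; exact hXn) s (by omega) (by omega)
    rw [Nat.add_comm] at this
    exact noise_false hX this

end

end Pool.Agent.Helper599.Sold
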