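import Pool.Agent.Helper599.Sold

set_option autoImplicit false
open MeasureTheory ProbabilityTheory Filter Topology

namespace Pool.Agent.Helper599.Sold

section prob
variable {Ω : Type} [MeasurableSpace Ω] {P : Measure Ω} 
  {ξ : ℕ → ℤ → Ω → Bool}

/-- sigma algebra generated by the noise variables with index in `S`. -/
@[instance_reducible] def sig (ξ : ℕ → ℤ → Ω → Bool) (S : Set (ℕ × ℤ)) : MeasurableSpace Ω :=
  ⨆ p ∈ S, MeasurableSpace.comap (ξ p.1 p.2) ⊤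

omit [MeasurableSpace Ω] in
theorem meas_basic {S : Set (ℕ × ℤ)} {p : ℕ × ℤ} (hp : p ∈ S) (c : Bool) :
    MeasurableSet[sig ξ S] {ω | ξ p.1 p.2 ω = c} := by
  have h : MeasurableSpace.comap (ξ p.1 p.2) ⊤ ≤ sig ξ S :=
    le_iSup₂ (f := fun (p : ℕ × ℤ) (_ : p ∈ S) => MeasurableSpace.comap (ξ p.1 p.2) ⊤) p hp
  exact h _ ⟨{c}, trivial, rfl⟩

theorem sig_le (hm : ∀ n i, Measurable (ξ n i)) (S : Set (ℕ × ℤ)) :
    sig ξ S ≤ ‹MeasurableSpace Ω› := by
  refine iSup₂_le fun p _ => ?_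
  rw [← measurable_iff_comap_le]
  exact hm p.1 p.2

omit [MeasurableSpace Ω] in
theorem sig_mono {S T : Set (ℕ × ℤ)} (h : S ⊆ T) : sig ξ S ≤ sig ξ T :=
  biSup_mono h

theorem sig_indep (hm : ∀ n i, Measurable (ξ n i))
    (hi : iIndepFun (fun p : ℕ × ℤ => ξ p.1 p.2) P) {S T : Set (ℕ × ℤ)} (h : Disjoint S T) :
    Indep (sig ξ S) (sig ξ T) P :=
  indep_iSup_of_disjoint (fun p => by rw [← measurable_iff_comap_le]; exact hm p.1 p.2)
    hi.iIndep h

/-- line event -/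
def line (ξ : ℕ → ℤ → Ω → Bool) (g : ℕ → ℕ) (a : ℤ) (l : ℕ) (c : Bool) : Set Ω :=
  {ω | ∀ s, s < l → ξ (g s) (a + s) ω = c}

omit [MeasurableSpace Ω] in
theorem meas_line {S : Set (ℕ × ℤ)} (g : ℕ → ℕ) (a : ℤ) (l : ℕ) (c : Bool)
    (h : ∀ s, s < l → (g s, a + (s:ℤ)) ∈ S) : MeasurableSet[sig ξ S] (line ξ g a l c) := by
  have : line ξ g a l c = ⋂ s ∈ Finset.range l, {ω | ξ (g s) (a + s) ω = c} := by
    ext ω; simp [line]
  rw [this]
  refine @Finset.measurableSet_biInter _ _ (sig ξ S) _ _ fun s hs => ?_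
  exact meas_basic (p := (g s, a + (s:ℤ))) (h s (Finset.mem_range.1 hs)) c

theorem prob_line (hi : iIndepFun (fun p : ℕ × ℤ => ξ p.1 p.2) P) {c : Bool} {r : ENNReal}
    (hc : ∀ n i, P {ω | ξ n i ω = c} = r) (g : ℕ → ℕ) (a : ℤ) (l : ℕ) :
    P (line ξ g a l c) = r ^ l := by
  classical
  have hinj : Function.Injective (fun s : ℕ => ((g s, a + (s:ℤ)) : ℕ × ℤ)) := by
    intro s t h
    simp only [Prod.mk.injEq] at h
    omega
  have h := (iIndepFun_iff_measure_inter_preimage_eq_mul.1 hi)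
    ((Finset.range l).image (fun s : ℕ => ((g s, a + (s:ℤ)) : ℕ × ℤ)))
    (sets := fun _ => {c}) (fun _ _ => measurableSet_singleton c)
  have e1 : line ξ g a l c = ⋂ p ∈ (Finset.range l).image (fun s : ℕ => ((g s, a + (s:ℤ)) : ℕ × ℤ)),
      (fun p : ℕ × ℤ => ξ p.1 p.2) p ⁻¹' {c} := by
    ext ω
    simp [line]
  rw [e1, h]
  rw [Finset.prod_congr rfl (g := fun _ => r) (fun p _ => hc p.1 p.2)]
  rw [Finset.prod_const, Finset.card_image_of_injective _ hinj, Finset.card_range]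

/-- block start -/
def blk (i : ℤ) (L k : ℕ) : ℤ := i - (k + 1) * (L + 1)

def Nuc (ξ : ℕ → ℤ → Ω → Bool) (i : ℤ) (L k : ℕ) : Set Ω :=
  line ξ (fun _ => 0) (blk i L k) (L+1) true

def None (ξ : ℕ → ℤ → Ω → Bool) (i : ℤ) (L K : ℕ) : Set Ω :=
  {ω | ∀ k, k < K → ω ∉ Nuc ξ i L k}

omit [MeasurableSpace Ω] in
theorem None_succ (i : ℤ) (L K : ℕ) : None ξ i L (K+1) = None ξ i L K ∩ (Nuc ξ i L K)ᶜ := by
  ext ω
  simp only [None, Set.mem_ofPred_eq, Set.mem_inter_iff, Set.mem_compl_iff]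
  constructor
  · intro h; exact ⟨fun k hk => h k (by omega), h K (by omega)⟩
  · rintro ⟨h1, h2⟩ k hk
    rcases Nat.lt_succ_iff_lt_or_eq.1 hk with h | h
    · exact h1 k h
    · rw [h]; exact h2

omit [MeasurableSpace Ω] in
theorem meas_Nuc (i : ℤ) (L k : ℕ) :
    MeasurableSet[sig ξ {p | p.1 = 0 ∧ blk i L k ≤ p.2 ∧ p.2 < blk i L k + (L + 1)}] (Nuc ξ i L k) := by
  refine meas_line _ _ _ _ fun s hs => ?_
  simp only [Set.mem_ofPred_eq, true_and]
  constructor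
  · omega
  · omega

omit [MeasurableSpace Ω] in
theorem blk_add (i : ℤ) (L k : ℕ) : blk i L k + (L + 1) = i - k * (L + 1) := by
  unfold blk; ring

omit [MeasurableSpace Ω] in
theorem meas_None (i : ℤ) (L K : ℕ) :
    MeasurableSet[sig ξ {p | p.1 = 0 ∧ i - K * (L+1) ≤ p.2}] (None ξ i L K) := by
  induction K with
  | zero =>
    have : None ξ i L 0 = Set.univ := by ext ω; simp [None]
    rw [this]; exact @MeasurableSet.univ _ (sig ξ _)
  | succ K ih =>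
    rw [None_succ]
    refine @MeasurableSet.inter _ (sig ξ _) _ _ ?_ ?_
    · refine sig_mono ?_ _ ih
      rintro p ⟨h1, h2⟩
      refine ⟨h1, ?_⟩
      push_cast
      have : ((K:ℤ) + 1) * (L + 1) = K * (L+1) + (L + 1) := by ring
      omega
    · refine @MeasurableSet.compl _ _ (sig ξ _) ?_
      refine sig_mono ?_ _ (meas_Nuc i L K)
      rintro p ⟨h1, h2, h3⟩
      refine ⟨h1, ?_⟩
      unfold blk at h2
      push_cast
      exact h2

theorem prob_None [IsProbabilityMeasure P] (hm : ∀ n i, Measurable (ξ n i))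
    (hi : iIndepFun (fun p : ℕ × ℤ => ξ p.1 p.2) P) {r : ENNReal}
    (hc : ∀ n i, P {ω | ξ n i ω = true} = r) (i : ℤ) (L K : ℕ) :
    P (None ξ i L K) = (1 - r ^ (L+1)) ^ K := by
  induction K with
  | zero =>
    have : None ξ i L 0 = Set.univ := by ext ω; simp [None]
    rw [this]; simp
  | succ K ih =>
    rw [None_succ]
    have hd : Disjoint {p : ℕ × ℤ | p.1 = 0 ∧ i - K * (L+1) ≤ p.2}
        {p : ℕ × ℤ | p.1 = 0 ∧ blk i L K ≤ p.2 ∧ p.2 < blk i L K + (L + 1)} := by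
      rw [Set.disjoint_left]
      rintro p ⟨_, h2⟩ ⟨_, _, h3⟩
      rw [blk_add] at h3
      omega
    have hind := (sig_indep hm hi hd)
    have h := (Indep_iff _ _ P).1 hind _ _ (meas_None i L K)
      (@MeasurableSet.compl _ _ (sig ξ _) (meas_Nuc i L K))
    rw [h, ih, prob_compl_eq_one_sub (sig_le hm _ _ (meas_Nuc i L K))]
    have hN : P (Nuc ξ i L K) = r ^ (L+1) := prob_line hi hc _ _ _
    rw [hN, ← pow_succ]

/-- first nucleus -/
def Fst (ξ : ℕ → ℤ → Ω → Bool) (i : ℤ) (L k : ℕ) : Set Ω := None ξ i L k ∩ Nuc ξ i L k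

omit [MeasurableSpace Ω] in
theorem meas_Fst (i : ℤ) (L k : ℕ) : MeasurableSet[sig ξ {p | p.1 = 0}] (Fst ξ i L k) := by
  refine @MeasurableSet.inter _ (sig ξ _) _ _ ?_ ?_
  · exact sig_mono (fun p hp => hp.1) _ (meas_None i L k)
  · exact sig_mono (fun p hp => hp.1) _ (meas_Nuc i L k)

omit [MeasurableSpace Ω] in
theorem cover (i : ℤ) (L K : ℕ) (ω : Ω) : ω ∈ None ξ i L K ∨ ∃ k, k < K ∧ ω ∈ Fst ξ i L k := by
  classical
  by_cases h : ∃ k, k < K ∧ ω ∈ Nuc ξ i L k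
  · right
    obtain ⟨h1, h2⟩ := Nat.find_spec h
    refine ⟨Nat.find h, h1, ?_, h2⟩
    intro k hk hN
    exact Nat.find_min h hk ⟨by omega, hN⟩
  · left
    push Not at h
    exact h

theorem sum_Fst [IsProbabilityMeasure P] (hm : ∀ n i, Measurable (ξ n i)) (i : ℤ) (L K : ℕ) :
    ∑ k ∈ Finset.range K, P (Fst ξ i L k) ≤ 1 := by
  rw [← measure_univ (μ := P)]
  refine sum_measure_le_measure_univ
    (fun k _ => (sig_le hm _ _ (meas_Fst i L k)).nullMeasurableSet) ?_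
  intro k hk l hl hkl
  refine Disjoint.aedisjoint ?_
  rw [Set.disjoint_left]
  intro ω h1 h2
  rcases lt_or_gt_of_ne hkl with h | h
  · exact h2.1 k h h1.2
  · exact h1.1 l h h2.2

/-- ρ = 1 - δ/3 -/
theorem rho_bound {δ : ℝ} (h0 : 0 < δ) (h1 : δ ≤ 1) (t : ℕ) :
    (1 - δ) ^ (t/3 + 1) ≤ (1 - δ/3) ^ (t+1) := by
  have hb : 1 - δ ≤ (1 - δ/3) ^ 3 := by nlinarith [sq_nonneg δ, mul_pos h0 h0, mul_pos (mul_pos h0 h0) h0]
  have hr0 : 0 ≤ 1 - δ/3 := by linarith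
  have hr1 : 1 - δ/3 ≤ 1 := by linarith
  calc (1 - δ) ^ (t/3 + 1) ≤ ((1 - δ/3) ^ 3) ^ (t/3 + 1) :=
        pow_le_pow_left₀ (by linarith) hb _
    _ = (1 - δ/3) ^ (3 * (t/3 + 1)) := by rw [← pow_mul]
    _ ≤ (1 - δ/3) ^ (t+1) := pow_le_pow_of_le_one hr0 hr1 (by omega)

/-- the hit event -/
def Hit (ξ : ℕ → ℤ → Ω → Bool) (i : ℤ) (L k t : ℕ) : Set Ω :=
  line ξ (fun s => t - s) (blk i L k + 2) (t/3 + 1) false

theorem prob_Fst_Hit [IsProbabilityMeasure P] (hm : ∀ n i, Measurable (ξ n i))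
    (hi : iIndepFun (fun p : ℕ × ℤ => ξ p.1 p.2) P) {q : ENNReal}
    (hq : ∀ n i, P {ω | ξ n i ω = false} = q) (i : ℤ) (L k t : ℕ) (ht : 1 ≤ t) :
    P (Fst ξ i L k ∩ Hit ξ i L k t) = P (Fst ξ i L k) * q ^ (t/3 + 1) := by
  have hd : Disjoint {p : ℕ × ℤ | p.1 = 0} {p : ℕ × ℤ | 1 ≤ p.1} := by
    rw [Set.disjoint_left]
    intro p h1 h2
    simp only [Set.mem_ofPred_eq] at h1 h2
    omega
  have hind := (sig_indep hm hi hd)
  have hmt : MeasurableSet[sig ξ {p : ℕ × ℤ | 1 ≤ p.1}] (Hit ξ i L k t) := by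
    refine meas_line _ _ _ _ fun s hs => ?_
    simp only [Set.mem_ofPred_eq]
    omega
  rw [(Indep_iff _ _ P).1 hind _ _ (meas_Fst i L k) hmt]
  congr 1
  exact prob_line hi hq _ _ _

theorem main_bound [IsProbabilityMeasure P] {δ : ℝ} (h0 : 0 < δ) (h1 : δ ≤ 1)
    (X : ℕ → Ω → ℤ → Bool)
    (hm : ∀ n i, Measurable (ξ n i))
    (hi : iIndepFun (fun p : ℕ × ℤ => ξ p.1 p.2) P)
    (hp : ∀ n i, P {ω | ξ n i ω = true} = ENNReal.ofReal δ)
    (hX : ∀ ω, Dyn (fun n => X n ω) (fun n i => ξ n i ω))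
    (i : ℤ) (L K m n : ℕ) (hL : 3 ≤ L) (hmn : m ≤ n)
    (hbd : (3 * m : ℤ) + 2 * (K * (L + 1)) + 2 ≤ n + 1) :
    P {ω | X (n+1) ω i = false} ≤
      (1 - ENNReal.ofReal δ ^ (L+1)) ^ K
      + ENNReal.ofReal ((1 - δ/3) ^ L / (δ/3))
      + ENNReal.ofReal (1 - δ) ^ (m+1) := by
  classical
  have hq : ∀ n i, P {ω | ξ n i ω = false} = ENNReal.ofReal (1 - δ) := by
    intro n i
    have e : {ω | ξ n i ω = false} = {ω | ξ n i ω = true}ᶜ := by
      ext ω; simp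
    rw [e, prob_compl_eq_one_sub, hp, ENNReal.ofReal_sub _ h0.le, ENNReal.ofReal_one]
    exact hm n i (measurableSet_singleton true)
  have hsub : {ω | X (n+1) ω i = false} ⊆
      None ξ i L K ∪ (⋃ k ∈ Finset.range K, ⋃ t ∈ Finset.Ico (L-1) (n+1), (Fst ξ i L k ∩ Hit ξ i L k t))
        ∪ line ξ (fun s => n - s) i (m+1) false := by
    intro ω hω
    have hω' : X (n+1) ω i = false := hω
    rcases cover (ξ := ξ) i L K ω with hc | ⟨k, hk, hF⟩
    · exact Or.inl (Or.inl hc)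
    · have hN : ∀ j, blk i L k ≤ j → j ≤ blk i L k + L → ξ 0 j ω = true := by
        intro j hj1 hj2
        have hh := hF.2 (j - blk i L k).toNat (by omega)
        rw [show blk i L k + ((j - blk i L k).toNat : ℤ) = j by omega] at hh
        exact hh
      have hb1 := blk_add i L k
      have hkK : ((k:ℤ)) * (L+1) ≤ K * (L+1) := by
        have : (k:ℤ) ≤ K := by exact_mod_cast hk.le
        nlinarith
      have hk0 : (0:ℤ) ≤ (k:ℤ) * (L+1) := by positivity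
      rcases det (hX ω) (blk i L k) L hL hN n i (by omega) hω' m hmn (by omega) with
        ⟨t, ht1, ht2, ht3⟩ | hE
      · refine Or.inl (Or.inr ?_)
        simp only [Set.mem_iUnion]
        refine ⟨k, Finset.mem_range.2 hk, t, Finset.mem_Ico.2 ⟨ht1, by omega⟩, hF, ?_⟩
        intro s hs
        exact ht3 s (by omega)
      · refine Or.inr ?_
        intro s hs
        exact hE s (by omega)
  refine (measure_mono hsub).trans ?_
  refine (measure_union_le _ _).trans ?_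
  refine add_le_add ?_ (prob_line hi hq _ _ _).le
  refine (measure_union_le _ _).trans ?_
  refine add_le_add (prob_None hm hi hp i L K).le ?_
  -- middle term
  have hr0 : 0 ≤ 1 - δ/3 := by linarith
  have hr1 : 1 - δ/3 < 1 := by linarith
  have hS : ∑ t ∈ Finset.Ico (L-1) (n+1), ENNReal.ofReal (1-δ) ^ (t/3 + 1) ≤
      ENNReal.ofReal ((1 - δ/3) ^ L / (δ/3)) := by
    calc ∑ t ∈ Finset.Ico (L-1) (n+1), ENNReal.ofReal (1-δ) ^ (t/3 + 1)
        ≤ ∑ t ∈ Finset.Ico (L-1) (n+1), ENNReal.ofReal ((1-δ/3) ^ (t+1)) := by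
          refine Finset.sum_le_sum fun t _ => ?_
          rw [← ENNReal.ofReal_pow (by linarith)]
          exact ENNReal.ofReal_le_ofReal (rho_bound h0 h1 t)
      _ = ENNReal.ofReal (∑ t ∈ Finset.Ico (L-1) (n+1), (1-δ/3) ^ (t+1)) := by
          rw [ENNReal.ofReal_sum_of_nonneg]
          intro t _; positivity
      _ ≤ ENNReal.ofReal ((1 - δ/3) ^ L / (δ/3)) := by
          refine ENNReal.ofReal_le_ofReal ?_
          have hg : ∑ t ∈ Finset.Ico (L-1) (n+1), (1-δ/3) ^ t ≤ (1-δ/3)^(L-1) / (1 - (1-δ/3)) :=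
            geom_sum_Ico_le_of_lt_one hr0 hr1
          have e : ∑ t ∈ Finset.Ico (L-1) (n+1), (1-δ/3) ^ (t+1) =
              (1 - δ/3) * ∑ t ∈ Finset.Ico (L-1) (n+1), (1-δ/3) ^ t := by
            rw [Finset.mul_sum]
            refine Finset.sum_congr rfl fun t _ => by rw [pow_succ]; ring
          rw [e]
          calc (1 - δ/3) * ∑ t ∈ Finset.Ico (L-1) (n+1), (1-δ/3) ^ t
              ≤ (1 - δ/3) * ((1-δ/3)^(L-1) / (1 - (1-δ/3))) :=
                mul_le_mul_of_nonneg_left hg hr0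
            _ = (1 - δ/3) ^ L / (δ/3) := by
                rw [show (1 - (1-δ/3)) = δ/3 by ring, ← mul_div_assoc, ← pow_succ',
                  show L - 1 + 1 = L by omega]
  calc P (⋃ k ∈ Finset.range K, ⋃ t ∈ Finset.Ico (L-1) (n+1), (Fst ξ i L k ∩ Hit ξ i L k t))
      ≤ ∑ k ∈ Finset.range K, P (⋃ t ∈ Finset.Ico (L-1) (n+1), (Fst ξ i L k ∩ Hit ξ i L k t)) :=
        measure_biUnion_finset_le _ _
    _ ≤ ∑ k ∈ Finset.range K, ∑ t ∈ Finset.Ico (L-1) (n+1), P (Fst ξ i L k ∩ Hit ξ i L k t) :=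
        Finset.sum_le_sum fun k _ => measure_biUnion_finset_le _ _
    _ = ∑ k ∈ Finset.range K, ∑ t ∈ Finset.Ico (L-1) (n+1),
          P (Fst ξ i L k) * ENNReal.ofReal (1-δ) ^ (t/3 + 1) := by
        refine Finset.sum_congr rfl fun k _ => Finset.sum_congr rfl fun t ht => ?_
        rw [Finset.mem_Ico] at ht
        exact prob_Fst_Hit hm hi hq i L k t (by omega)
    _ = (∑ k ∈ Finset.range K, P (Fst ξ i L k)) *
          ∑ t ∈ Finset.Ico (L-1) (n+1), ENNReal.ofReal (1-δ) ^ (t/3 + 1) := by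
        rw [Finset.sum_mul]
        refine Finset.sum_congr rfl fun k _ => ?_
        rw [Finset.mul_sum]
    _ ≤ 1 * ENNReal.ofReal ((1 - δ/3) ^ L / (δ/3)) :=
        mul_le_mul' (sum_Fst hm i L K) hS
    _ = _ := one_mul _

theorem core [IsProbabilityMeasure P] {δ : ℝ} (h0 : 0 < δ) (h1 : δ ≤ 1)
    (X : ℕ → Ω → ℤ → Bool)
    (hm : ∀ n i, Measurable (ξ n i))
    (hi : iIndepFun (fun p : ℕ × ℤ => ξ p.1 p.2) P)
    (hp : ∀ n i, P {ω | ξ n i ω = true} = ENNReal.ofReal δ)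
    (hX : ∀ ω, Dyn (fun n => X n ω) (fun n i => ξ n i ω)) (i : ℤ) :
    Tendsto (fun n => P {ω | X n ω i = false}) atTop (𝓝 0) := by
  rw [← tendsto_add_atTop_iff_nat 1]
  rw [ENNReal.tendsto_atTop_zero]
  intro η hη
  have hη3 : 0 < η / 3 := ENNReal.div_pos hη.ne' (by norm_num)
  -- choose L
  have hr0 : 0 ≤ 1 - δ/3 := by linarith
  have hr1 : 1 - δ/3 < 1 := by linarith
  have hLt : Tendsto (fun L : ℕ => ENNReal.ofReal ((1 - δ/3) ^ L / (δ/3))) atTop (𝓝 0) := by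
    rw [← ENNReal.ofReal_zero]
    refine ENNReal.tendsto_ofReal ?_
    have := (tendsto_pow_atTop_nhds_zero_of_lt_one hr0 hr1).div_const (δ/3)
    simpa using this
  obtain ⟨L0, hL0⟩ := ENNReal.tendsto_atTop_zero.1 hLt (η/3) hη3
  let L := max L0 3
  have hL : ENNReal.ofReal ((1 - δ/3) ^ L / (δ/3)) ≤ η/3 := hL0 L (le_max_left _ _)
  have hL3 : 3 ≤ L := le_max_right _ _
  -- choose K
  have hδ0 : 0 < ENNReal.ofReal δ := ENNReal.ofReal_pos.2 h0
  have hK1 : 1 - ENNReal.ofReal δ ^ (L+1) < 1 := by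
    refine ENNReal.sub_lt_self ENNReal.one_ne_top one_ne_zero ?_
    exact (pow_ne_zero _ hδ0.ne')
  obtain ⟨K, hK⟩ := ENNReal.tendsto_atTop_zero.1
    (ENNReal.tendsto_pow_atTop_nhds_zero_of_lt_one hK1) (η/3) hη3
  have hK' := hK K le_rfl
  -- choose m
  have hm1 : ENNReal.ofReal (1 - δ) < 1 := by
    rw [ENNReal.ofReal_lt_one]; linarith
  obtain ⟨m, hm'⟩ := ENNReal.tendsto_atTop_zero.1
    (ENNReal.tendsto_pow_atTop_nhds_zero_of_lt_one hm1) (η/3) hη3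
  have hm'' := hm' (m+1) (by omega)
  refine ⟨3 * m + 2 * (K * (L + 1)) + 2, fun n hn => ?_⟩
  have hb := main_bound (P := P) h0 h1 X hm hi hp hX i L K m n hL3 (by omega) (by
    have : ((3 * m + 2 * (K * (L + 1)) + 2 : ℕ) : ℤ) ≤ n := by exact_mod_cast hn
    push_cast at this
    omega)
  refine hb.trans ?_
  calc _ ≤ η/3 + η/3 + η/3 := add_le_add (add_le_add hK' hL) hm''
    _ = η := ENNReal.add_thirds η

end prob

end Pool.Agent.Helper599.Sold
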