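import Mathlib
import Pool.Agent.Helper599.Source

set_option autoImplicit false

namespace Pool.Agent.Helper599.Source

open Turing Relation Pool.Agent.Helper599.Core
open Turing.PartrecToTM2 (trNat trList trNum trPosNum)

section

variable {Γ : Type} [Inhabited Γ] [Fintype Γ]

theorem two_le_bas : 2 ≤ bas Γ := by
  unfold bas
  have : 0 < Fintype.card Γ := Fintype.card_pos
  omega

theorem fb_lt_fa [DecidableEq Γ] (st : TM0.Stmt Γ) (r : Bool → Fin (bas Γ)) (j : Bool) : fb st r j < fa st j := by
  have h : 1 ≤ bas Γ := by unfold bas; omega
  have h1 := (r true).2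
  have h2 := (r false).2
  unfold fb fa
  rcases st with (_ | _) | x <;> cases j <;> simp only <;>
    first | omega | exact kap_lt _ | nlinarith

end

/-- A fixed finite counter machine with undecidable halting problem, with more information. -/
theorem exists_sys2 : ∃ (Q : Type) (_ : Finite Q) (M : Sys Q Bool) (q0 : Q) (N : ℕ → ℕ),
    2 ≤ M.B ∧ (∀ q r, M.nxt q r ≠ none → ∀ j, M.b q r j < M.a q r j) ∧
    Computable N ∧ ¬ ComputablePred (fun n => M.Halts (some q0) (ini (N n))) := by
  classical
  obtain ⟨Λ, i1, i2, M, hM⟩ := exists_machine
  have fK : Finite PartrecToTM2.K' := by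
    refine Finite.of_injective (fun k : PartrecToTM2.K' => match k with
      | .main => (0 : Fin 4) | .rev => 1 | .aux => 2 | .stack => 3) ?_
    intro a b h
    cases a <;> cases b <;> simp_all
  have fG : Finite (TM2to1.Γ' PartrecToTM2.K' (fun _ => PartrecToTM2.Γ')) :=
    inferInstanceAs (Finite (Bool × (PartrecToTM2.K' → Option PartrecToTM2.Γ')))
  let _ : Fintype (TM2to1.Γ' PartrecToTM2.K' (fun _ => PartrecToTM2.Γ')) := Fintype.ofFinite _
  let N : ℕ → ℕ := fun n => enc (sym true .cons :: (trNat n).reverse.map (sym false))
  refine ⟨Λ, i2, sys M, default, N, two_le_bas, ?_, ?_, ?_⟩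
  · intro q r h j
    change (M q (del (r true))).map Prod.fst ≠ none at h
    change ((M q (del (r true))).map (fun p => fb p.2 r j)).getD 0 <
      ((M q (del (r true))).map (fun p => fa p.2 j)).getD 0
    cases hh : M q (del (r true)) with
    | none => simp [hh] at h
    | some p => simpa using fb_lt_fa p.2 r j
  · have h1 := digits_computable (fun a => kap (sym false a))
    have h2 : Computable (fun n : ℕ => ((trNat n).map (fun a => kap (sym false a))).reverse) :=
      Primrec.list_reverse.to_comp.comp h1
    have h3 := (foldr_computable
      (bas (TM2to1.Γ' PartrecToTM2.K' (fun _ => PartrecToTM2.Γ')))).comp h2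
    have h4 : Computable (fun x : ℕ => kap (sym true .cons) +
        (bas (TM2to1.Γ' PartrecToTM2.K' (fun _ => PartrecToTM2.Γ'))) * x) :=
      (Primrec.nat_add.comp (Primrec.const _)
        (Primrec.nat_mul.comp (Primrec.const _) Primrec.id)).to_comp
    refine (h4.comp h3).of_eq ?_
    intro n
    have e : ∀ l : List PartrecToTM2.Γ', enc (l.map (sym false)) =
        (l.map (fun a => kap (sym false a))).foldr (fun d acc => d +
          (bas (TM2to1.Γ' PartrecToTM2.K' (fun _ => PartrecToTM2.Γ'))) * acc) 0 := by
      intro l
      induction l with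
      | nil => rfl
      | cons a l ih =>
        simp only [List.map_cons, enc, List.foldr_cons, ih]
    simp only [N, enc]
    rw [e, List.map_reverse]
  · intro h
    apply u_not_computable
    refine h.of_eq ?_
    intro n
    rw [← hM n]
    apply halts_iff
    constructor
    · have := rep_enc (sym true .cons :: (trNat n).reverse.map (sym false))
      have e : (Tape.mk₁ (sym true PartrecToTM2.Γ'.cons :: (trNat n).reverse.map
          (sym false))).right₀ = ListBlank.mk (sym true .cons ::
            (trNat n).reverse.map (sym false)) := by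
        unfold Tape.mk₁ Tape.mk₂
        rw [Tape.mk'_right₀]
      simp only [e]
      exact this
    · exact rep_zero

end Pool.Agent.Helper599.Source
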